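import Mathlib

set_option autoImplicit false

namespace Pool.Agent.Helper46.Tor

open Finset

/-- increment number `a` of `f` at scale `τ` -/
def inc (f : ℕ → ℤ) (τ a : ℕ) : ℝ := (f ((a + 1) * τ) : ℝ) - f (a * τ)

/-- energy at scale `τ` with `N` pieces -/
noncomputable def En (f : ℕ → ℤ) (τ N : ℕ) : ℝ := ∑ a ∈ range N, (inc f τ a) ^ 2 / τ

/-- local variance of the increments: `K` small pieces of size `σ` inside the piece `i` -/
noncomputable def vv (f : ℕ → ℤ) (σ K i : ℕ) : ℝ :=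
  ∑ q ∈ range K, (inc f σ (i * K + q) - inc f (K * σ) i / K) ^ 2

theorem sum_inc (f : ℕ → ℤ) (σ a : ℕ) (q : ℕ) :
    ∑ q' ∈ range q, inc f σ (a + q') = (f ((a + q) * σ) : ℝ) - f (a * σ) := by
  induction q with
  | zero => simp
  | succ q ih =>
    rw [Finset.sum_range_succ, ih]
    unfold inc
    have : a + (q + 1) = a + q + 1 := by ring
    rw [this]; ring

theorem sum_inc_full (f : ℕ → ℤ) (σ K i : ℕ) :
    ∑ q ∈ range K, inc f σ (i * K + q) = inc f (K * σ) i := by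
  rw [sum_inc]
  unfold inc
  have h1 : (i * K + K) * σ = (i + 1) * (K * σ) := by ring
  have h2 : i * K * σ = i * (K * σ) := by ring
  rw [h1, h2]

theorem vv_nonneg (f : ℕ → ℤ) (σ K i : ℕ) : 0 ≤ vv f σ K i :=
  Finset.sum_nonneg fun _ _ => sq_nonneg _

theorem vv_eq (f : ℕ → ℤ) (σ K i : ℕ) (hK : 0 < K) :
    vv f σ K i = ∑ q ∈ range K, (inc f σ (i * K + q)) ^ 2 - (inc f (K * σ) i) ^ 2 / K := by
  have hK' : (K : ℝ) ≠ 0 := by positivity
  unfold vv
  have h : ∀ q, (inc f σ (i * K + q) - inc f (K * σ) i / K) ^ 2 =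
      (inc f σ (i * K + q)) ^ 2 - 2 * (inc f (K * σ) i / K) * inc f σ (i * K + q) +
        (inc f (K * σ) i / K) ^ 2 := fun q => by ring
  simp_rw [h]
  rw [Finset.sum_add_distrib, Finset.sum_sub_distrib, ← Finset.mul_sum, sum_inc_full,
    Finset.sum_const, Finset.card_range, nsmul_eq_mul]
  field_simp
  ring

theorem sum_range_mul' (g : ℕ → ℝ) (N K : ℕ) :
    ∑ a ∈ range (N * K), g a = ∑ i ∈ range N, ∑ q ∈ range K, g (i * K + q) := by
  induction N with
  | zero => simp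
  | succ N ih =>
    rw [Nat.succ_mul, Finset.sum_range_add, ih, Finset.sum_range_succ]

theorem sum_vv (f : ℕ → ℤ) (σ K N : ℕ) (hK : 0 < K) (hσ : 0 < σ) :
    ∑ i ∈ range N, vv f σ K i = σ * (En f σ (N * K) - En f (K * σ) N) := by
  have hK' : (K : ℝ) ≠ 0 := by positivity
  have hσ' : (σ : ℝ) ≠ 0 := by positivity
  unfold En
  rw [sum_range_mul', ← Finset.sum_sub_distrib, Finset.mul_sum]
  apply Finset.sum_congr rfl
  intro i _
  rw [vv_eq f σ K i hK, ← Finset.sum_div]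
  push_cast
  field_simp

theorem dev_sq (f : ℕ → ℤ) (σ K i q : ℕ) (hq : q ≤ K) :
    ((f ((i * K + q) * σ) : ℝ) - f (i * (K * σ)) - q * (inc f (K * σ) i / K)) ^ 2 ≤
      K * vv f σ K i := by
  have h1 : (f ((i * K + q) * σ) : ℝ) - f (i * (K * σ)) - q * (inc f (K * σ) i / K) =
      ∑ q' ∈ range q, (inc f σ (i * K + q') - inc f (K * σ) i / K) := by
    rw [Finset.sum_sub_distrib, sum_inc, Finset.sum_const, Finset.card_range, nsmul_eq_mul]
    have : i * K * σ = i * (K * σ) := by ring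
    rw [this]
  rw [h1]
  have h2 := sq_sum_le_card_mul_sum_sq (s := range q)
    (f := fun q' => inc f σ (i * K + q') - inc f (K * σ) i / K)
  rw [Finset.card_range] at h2
  have h3 : ∑ q' ∈ range q, (inc f σ (i * K + q') - inc f (K * σ) i / K) ^ 2 ≤ vv f σ K i := by
    apply Finset.sum_le_sum_of_subset_of_nonneg
    · intro z hz; rw [Finset.mem_range] at hz ⊢; omega
    · intro _ _ _; exact sq_nonneg _
  calc (∑ q' ∈ range q, (inc f σ (i * K + q') - inc f (K * σ) i / K)) ^ 2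
      ≤ (q : ℝ) * ∑ q' ∈ range q, (inc f σ (i * K + q') - inc f (K * σ) i / K) ^ 2 := h2
    _ ≤ K * vv f σ K i := by
        apply mul_le_mul _ h3 (Finset.sum_nonneg fun _ _ => sq_nonneg _) (Nat.cast_nonneg _)
        exact_mod_cast hq

/-- centre of the approximating square, one coordinate -/
def ctr (σ K : ℕ) (A A' : ℤ) (q : ℕ) : ℤ := σ * A + (q * σ * (A' - A)) / K

/-- the path stays close to the rounded chord -/
theorem near (f : ℕ → ℤ) (hf : ∀ s s', s ≤ s' → |f s' - f s| ≤ (s' : ℤ) - s)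
    (σ K i q s : ℕ) (hσ : 0 < σ) (hK : 0 < K) (hq : q < K)
    (hs1 : (i * K + q) * σ ≤ s) (hs2 : s ≤ (i * K + q + 1) * σ) (ρ : ℕ)
    (hρ : Real.sqrt (K * vv f σ K i) / σ + 4 ≤ ρ) :
    |f s - ctr σ K (f (i * (K * σ)) / σ) (f ((i + 1) * (K * σ)) / σ) q| ≤ σ * ρ := by
  have hσ' : (0:ℝ) < σ := by exact_mod_cast hσ
  have hσ1 : (1:ℝ) ≤ σ := by exact_mod_cast hσ
  have hK' : (0:ℝ) < K := by exact_mod_cast hK
  set a := f (i * (K * σ)) with ha
  set a' := f ((i + 1) * (K * σ)) with ha'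
  set A := a / (σ : ℤ) with hA
  set A' := a' / (σ : ℤ) with hA'
  have hA1 : (σ : ℤ) * A ≤ a := Int.mul_ediv_self_le (by positivity)
  have hA2 : a < σ * A + σ := by
    have := Int.lt_mul_ediv_self_add (x := a) (k := (σ : ℤ)) (by exact_mod_cast hσ)
    exact this
  have hA1' : (σ : ℤ) * A' ≤ a' := Int.mul_ediv_self_le (by positivity)
  have hA2' : a' < σ * A' + σ := by
    have := Int.lt_mul_ediv_self_add (x := a') (k := (σ : ℤ)) (by exact_mod_cast hσ)
    exact this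
  set M : ℤ := q * σ * (A' - A) with hM
  have hM1 : (K : ℤ) * (M / K) ≤ M := Int.mul_ediv_self_le (by positivity)
  have hM2 : M < K * (M / K) + K := by
    exact Int.lt_mul_ediv_self_add (x := M) (k := (K : ℤ)) (by exact_mod_cast hK)
  -- real versions
  have rA1 : (σ : ℝ) * A ≤ a := by exact_mod_cast hA1
  have rA2 : (a : ℝ) < σ * A + σ := by exact_mod_cast hA2
  have rA1' : (σ : ℝ) * A' ≤ a' := by exact_mod_cast hA1'
  have rA2' : (a' : ℝ) < σ * A' + σ := by exact_mod_cast hA2'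
  have rM1 : (K : ℝ) * ((M / K : ℤ) : ℝ) ≤ M := by exact_mod_cast hM1
  have rM2 : (M : ℝ) < K * ((M / K : ℤ) : ℝ) + K := by exact_mod_cast hM2
  have rM : (M : ℝ) = q * σ * ((A' : ℝ) - A) := by rw [hM]; push_cast; ring
  have hdev := dev_sq f σ K i q hq.le
  rw [← ha] at hdev
  have hinc : inc f (K * σ) i = (a' : ℝ) - a := by unfold inc; rw [← ha, ← ha']
  rw [hinc] at hdev
  set D : ℝ := (f ((i * K + q) * σ) : ℝ) - a - q * (((a' : ℝ) - a) / K) with hD
  have hDabs : |D| ≤ Real.sqrt (K * vv f σ K i) := Real.abs_le_sqrt hdev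
  have hstep := hf _ _ hs1
  have hstep' : |(f s : ℝ) - f ((i * K + q) * σ)| ≤ σ := by
    have h1 : (s : ℤ) - ((i * K + q) * σ : ℕ) ≤ σ := by
      have : s ≤ (i * K + q) * σ + σ := by
        calc s ≤ (i * K + q + 1) * σ := hs2
          _ = _ := by ring
      push_cast at this ⊢
      have h' : (s : ℤ) ≤ ((i * K + q) * σ + σ : ℕ) := by exact_mod_cast this
      push_cast at h'
      linarith
    have h2 := hstep.trans h1
    exact_mod_cast h2
  have hqK : (q : ℝ) / K ≤ 1 := by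
    rw [div_le_one hK']; exact_mod_cast hq.le
  have hqK0 : 0 ≤ (q : ℝ) / K := by positivity
  -- main identity
  set θ : ℝ := (q : ℝ) / K with hθ
  have hMK : (M : ℝ) / K = θ * σ * ((A' : ℝ) - A) := by rw [rM, hθ]; field_simp
  have fr1 : 0 ≤ (M : ℝ) / K - ((M / K : ℤ) : ℝ) := by
    rw [sub_nonneg, le_div_iff₀ hK']; linarith
  have fr2 : (M : ℝ) / K - ((M / K : ℤ) : ℝ) < 1 := by
    rw [sub_lt_iff_lt_add, div_lt_iff₀ hK']; linarith
  have e1 : (f s : ℝ) - (σ * A + ((M / K : ℤ) : ℝ)) =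
      ((f s : ℝ) - f ((i * K + q) * σ)) + D + (1 - θ) * ((a : ℝ) - σ * A) +
      θ * ((a' : ℝ) - σ * A') + ((M : ℝ) / K - ((M / K : ℤ) : ℝ)) := by
    rw [hMK, hD, hθ]; ring
  have b1 : 0 ≤ (1 - θ) * ((a : ℝ) - σ * A) + θ * ((a' : ℝ) - σ * A') := by
    have h1 : 0 ≤ (a : ℝ) - σ * A := by linarith
    have h2 : 0 ≤ (a' : ℝ) - σ * A' := by linarith
    have h3 : 0 ≤ 1 - θ := by linarith
    positivity
  have b2 : (1 - θ) * ((a : ℝ) - σ * A) + θ * ((a' : ℝ) - σ * A') ≤ σ := by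
    have h1 : (a : ℝ) - σ * A ≤ σ := by linarith
    have h2 : (a' : ℝ) - σ * A' ≤ σ := by linarith
    have h3 : 0 ≤ 1 - θ := by linarith
    calc (1 - θ) * ((a : ℝ) - σ * A) + θ * ((a' : ℝ) - σ * A')
        ≤ (1 - θ) * σ + θ * σ := by gcongr
      _ = σ := by ring
  have hfin : |(f s : ℝ) - (σ * A + ((M / K : ℤ) : ℝ))| ≤ σ * ρ := by
    rw [e1]
    have hρ' : Real.sqrt (K * vv f σ K i) + 4 * σ ≤ σ * ρ := by
      have h2 := mul_le_mul_of_nonneg_left hρ hσ'.le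
      rw [mul_add, mul_div_cancel₀ _ hσ'.ne'] at h2
      linarith
    have h1 := abs_le.mp hstep'
    have h2 := abs_le.mp hDabs
    rw [abs_le]
    constructor <;> linarith
  have e2 : ((f s - ctr σ K A A' q : ℤ) : ℝ) = (f s : ℝ) - (σ * A + ((M / K : ℤ) : ℝ)) := by
    unfold ctr
    rw [hM]
    push_cast
    ring
  have : ((|f s - ctr σ K A A' q| : ℤ) : ℝ) ≤ ((σ * ρ : ℤ) : ℝ) := by
    rw [Int.cast_abs, e2]
    push_cast
    exact hfin
  exact_mod_cast this

theorem ediv_diff (a a' : ℤ) (σ K : ℕ) (hσ : 0 < σ) (h : |a' - a| ≤ K * σ) :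
    |a' / σ - a / σ| ≤ K + 1 := by
  have hσ' : (0:ℤ) < σ := by exact_mod_cast hσ
  have h1 : (σ : ℤ) * (a / σ) ≤ a := Int.mul_ediv_self_le (by positivity)
  have h2 : a < σ * (a / σ) + σ := Int.lt_mul_ediv_self_add hσ'
  have h3 : (σ : ℤ) * (a' / σ) ≤ a' := Int.mul_ediv_self_le (by positivity)
  have h4 : a' < σ * (a' / σ) + σ := Int.lt_mul_ediv_self_add hσ'
  have h5 := abs_le.mp h
  rw [abs_le]
  constructor
  · by_contra hc
    push Not at hc
    have : (σ : ℤ) * (a' / σ - a / σ) ≤ σ * (-(K + 1) - 1) := by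
      apply mul_le_mul_of_nonneg_left _ hσ'.le
      omega
    nlinarith
  · by_contra hc
    push Not at hc
    have : (σ : ℤ) * (K + 1 + 1) ≤ σ * (a' / σ - a / σ) := by
      apply mul_le_mul_of_nonneg_left _ hσ'.le
      omega
    nlinarith

end Pool.Agent.Helper46.Tor
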