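import Pool.Agent.Helper46.Tor.Path
import Pool.Agent.Helper46.Tor.Coord

set_option autoImplicit false

namespace Pool.Agent.Helper46.Tor

open Finset

/-- labels at level `j` -/
abbrev Dat (j k : ℕ) : Type :=
  (Fin (2 ^ (j + k) + 1) × Fin (2 ^ (j + k) + 1)) ×
    (Fin (2 ^ j) → Fin (2 ^ (k + 1) + 3) × Fin (2 ^ (k + 1) + 3) × Fin (2 ^ k + 6))

def A1 {j k : ℕ} (d : Dat j k) (i : ℕ) : ℤ :=
  (d.1.1 : ℤ) + ∑ x : Fin (2 ^ j), if x.val < i then ((d.2 x).1 : ℤ) - (2 ^ k + 1) else 0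

def A2 {j k : ℕ} (d : Dat j k) (i : ℕ) : ℤ :=
  (d.1.2 : ℤ) + ∑ x : Fin (2 ^ j), if x.val < i then ((d.2 x).2.1 : ℤ) - (2 ^ k + 1) else 0

/-- a square in the lattice -/
noncomputable def sqr (z : ℤ × ℤ) (r : ℕ) : Finset (ℤ × ℤ) :=
  Finset.Icc (z.1 - r) (z.1 + r) ×ˢ Finset.Icc (z.2 - r) (z.2 + r)

theorem sqr_card (z : ℤ × ℤ) (r : ℕ) : #(sqr z r) = (2 * r + 1) ^ 2 := by
  unfold sqr
  rw [Finset.card_product, Int.card_Icc, Int.card_Icc]
  have h1 : (z.1 + r + 1 - (z.1 - r)).toNat = 2 * r + 1 := by omega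
  have h2 : (z.2 + r + 1 - (z.2 - r)).toNat = 2 * r + 1 := by omega
  rw [h1, h2]; ring

noncomputable def VR (n σ : ℕ) [NeZero n] {j k : ℕ} (d : Dat j k) : Finset (ZMod n × ZMod n) :=
  Finset.univ.biUnion fun i : Fin (2 ^ j) => (range (2 ^ k)).biUnion fun q =>
    (sqr (ctr σ (2 ^ k) (A1 d i) (A1 d (i + 1)) q, ctr σ (2 ^ k) (A2 d i) (A2 d (i + 1)) q)
      (σ * ((d.2 i).2.2 : ℕ))).image (proj n)

noncomputable def RE (n σ : ℕ) [NeZero n] {j k : ℕ} (d : Dat j k) : Finset (Sym2 (ZMod n × ZMod n)) :=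
  (VR n σ d ×ˢ ({0, 2} : Finset (Fin 4))).image fun p => s(p.1, p.1 + proj n (vec p.2))

theorem VR_card (n σ : ℕ) [NeZero n] {j k : ℕ} (d : Dat j k) :
    #(VR n σ d) ≤ ∑ i : Fin (2 ^ j), 2 ^ k * (2 * (σ * ((d.2 i).2.2 : ℕ)) + 1) ^ 2 := by
  unfold VR
  refine Finset.card_biUnion_le.trans (Finset.sum_le_sum fun i _ => ?_)
  refine Finset.card_biUnion_le.trans ?_
  calc _ ≤ ∑ q ∈ range (2 ^ k), (2 * (σ * ((d.2 i).2.2 : ℕ)) + 1) ^ 2 := by
        apply Finset.sum_le_sum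
        intro q _
        refine Finset.card_image_le.trans ?_
        rw [sqr_card]
    _ = _ := by rw [Finset.sum_const, Finset.card_range, smul_eq_mul]

theorem RE_card (n σ : ℕ) [NeZero n] {j k : ℕ} (d : Dat j k) :
    #(RE n σ d) ≤ 2 * #(VR n σ d) := by
  unfold RE
  refine Finset.card_image_le.trans ?_
  rw [Finset.card_product]
  have : #({0, 2} : Finset (Fin 4)) = 2 := by decide
  rw [this, mul_comm]

theorem edge_mem_RE (n σ : ℕ) [NeZero n] {j k : ℕ} (d : Dat j k) (v : ZMod n × ZMod n) (s : Fin 4)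
    (h1 : v ∈ VR n σ d) (h2 : v + proj n (vec s) ∈ VR n σ d) :
    s(v, v + proj n (vec s)) ∈ RE n σ d := by
  unfold RE
  rw [Finset.mem_image]
  fin_cases s
  · exact ⟨(v, 0), by simp [h1], rfl⟩
  · refine ⟨(v + proj n (vec 1), 0), by simpa using h2, ?_⟩
    have : v + proj n (vec 1) + proj n (vec 0) = v := by
      rw [add_assoc, ← proj_add]
      have : vec 1 + vec 0 = 0 := by simp [vec]
      rw [this, proj_zero, add_zero]
    simp only [this]
    exact Sym2.eq_swap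
  · exact ⟨(v, 2), by simp [h1], rfl⟩
  · refine ⟨(v + proj n (vec 3), 2), by simpa using h2, ?_⟩
    have : v + proj n (vec 3) + proj n (vec 2) = v := by
      rw [add_assoc, ← proj_add]
      have : vec 3 + vec 2 = 0 := by simp [vec]
      rw [this, proj_zero, add_zero]
    simp only [this]
    exact Sym2.eq_swap

theorem lip_of_step (f g : ℕ → ℤ) (h : ∀ i, |f (i + 1) - f i| + |g (i + 1) - g i| ≤ 1)
    (s t : ℕ) : |f (s + t) - f s| + |g (s + t) - g s| ≤ t := by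
  induction t with
  | zero => simp
  | succ t ih =>
    have h1 := h (s + t)
    have h2 : |f (s + (t + 1)) - f s| ≤ |f (s + t + 1) - f (s + t)| + |f (s + t) - f s| := by
      have : f (s + (t + 1)) - f s = (f (s + t + 1) - f (s + t)) + (f (s + t) - f s) := by
        rw [← add_assoc]; ring
      rw [this]; exact abs_add_le _ _
    have h3 : |g (s + (t + 1)) - g s| ≤ |g (s + t + 1) - g (s + t)| + |g (s + t) - g s| := by
      have : g (s + (t + 1)) - g s = (g (s + t + 1) - g (s + t)) + (g (s + t) - g s) := by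
        rw [← add_assoc]; ring
      rw [this]; exact abs_add_le _ _
    push_cast
    linarith

section encode
variable (f g : ℕ → ℤ) (h : ∀ i, |f (i + 1) - f i| + |g (i + 1) - g i| ≤ 1)
include h

theorem inc_sq_le (τ a : ℕ) : (inc f τ a) ^ 2 + (inc g τ a) ^ 2 ≤ (τ : ℝ) ^ 2 := by
  have h1 := lip_of_step f g h (a * τ) τ
  have h2 : |inc f τ a| + |inc g τ a| ≤ τ := by
    unfold inc
    have e : (a + 1) * τ = a * τ + τ := by ring
    rw [e]
    have : ((|f (a * τ + τ) - f (a * τ)| + |g (a * τ + τ) - g (a * τ)| : ℤ) : ℝ) ≤ ((τ : ℤ) : ℝ) := by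
      exact_mod_cast h1
    push_cast at this
    exact this
  have a1 := abs_nonneg (inc f τ a)
  have a2 := abs_nonneg (inc g τ a)
  rw [← sq_abs (inc f τ a), ← sq_abs (inc g τ a)]
  nlinarith

theorem En_le (τ N : ℕ) (hτ : 0 < τ) : En f τ N + En g τ N ≤ (N * τ : ℕ) := by
  unfold En
  rw [← Finset.sum_add_distrib]
  have hτ' : (0:ℝ) < τ := by exact_mod_cast hτ
  calc ∑ x ∈ range N, (inc f τ x ^ 2 / τ + inc g τ x ^ 2 / τ) ≤ ∑ x ∈ range N, (τ : ℝ) := by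
        apply Finset.sum_le_sum
        intro a _
        rw [← add_div, div_le_iff₀ hτ']
        have := inc_sq_le f g h τ a
        nlinarith
    _ = _ := by simp

omit h in
theorem En_nonneg (τ N : ℕ) : 0 ≤ En f τ N := Finset.sum_nonneg fun _ _ => by positivity

/-- pigeonhole over the scales -/
theorem exists_scale (m k J : ℕ) (hJ : 0 < J) (hm : J * k ≤ m) :
    ∃ r < J, (En f (2 ^ (m - (r + 1) * k)) (2 ^ ((r + 1) * k)) +
        En g (2 ^ (m - (r + 1) * k)) (2 ^ ((r + 1) * k))) -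
      (En f (2 ^ (m - r * k)) (2 ^ (r * k)) + En g (2 ^ (m - r * k)) (2 ^ (r * k))) ≤
      2 ^ m / (J : ℝ) := by
  by_contra hcon
  push Not at hcon
  set e : ℕ → ℝ := fun r => En f (2 ^ (m - r * k)) (2 ^ (r * k)) +
    En g (2 ^ (m - r * k)) (2 ^ (r * k)) with he
  have h1 : ∑ r ∈ range J, (e (r + 1) - e r) = e J - e 0 := Finset.sum_range_sub e J
  have h2 : ∑ r ∈ range J, (2 ^ m / (J : ℝ)) < ∑ r ∈ range J, (e (r + 1) - e r) := by
    apply Finset.sum_lt_sum_of_nonempty (Finset.nonempty_range_iff.mpr hJ.ne')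
    intro r hr
    exact hcon r (Finset.mem_range.mp hr)
  rw [h1, Finset.sum_const, Finset.card_range, nsmul_eq_mul,
    mul_div_cancel₀ _ (by positivity)] at h2
  have h3 : e J ≤ 2 ^ m := by
    have := En_le f g h (2 ^ (m - J * k)) (2 ^ (J * k)) (by positivity)
    rw [he]; simp only
    refine this.trans ?_
    rw [← pow_add, Nat.add_sub_cancel' hm]
    push_cast; exact le_rfl
  have h4 : 0 ≤ e 0 := add_nonneg (En_nonneg f _ _) (En_nonneg g _ _)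
  linarith

theorem vv_le (σ K i : ℕ) (hK : 0 < K) : vv f σ K i + vv g σ K i ≤ K * (σ : ℝ) ^ 2 := by
  rw [vv_eq f σ K i hK, vv_eq g σ K i hK]
  have h1 : ∑ q ∈ range K, (inc f σ (i * K + q)) ^ 2 + ∑ q ∈ range K, (inc g σ (i * K + q)) ^ 2
      ≤ K * (σ : ℝ) ^ 2 := by
    rw [← Finset.sum_add_distrib]
    calc _ ≤ ∑ q ∈ range K, (σ : ℝ) ^ 2 :=
          Finset.sum_le_sum fun q _ => inc_sq_le f g h σ (i * K + q)
      _ = _ := by simp
  have h2 : 0 ≤ (inc f (K * σ) i) ^ 2 / K := by positivity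
  have h3 : 0 ≤ (inc g (K * σ) i) ^ 2 / K := by positivity
  linarith

/-- the radius (in units of `σ`) used for piece `i` -/
noncomputable def rad (f g : ℕ → ℤ) (σ K i : ℕ) : ℕ :=
  ⌈Real.sqrt (K * (vv f σ K i + vv g σ K i)) / σ⌉₊ + 4

theorem rad_le (σ K i : ℕ) (hK : 0 < K) (hσ : 0 < σ) : rad f g σ K i ≤ K + 4 := by
  unfold rad
  have hσ' : (0:ℝ) < σ := by exact_mod_cast hσ
  have h1 := vv_le f g h σ K i hK
  have : ⌈Real.sqrt (K * (vv f σ K i + vv g σ K i)) / σ⌉₊ ≤ K := by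
    rw [Nat.ceil_le, div_le_iff₀ hσ']
    rw [Real.sqrt_le_left (by positivity)]
    calc (K : ℝ) * (vv f σ K i + vv g σ K i) ≤ K * (K * (σ : ℝ) ^ 2) := by gcongr
      _ = _ := by ring
  omega

omit h in
theorem rad_ge (σ K i : ℕ) :
    Real.sqrt (K * (vv f σ K i + vv g σ K i)) / σ + 4 ≤ rad f g σ K i := by
  unfold rad
  push_cast
  linarith [Nat.le_ceil (Real.sqrt (K * (vv f σ K i + vv g σ K i)) / σ)]

omit h in
theorem rad_sq_le (σ K i : ℕ) (hσ : 0 < σ) :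
    (rad f g σ K i : ℝ) ^ 2 ≤ 2 * (K * (vv f σ K i + vv g σ K i)) / (σ : ℝ) ^ 2 + 50 := by
  have hσ' : (0:ℝ) < σ := by exact_mod_cast hσ
  set S := Real.sqrt (K * (vv f σ K i + vv g σ K i)) with hS
  have hS0 : 0 ≤ S := Real.sqrt_nonneg _
  have hv : 0 ≤ (K:ℝ) * (vv f σ K i + vv g σ K i) :=
    mul_nonneg (Nat.cast_nonneg _) (add_nonneg (vv_nonneg _ _ _ _) (vv_nonneg _ _ _ _))
  have hS2 : S ^ 2 = K * (vv f σ K i + vv g σ K i) := Real.sq_sqrt hv
  have h1 : (rad f g σ K i : ℝ) ≤ S / σ + 5 := by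
    unfold rad
    push_cast
    have := Nat.ceil_lt_add_one (show 0 ≤ S / σ by positivity)
    linarith
  have h0 : (0:ℝ) ≤ rad f g σ K i := Nat.cast_nonneg _
  calc (rad f g σ K i : ℝ) ^ 2 ≤ (S / σ + 5) ^ 2 := by gcongr
    _ ≤ 2 * (S / σ) ^ 2 + 50 := by nlinarith [sq_nonneg (S / σ - 5)]
    _ = _ := by rw [div_pow, hS2]; ring

/-- existence of the label -/
theorem exists_dat (j k σ : ℕ) (hσ : 0 < σ) (hf0 : 0 ≤ f 0) (hg0 : 0 ≤ g 0)
    (hf1 : f 0 ≤ 2 ^ (j + k) * σ) (hg1 : g 0 ≤ 2 ^ (j + k) * σ) :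
    ∃ d : Dat j k, (∀ i ≤ 2 ^ j, A1 d i = f (i * (2 ^ k * σ)) / σ) ∧
      (∀ i ≤ 2 ^ j, A2 d i = g (i * (2 ^ k * σ)) / σ) ∧
      (∀ i : Fin (2 ^ j), ((d.2 i).2.2 : ℕ) = rad f g σ (2 ^ k) i) := by
  have hσ' : (0:ℤ) < σ := by exact_mod_cast hσ
  have hlip := lip_of_step f g h
  have hdf : ∀ i : ℕ, |f ((i + 1) * (2 ^ k * σ)) / σ - f (i * (2 ^ k * σ)) / σ| ≤ 2 ^ k + 1 := by
    intro i
    have := ediv_diff (f (i * (2 ^ k * σ))) (f ((i + 1) * (2 ^ k * σ))) σ (2 ^ k) hσ (by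
      have h1 := hlip (i * (2 ^ k * σ)) (2 ^ k * σ)
      have e : (i + 1) * (2 ^ k * σ) = i * (2 ^ k * σ) + 2 ^ k * σ := by ring
      rw [e]
      have h2 := abs_nonneg (g (i * (2 ^ k * σ) + 2 ^ k * σ) - g (i * (2 ^ k * σ)))
      push_cast at h1 ⊢
      linarith)
    push_cast at this
    exact this
  have hdg : ∀ i : ℕ, |g ((i + 1) * (2 ^ k * σ)) / σ - g (i * (2 ^ k * σ)) / σ| ≤ 2 ^ k + 1 := by
    intro i
    have := ediv_diff (g (i * (2 ^ k * σ))) (g ((i + 1) * (2 ^ k * σ))) σ (2 ^ k) hσ (by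
      have h1 := hlip (i * (2 ^ k * σ)) (2 ^ k * σ)
      have e : (i + 1) * (2 ^ k * σ) = i * (2 ^ k * σ) + 2 ^ k * σ := by ring
      rw [e]
      have h2 := abs_nonneg (f (i * (2 ^ k * σ) + 2 ^ k * σ) - f (i * (2 ^ k * σ)))
      push_cast at h1 ⊢
      linarith)
    push_cast at this
    exact this
  have hf0' : 0 ≤ f 0 / σ := Int.ediv_nonneg hf0 hσ'.le
  have hg0' : 0 ≤ g 0 / σ := Int.ediv_nonneg hg0 hσ'.le
  have hf1' : f 0 / σ ≤ 2 ^ (j + k) := by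
    have := Int.ediv_le_ediv hσ' hf1
    rwa [Int.mul_ediv_cancel _ hσ'.ne'] at this
  have hg1' : g 0 / σ ≤ 2 ^ (j + k) := by
    have := Int.ediv_le_ediv hσ' hg1
    rwa [Int.mul_ediv_cancel _ hσ'.ne'] at this
  have e2 : (2:ℤ) ^ (k + 1) = 2 * 2 ^ k := by rw [pow_succ]; ring
  have e2' : (2:ℕ) ^ (k + 1) = 2 * 2 ^ k := by rw [pow_succ]; ring
  let df : ℕ → ℤ := fun i => f ((i + 1) * (2 ^ k * σ)) / σ - f (i * (2 ^ k * σ)) / σ
  let dg : ℕ → ℤ := fun i => g ((i + 1) * (2 ^ k * σ)) / σ - g (i * (2 ^ k * σ)) / σ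
  have bf : ∀ i, (df i + (2 ^ k + 1)).toNat < 2 ^ (k + 1) + 3 ∧
      ((df i + (2 ^ k + 1)).toNat : ℤ) = df i + (2 ^ k + 1) := by
    intro i
    have := abs_le.mp (hdf i)
    have h3 : 0 ≤ df i + (2 ^ k + 1) := by simp only [df]; linarith
    have h4 := Int.toNat_of_nonneg h3
    refine ⟨?_, h4⟩
    zify
    rw [h4, e2]
    simp only [df]
    linarith
  have bg : ∀ i, (dg i + (2 ^ k + 1)).toNat < 2 ^ (k + 1) + 3 ∧
      ((dg i + (2 ^ k + 1)).toNat : ℤ) = dg i + (2 ^ k + 1) := by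
    intro i
    have := abs_le.mp (hdg i)
    have h3 : 0 ≤ dg i + (2 ^ k + 1) := by simp only [dg]; linarith
    have h4 := Int.toNat_of_nonneg h3
    refine ⟨?_, h4⟩
    zify
    rw [h4, e2]
    simp only [dg]
    linarith
  have b0f : (f 0 / σ).toNat < 2 ^ (j + k) + 1 ∧ ((f 0 / σ).toNat : ℤ) = f 0 / σ := by
    have h4 := Int.toNat_of_nonneg hf0'
    refine ⟨?_, h4⟩
    zify
    rw [h4]; linarith
  have b0g : (g 0 / σ).toNat < 2 ^ (j + k) + 1 ∧ ((g 0 / σ).toNat : ℤ) = g 0 / σ := by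
    have h4 := Int.toNat_of_nonneg hg0'
    refine ⟨?_, h4⟩
    zify
    rw [h4]; linarith
  let d : Dat j k := ((⟨(f 0 / σ).toNat, b0f.1⟩, ⟨(g 0 / σ).toNat, b0g.1⟩),
    fun i => (⟨(df i + (2 ^ k + 1)).toNat, (bf i).1⟩, ⟨(dg i + (2 ^ k + 1)).toNat, (bg i).1⟩,
      ⟨rad f g σ (2 ^ k) i, by
        have := rad_le f g h σ (2 ^ k) i (by positivity) hσ
        omega⟩))
  have tel : ∀ (u : ℕ → ℤ) (i : ℕ), i ≤ 2 ^ j →
      (∑ x : Fin (2 ^ j), if x.val < i then (u (x.val + 1) - u x.val) else 0) = u i - u 0 := by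
    intro u i hi
    rw [Fin.sum_univ_eq_sum_range (fun x => if x < i then (u (x + 1) - u x) else 0) (2 ^ j)]
    rw [← Finset.sum_filter]
    have : (range (2 ^ j)).filter (fun x => x < i) = range i := by
      ext x; simp only [Finset.mem_filter, Finset.mem_range]; omega
    rw [this, Finset.sum_range_sub]
  refine ⟨d, ?_, ?_, fun i => rfl⟩
  · intro i hi
    unfold A1
    have h1 : ∀ x : Fin (2 ^ j), (if x.val < i then ((d.2 x).1 : ℤ) - (2 ^ k + 1) else 0) =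
        if x.val < i then (f ((x.val + 1) * (2 ^ k * σ)) / σ - f (x.val * (2 ^ k * σ)) / σ)
          else 0 := by
      intro x
      have : ((d.2 x).1 : ℤ) = df x + (2 ^ k + 1) := (bf x).2
      rw [this]
      simp only [df]
      split_ifs <;> ring
    rw [Finset.sum_congr rfl fun x _ => h1 x]
    have h2 := tel (fun i => f (i * (2 ^ k * σ)) / σ) i hi
    rw [h2]
    have h3 : ((d.1.1 : ℕ) : ℤ) = f 0 / σ := b0f.2
    rw [h3]
    simp
  · intro i hi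
    unfold A2
    have h1 : ∀ x : Fin (2 ^ j), (if x.val < i then ((d.2 x).2.1 : ℤ) - (2 ^ k + 1) else 0) =
        if x.val < i then (g ((x.val + 1) * (2 ^ k * σ)) / σ - g (x.val * (2 ^ k * σ)) / σ)
          else 0 := by
      intro x
      have : ((d.2 x).2.1 : ℤ) = dg x + (2 ^ k + 1) := (bg x).2
      rw [this]
      simp only [dg]
      split_ifs <;> ring
    rw [Finset.sum_congr rfl fun x _ => h1 x]
    have h2 := tel (fun i => g (i * (2 ^ k * σ)) / σ) i hi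
    rw [h2]
    have h3 : ((d.1.2 : ℕ) : ℤ) = g 0 / σ := b0g.2
    rw [h3]
    simp

/-- all positions up to time `2 ^ j * 2 ^ k * σ` lie in the region -/
theorem mem_VR (n j k σ : ℕ) [NeZero n] (hσ : 0 < σ) (d : Dat j k)
    (hd1 : ∀ i ≤ 2 ^ j, A1 d i = f (i * (2 ^ k * σ)) / σ)
    (hd2 : ∀ i ≤ 2 ^ j, A2 d i = g (i * (2 ^ k * σ)) / σ)
    (hd3 : ∀ i : Fin (2 ^ j), ((d.2 i).2.2 : ℕ) = rad f g σ (2 ^ k) i)
    (s : ℕ) (hs : s ≤ 2 ^ j * 2 ^ k * σ) : proj n (f s, g s) ∈ VR n σ d := by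
  have hK : 0 < 2 ^ k := by positivity
  -- find `i, q`
  obtain ⟨i, q, hi, hq, h1, h2⟩ : ∃ i q, i < 2 ^ j ∧ q < 2 ^ k ∧ (i * 2 ^ k + q) * σ ≤ s ∧
      s ≤ (i * 2 ^ k + q + 1) * σ := by
    rcases hs.lt_or_eq with hlt | heq
    · have ha : s / σ < 2 ^ j * 2 ^ k := Nat.div_lt_of_lt_mul (by rw [mul_comm]; exact hlt)
      refine ⟨s / σ / 2 ^ k, s / σ % 2 ^ k, Nat.div_lt_of_lt_mul (by rw [mul_comm]; exact ha),
        Nat.mod_lt _ hK, ?_, ?_⟩
      · rw [Nat.div_add_mod']; exact Nat.div_mul_le_self s σ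
      · rw [Nat.div_add_mod']; exact (Nat.lt_mul_of_div_lt (Nat.lt_succ_self _) hσ).le
    · refine ⟨2 ^ j - 1, 2 ^ k - 1, by
        have : 0 < 2 ^ j := by positivity
        omega, by omega, ?_, ?_⟩
      · rw [heq]
        apply Nat.mul_le_mul_right
        have h2j : 0 < 2 ^ j := by positivity
        calc (2 ^ j - 1) * 2 ^ k + (2 ^ k - 1) ≤ (2 ^ j - 1) * 2 ^ k + 2 ^ k := by omega
          _ = (2 ^ j - 1 + 1) * 2 ^ k := by ring
          _ = _ := by rw [Nat.sub_add_cancel h2j]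
      · rw [heq]
        apply Nat.mul_le_mul_right
        have h2j : 0 < 2 ^ j := by positivity
        have : (2 ^ j - 1) * 2 ^ k + (2 ^ k - 1) + 1 = 2 ^ j * 2 ^ k := by
          calc (2 ^ j - 1) * 2 ^ k + (2 ^ k - 1) + 1 = (2 ^ j - 1) * 2 ^ k + 2 ^ k := by omega
            _ = (2 ^ j - 1 + 1) * 2 ^ k := by ring
            _ = _ := by rw [Nat.sub_add_cancel h2j]
        omega
  have hlf : ∀ s s', s ≤ s' → |f s' - f s| ≤ (s' : ℤ) - s := by
    intro a b hab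
    have := lip_of_step f g h a (b - a)
    rw [Nat.add_sub_cancel' hab] at this
    have h3 := abs_nonneg (g b - g a)
    rw [Nat.cast_sub hab] at this
    linarith
  have hlg : ∀ s s', s ≤ s' → |g s' - g s| ≤ (s' : ℤ) - s := by
    intro a b hab
    have := lip_of_step f g h a (b - a)
    rw [Nat.add_sub_cancel' hab] at this
    have h3 := abs_nonneg (f b - f a)
    rw [Nat.cast_sub hab] at this
    linarith
  have hr := rad_ge f g σ (2 ^ k) i
  have hvf := vv_nonneg f σ (2 ^ k) i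
  have hvg := vv_nonneg g σ (2 ^ k) i
  have hσ' : (0:ℝ) < σ := by exact_mod_cast hσ
  have hrf : Real.sqrt ((2 ^ k : ℕ) * vv f σ (2 ^ k) i) / σ + 4 ≤ rad f g σ (2 ^ k) i := by
    refine le_trans ?_ hr
    gcongr
    linarith
  have hrg : Real.sqrt ((2 ^ k : ℕ) * vv g σ (2 ^ k) i) / σ + 4 ≤ rad f g σ (2 ^ k) i := by
    refine le_trans ?_ hr
    gcongr
    linarith
  have n1 := near f hlf σ (2 ^ k) i q s hσ hK hq h1 h2 _ hrf
  have n2 := near g hlg σ (2 ^ k) i q s hσ hK hq h1 h2 _ hrg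
  unfold VR
  rw [Finset.mem_biUnion]
  refine ⟨⟨i, hi⟩, Finset.mem_univ _, ?_⟩
  rw [Finset.mem_biUnion]
  refine ⟨q, Finset.mem_range.mpr hq, ?_⟩
  rw [Finset.mem_image]
  refine ⟨(f s, g s), ?_, rfl⟩
  unfold sqr
  rw [Finset.mem_product, Finset.mem_Icc, Finset.mem_Icc]
  simp only
  rw [hd1 i hi.le, hd1 (i + 1) hi, hd2 i hi.le, hd2 (i + 1) hi, hd3 ⟨i, hi⟩]
  have a1 := abs_le.mp n1
  have a2 := abs_le.mp n2
  push_cast at a1 a2 ⊢
  refine ⟨⟨?_, ?_⟩, ?_, ?_⟩ <;> linarith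

omit h in
/-- cardinality of the region of a label coming from a path -/
theorem RE_card_le (n j k σ : ℕ) [NeZero n] (hσ : 0 < σ) (d : Dat j k)
    (hd3 : ∀ i : Fin (2 ^ j), ((d.2 i).2.2 : ℕ) = rad f g σ (2 ^ k) i)
    (hE : ∑ i ∈ range (2 ^ j), (2 ^ k : ℝ) * (vv f σ (2 ^ k) i + vv g σ (2 ^ k) i) ≤
      (σ : ℝ) ^ 2 * 2 ^ j) :
    (#(RE n σ d) : ℝ) ≤ 936 * (2 ^ (j + k) * (σ : ℝ) ^ 2) := by
  have hσ' : (0:ℝ) < σ := by exact_mod_cast hσ
  have hσ1 : (1:ℝ) ≤ σ := by exact_mod_cast hσ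
  have h1 := RE_card n σ d
  have h2 := VR_card n σ d
  have h3 : (#(VR n σ d) : ℝ) ≤ ∑ i : Fin (2 ^ j), (2:ℝ) ^ k * (3 * (σ * rad f g σ (2 ^ k) i)) ^ 2 := by
    calc (#(VR n σ d) : ℝ) ≤ ((∑ i : Fin (2 ^ j), 2 ^ k * (2 * (σ * ((d.2 i).2.2 : ℕ)) + 1) ^ 2 : ℕ) : ℝ) := by
          exact_mod_cast h2
      _ = ∑ i : Fin (2 ^ j), (2:ℝ) ^ k * (2 * (σ * rad f g σ (2 ^ k) i) + 1) ^ 2 := by
          push_cast
          apply Finset.sum_congr rfl
          intro i _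
          rw [hd3 i]
      _ ≤ _ := by
          apply Finset.sum_le_sum
          intro i _
          have hr4 : (4:ℝ) ≤ rad f g σ (2 ^ k) i := by
            have : 4 ≤ rad f g σ (2 ^ k) i := by unfold rad; omega
            exact_mod_cast this
          gcongr
          nlinarith
  have h4 : ∑ i : Fin (2 ^ j), (2:ℝ) ^ k * (3 * (σ * rad f g σ (2 ^ k) i)) ^ 2 =
      9 * 2 ^ k * (σ:ℝ) ^ 2 * ∑ i ∈ range (2 ^ j), (rad f g σ (2 ^ k) i : ℝ) ^ 2 := by
    rw [Fin.sum_univ_eq_sum_range (fun i => (2:ℝ) ^ k * (3 * (σ * rad f g σ (2 ^ k) i)) ^ 2) (2 ^ j),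
      Finset.mul_sum]
    apply Finset.sum_congr rfl
    intro i _
    ring
  have h5 : ∑ i ∈ range (2 ^ j), (rad f g σ (2 ^ k) i : ℝ) ^ 2 ≤ 52 * 2 ^ j := by
    calc ∑ i ∈ range (2 ^ j), (rad f g σ (2 ^ k) i : ℝ) ^ 2
        ≤ ∑ i ∈ range (2 ^ j), (2 * ((2:ℝ) ^ k * (vv f σ (2 ^ k) i + vv g σ (2 ^ k) i)) /
          (σ : ℝ) ^ 2 + 50) := by
          apply Finset.sum_le_sum
          intro i _
          have := rad_sq_le f g σ (2 ^ k) i hσ
          push_cast at this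
          exact this
      _ = 2 * (∑ i ∈ range (2 ^ j), (2:ℝ) ^ k * (vv f σ (2 ^ k) i + vv g σ (2 ^ k) i)) /
          (σ : ℝ) ^ 2 + 50 * 2 ^ j := by
          rw [Finset.sum_add_distrib, ← Finset.sum_div, ← Finset.mul_sum]
          simp
          ring
      _ ≤ 2 * ((σ : ℝ) ^ 2 * 2 ^ j) / (σ : ℝ) ^ 2 + 50 * 2 ^ j := by gcongr
      _ = 52 * 2 ^ j := by field_simp; ring
  calc (#(RE n σ d) : ℝ) ≤ 2 * (#(VR n σ d) : ℝ) := by exact_mod_cast h1
    _ ≤ 2 * (9 * 2 ^ k * (σ:ℝ) ^ 2 * (52 * 2 ^ j)) := by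
        rw [h4] at h3
        have : 9 * 2 ^ k * (σ:ℝ) ^ 2 * ∑ i ∈ range (2 ^ j), (rad f g σ (2 ^ k) i : ℝ) ^ 2 ≤
          9 * 2 ^ k * (σ:ℝ) ^ 2 * (52 * 2 ^ j) := by gcongr
        linarith
    _ = _ := by rw [pow_add]; ring

end encode

theorem edgesL_mem' (n : ℕ) (x : ZMod n × ZMod n) (w : List (Fin 4)) (e : Sym2 (ZMod n × ZMod n))
    (he : e ∈ edgesL n x w) :
    ∃ i s, i < w.length ∧ tot (w.take (i + 1)) = tot (w.take i) + vec s ∧
      e = s(x + proj n (tot (w.take i)), x + proj n (tot (w.take i)) + proj n (vec s)) := by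
  induction w generalizing x with
  | nil => simp [edgesL] at he
  | cons s w ih =>
    simp only [edgesL, List.mem_cons] at he
    rcases he with rfl | he
    · exact ⟨0, s, by simp, by simp [tot_cons, tot_nil], by simp [tot_nil, proj_zero]⟩
    · obtain ⟨i, s', hi, h1, h2⟩ := ih _ he
      refine ⟨i + 1, s', by simpa using hi, ?_, ?_⟩
      · rw [List.take_succ_cons, List.take_succ_cons, tot_cons, tot_cons, h1, add_assoc]
      · rw [h2, List.take_succ_cons, tot_cons, proj_add]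
        simp only [add_assoc]

/-- The region theorem. -/
theorem region_thm (n m k : ℕ) [NeZero n] (hn : n ≤ 2 ^ m) (hkm : 4 ^ k * k ≤ m)
    (x : ZMod n × ZMod n) (w : List (Fin 4)) (hw : w.length ≤ 2 ^ m) :
    ∃ l : (Σ r : Fin (4 ^ k), Dat (r * k) k),
      (∀ e ∈ edgesL n x w, e ∈ RE n (2 ^ (m - l.1 * k - k)) l.2) ∧
      (#(RE n (2 ^ (m - l.1 * k - k)) l.2) : ℝ) ≤ 936 * (2 ^ (2 * m) / 2 ^ (l.1 * k + k)) := by
  let P : ℕ → ℤ × ℤ := fun i => rep n x + tot (w.take i)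
  let f : ℕ → ℤ := fun i => (P i).1
  let g : ℕ → ℤ := fun i => (P i).2
  have hstep : ∀ i, |f (i + 1) - f i| + |g (i + 1) - g i| ≤ 1 := by
    intro i
    have h1 : w.take (i + 1) = w.take i ++ (w.drop i).take 1 := by rw [List.take_add]
    have h2 : P (i + 1) - P i = tot ((w.drop i).take 1) := by
      simp only [P]
      rw [h1, tot_append]
      abel
    have h3 := tot_abs ((w.drop i).take 1)
    have h4 : ((w.drop i).take 1).length ≤ 1 := List.length_take_le _ _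
    rw [← h2] at h3
    have h5 : ((((w.drop i).take 1).length : ℕ) : ℤ) ≤ 1 := by exact_mod_cast h4
    simp only [Prod.fst_sub, Prod.snd_sub] at h3
    simp only [f, g]
    linarith
  obtain ⟨r, hr, hE⟩ := exists_scale f g hstep m k (4 ^ k) (by positivity) hkm
  have hrk : (r + 1) * k ≤ m := le_trans (Nat.mul_le_mul_right k hr) hkm
  have hrk' : r * k + k ≤ m := by rw [← Nat.succ_mul]; exact hrk
  set j := r * k with hj
  set σ := 2 ^ (m - j - k) with hσdef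
  have hσ : 0 < σ := by positivity
  have hm : 2 ^ (j + k) * σ = 2 ^ m := by
    rw [hσdef, ← pow_add]; congr 1; omega
  have hx1 : (rep n x).1 < n := by
    simp only [rep]; exact_mod_cast ZMod.val_lt x.1
  have hx2 : (rep n x).2 < n := by
    simp only [rep]; exact_mod_cast ZMod.val_lt x.2
  have hn' : (n : ℤ) ≤ 2 ^ (j + k) * σ := by
    have : n ≤ 2 ^ (j + k) * σ := by rw [hm]; exact hn
    exact_mod_cast this
  have hf0 : f 0 = (rep n x).1 := by simp [f, P, tot_nil]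
  have hg0 : g 0 = (rep n x).2 := by simp [g, P, tot_nil]
  obtain ⟨d, hd1, hd2, hd3⟩ := exists_dat f g hstep j k σ hσ
    (by rw [hf0]; exact Int.natCast_nonneg _) (by rw [hg0]; exact Int.natCast_nonneg _)
    (by rw [hf0]; linarith) (by rw [hg0]; linarith)
  have hmem : ∀ s ≤ 2 ^ m, x + proj n (tot (w.take s)) ∈ VR n σ d := by
    intro s hs
    have := mem_VR f g hstep n j k σ hσ d hd1 hd2 hd3 s (by rw [← pow_add, hm]; exact hs)
    have e : proj n (f s, g s) = x + proj n (tot (w.take s)) := by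
      have : (f s, g s) = P s := rfl
      rw [this]
      simp only [P]
      rw [proj_add, proj_rep]
    rwa [e] at this
  refine ⟨⟨⟨r, hr⟩, d⟩, ?_, ?_⟩
  · intro e he
    obtain ⟨i, s, hi, h1, rfl⟩ := edgesL_mem' n x w e he
    apply edge_mem_RE
    · exact hmem i (by omega)
    · have := hmem (i + 1) (by omega)
      rw [h1, proj_add, ← add_assoc] at this
      exact this
  · have hsum : ∑ i ∈ range (2 ^ j), (2 ^ k : ℝ) * (vv f σ (2 ^ k) i + vv g σ (2 ^ k) i) ≤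
      (σ : ℝ) ^ 2 * 2 ^ j := by
      rw [← Finset.mul_sum, Finset.sum_add_distrib,
        sum_vv f σ (2 ^ k) (2 ^ j) (by positivity) hσ,
        sum_vv g σ (2 ^ k) (2 ^ j) (by positivity) hσ]
      have e1 : 2 ^ (m - (r + 1) * k) = σ := by
        rw [hσdef, hj]; congr 1; rw [Nat.succ_mul]; omega
      have e2 : 2 ^ ((r + 1) * k) = 2 ^ j * 2 ^ k := by
        rw [hj, ← pow_add]; congr 1; rw [Nat.succ_mul]
      have e3 : 2 ^ (m - j) = 2 ^ k * σ := by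
        rw [hσdef, ← pow_add]; congr 1; omega
      rw [e1, e2, e3] at hE
      have hE' : (En f σ (2 ^ j * 2 ^ k) - En f (2 ^ k * σ) (2 ^ j)) +
          (En g σ (2 ^ j * 2 ^ k) - En g (2 ^ k * σ) (2 ^ j)) ≤ 2 ^ m / ((4 ^ k : ℕ) : ℝ) := by
        linarith
      have hσ' : (0:ℝ) < σ := by exact_mod_cast hσ
      calc (2:ℝ) ^ k * (σ * (En f σ (2 ^ j * 2 ^ k) - En f (2 ^ k * σ) (2 ^ j)) +
            σ * (En g σ (2 ^ j * 2 ^ k) - En g (2 ^ k * σ) (2 ^ j)))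
          = 2 ^ k * σ * ((En f σ (2 ^ j * 2 ^ k) - En f (2 ^ k * σ) (2 ^ j)) +
            (En g σ (2 ^ j * 2 ^ k) - En g (2 ^ k * σ) (2 ^ j))) := by ring
        _ ≤ 2 ^ k * σ * (2 ^ m / ((4 ^ k : ℕ) : ℝ)) := by gcongr
        _ = (σ : ℝ) ^ 2 * 2 ^ j := by
            have h1 : (2:ℝ) ^ m = 2 ^ (j + k) * σ := by exact_mod_cast hm.symm
            have h4 : ((4 ^ k : ℕ) : ℝ) = 2 ^ k * 2 ^ k := by
              push_cast
              rw [← mul_pow]; norm_num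
            rw [h1, h4, pow_add]
            field_simp
    have hc := RE_card_le f g n j k σ hσ d hd3 hsum
    simp only
    refine hc.trans (le_of_eq ?_)
    have h1 : (2:ℝ) ^ m = 2 ^ (j + k) * σ := by exact_mod_cast hm.symm
    have h2 : (2:ℝ) ^ (2 * m) = (2 ^ (j + k) * σ) ^ 2 := by rw [← h1]; ring
    rw [h2]
    show 936 * (2 ^ (j + k) * (σ:ℝ) ^ 2) = 936 * (((2:ℝ) ^ (j + k) * σ) ^ 2 / 2 ^ (j + k))
    field_simp

theorem card_Dat (j k : ℕ) (hk : 3 ≤ k) : Fintype.card (Dat j k) ≤ 2 ^ (8 * k * 2 ^ j) := by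
  have h1 : Fintype.card (Dat j k) = (2 ^ (j + k) + 1) * (2 ^ (j + k) + 1) *
      ((2 ^ (k + 1) + 3) * ((2 ^ (k + 1) + 3) * (2 ^ k + 6))) ^ (2 ^ j) := by
    simp [Dat, Fintype.card_prod, Fintype.card_fin]
  rw [h1]
  have h8 : 8 ≤ 2 ^ k := by
    calc 8 = 2 ^ 3 := by norm_num
      _ ≤ 2 ^ k := Nat.pow_le_pow_right (by norm_num) hk
  have a1 : 2 ^ (j + k) + 1 ≤ 2 ^ (j + k + 1) := by
    rw [pow_succ]; have : 1 ≤ 2 ^ (j + k) := Nat.one_le_two_pow; omega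
  have a2 : 2 ^ (k + 1) + 3 ≤ 2 ^ (k + 2) := by
    have e1 : 2 ^ (k + 1) = 2 * 2 ^ k := by rw [pow_succ]; ring
    have e2 : 2 ^ (k + 2) = 4 * 2 ^ k := by rw [pow_add]; ring
    omega
  have a3 : 2 ^ k + 6 ≤ 2 ^ (k + 1) := by
    have e1 : 2 ^ (k + 1) = 2 * 2 ^ k := by rw [pow_succ]; ring
    omega
  have hjk : j + k + 1 ≤ 2 ^ j * (k + 1) := by
    have : j + 1 ≤ 2 ^ j := Nat.lt_two_pow_self
    nlinarith
  calc (2 ^ (j + k) + 1) * (2 ^ (j + k) + 1) *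
      ((2 ^ (k + 1) + 3) * ((2 ^ (k + 1) + 3) * (2 ^ k + 6))) ^ (2 ^ j)
      ≤ 2 ^ (j + k + 1) * 2 ^ (j + k + 1) *
      (2 ^ (k + 2) * (2 ^ (k + 2) * 2 ^ (k + 1))) ^ (2 ^ j) := by gcongr
    _ = 2 ^ (2 * (j + k + 1) + (3 * k + 5) * 2 ^ j) := by
        rw [← pow_add, ← pow_add, ← pow_add, ← pow_mul, ← pow_add]
        congr 1; ring
    _ ≤ 2 ^ (8 * k * 2 ^ j) := by
        apply Nat.pow_le_pow_right (by norm_num)
        have h2j : 1 ≤ 2 ^ j := Nat.one_le_two_pow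
        nlinarith

end Pool.Agent.Helper46.Tor
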