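import Pool.Agent.Helper46.Tor.Good
import Pool.Agent.Helper46.Tor.Region

set_option autoImplicit false

namespace Pool.Agent.Helper46.Tor

open Finset

/-- labels of regions -/
abbrev Lb (k : ℕ) : Type := Σ r : Fin (4 ^ k), Dat (r * k) k

/-- region of a label -/
noncomputable def Rgn (n m k : ℕ) [NeZero n] (l : Lb k) : Finset (Sym2 (ZMod n × ZMod n)) :=
  RE n (2 ^ (m - l.1 * k - k)) l.2

/-- exponent attached to a label -/
def pex (k : ℕ) (l : Lb k) : ℕ := 8 * k * 2 ^ (l.1 * k : ℕ)

instance LbNonempty (k : ℕ) : Nonempty (Lb k) :=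
  ⟨⟨⟨0, by positivity⟩, ((0, 0), fun _ => (0, 0, 0))⟩⟩

theorem err_sum (n m k : ℕ) [NeZero n] (hk : 3 ≤ k) {α β ε : ℝ} (hα : 0 < α) (hβ : 0 < β)
    (hs : α + β ≤ 1) (hε : 0 ≤ ε) (hε1 : ε ≤ 1)
    (hε2 : 7488 * k * 4 ^ m * ε ^ 2 ≤ α * 2 ^ k)
    (hε3 : ∀ l : Lb k, (pex k l : ℝ) * ε ≤ α)
    (labels : Finset (Lb k))
    (hl : ∀ l ∈ labels, (#(Rgn n m k l) : ℝ) ≤ 936 * (2 ^ (2 * m) / 2 ^ (l.1 * k + k))) :
    ∑ l ∈ labels, Real.exp (-((pex k l : ℝ) - 1) * 4) *
        (∑ s, wt α β s * rho α β ε s ^ (pex k l)) ^ #(Rgn n m k l) ≤ Real.exp (-10) := by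
  have hterm : ∀ l ∈ labels, Real.exp (-((pex k l : ℝ) - 1) * 4) *
        (∑ s, wt α β s * rho α β ε s ^ (pex k l)) ^ #(Rgn n m k l) ≤
      Real.exp (-3 * (pex k l : ℝ) + 4) := by
    intro l hll
    have h1 := rho_moment hα hβ hs hε (pex k l) (hε3 l)
    have h0 : 0 ≤ ∑ s, wt α β s * rho α β ε s ^ (pex k l) :=
      Finset.sum_nonneg fun s _ => mul_nonneg (wt_nonneg hα.le hβ.le hs s)
        (pow_nonneg (rho_nonneg hα hβ.le hε hε1 s) _)
    have h2 : (∑ s, wt α β s * rho α β ε s ^ (pex k l)) ^ #(Rgn n m k l) ≤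
        Real.exp (pex k l) := by
      calc _ ≤ (Real.exp ((pex k l : ℝ) ^ 2 * ε ^ 2 / α)) ^ #(Rgn n m k l) :=
            pow_le_pow_left₀ h0 h1 _
        _ = Real.exp (#(Rgn n m k l) * ((pex k l : ℝ) ^ 2 * ε ^ 2 / α)) := by
            rw [← Real.exp_nat_mul]
        _ ≤ Real.exp (pex k l) := by
            apply Real.exp_le_exp.mpr
            have hR := hl l hll
            have hpe : (pex k l : ℝ) = 8 * k * 2 ^ (l.1 * k : ℕ) := by
              unfold pex; push_cast; ring
            calc (#(Rgn n m k l) : ℝ) * ((pex k l : ℝ) ^ 2 * ε ^ 2 / α)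
                ≤ 936 * (2 ^ (2 * m) / 2 ^ (l.1 * k + k)) * ((pex k l : ℝ) ^ 2 * ε ^ 2 / α) := by
                  gcongr
              _ = (pex k l : ℝ) * ((7488 * k * 4 ^ m * ε ^ 2) / (α * 2 ^ k)) := by
                  rw [pow_add, hpe]
                  have : (2:ℝ) ^ (2 * m) = 4 ^ m := by rw [pow_mul]; norm_num
                  rw [this]
                  field_simp
                  ring
              _ ≤ (pex k l : ℝ) * 1 := by
                  apply mul_le_mul_of_nonneg_left _ (Nat.cast_nonneg _)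
                  rw [div_le_one (by positivity)]
                  exact hε2
              _ = _ := mul_one _
    calc _ ≤ Real.exp (-((pex k l : ℝ) - 1) * 4) * Real.exp (pex k l) := by gcongr
      _ = _ := by rw [← Real.exp_add]; congr 1; ring
  calc _ ≤ ∑ l ∈ labels, Real.exp (-3 * (pex k l : ℝ) + 4) := Finset.sum_le_sum hterm
    _ ≤ ∑ l : Lb k, Real.exp (-3 * (pex k l : ℝ) + 4) :=
        Finset.sum_le_sum_of_subset_of_nonneg (Finset.subset_univ _)
          fun _ _ _ => (Real.exp_pos _).le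
    _ = ∑ r : Fin (4 ^ k), ∑ _d : Dat (r * k) k,
          Real.exp (-3 * ((8 * k * 2 ^ (r * k : ℕ) : ℕ) : ℝ) + 4) := by
        rw [Fintype.sum_sigma]
        rfl
    _ ≤ ∑ r : Fin (4 ^ k), Real.exp (4 - 16 * k) := by
        apply Finset.sum_le_sum
        intro r _
        rw [Finset.sum_const, Finset.card_univ, nsmul_eq_mul]
        set p := 8 * k * 2 ^ (r * k : ℕ) with hp
        have hc : (Fintype.card (Dat (r * k) k) : ℝ) ≤ 2 ^ p := by
          exact_mod_cast card_Dat (r * k) k hk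
        have h2e : (2:ℝ) ^ p ≤ Real.exp p := by
          calc (2:ℝ) ^ p ≤ (Real.exp 1) ^ p := by
                gcongr
                have := Real.add_one_le_exp (1:ℝ); linarith
            _ = Real.exp p := by rw [← Real.exp_nat_mul, mul_one]
        calc (Fintype.card (Dat (r * k) k) : ℝ) * Real.exp (-3 * (p : ℝ) + 4)
            ≤ Real.exp p * Real.exp (-3 * (p : ℝ) + 4) := by
              gcongr
              exact hc.trans h2e
          _ = Real.exp (4 - 2 * p) := by rw [← Real.exp_add]; congr 1; ring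
          _ ≤ Real.exp (4 - 16 * k) := by
              apply Real.exp_le_exp.mpr
              have h1 : (8 * k : ℝ) ≤ p := by
                rw [hp]
                push_cast
                have : (1:ℝ) ≤ 2 ^ (r * k : ℕ) := one_le_pow₀ (by norm_num)
                have hk0 : (0:ℝ) ≤ 8 * k := by positivity
                nlinarith
              linarith
    _ = (4 ^ k : ℝ) * Real.exp (4 - 16 * k) := by
        rw [Finset.sum_const, Finset.card_univ, Fintype.card_fin, nsmul_eq_mul]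
        push_cast; ring
    _ ≤ Real.exp (2 * k) * Real.exp (4 - 16 * k) := by
        gcongr
        calc (4:ℝ) ^ k ≤ (Real.exp 2) ^ k := by
              gcongr
              have h1 : Real.exp 2 = Real.exp 1 * Real.exp 1 := by
                rw [← Real.exp_add]; norm_num
              have h2 := Real.add_one_le_exp (1:ℝ)
              rw [h1]; nlinarith
          _ = Real.exp (2 * k) := by rw [← Real.exp_nat_mul]; congr 1; ring
    _ ≤ Real.exp (-10) := by
        rw [← Real.exp_add]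
        apply Real.exp_le_exp.mpr
        have : (3:ℝ) ≤ k := by exact_mod_cast hk
        linarith

open Classical in
/-- the core inequality, for fixed values of the low, middle and high weights -/
theorem core (n m k : ℕ) [NeZero n] (hn2 : 2 ≤ n) (hn : n ≤ 2 ^ m) (hk : 3 ≤ k)
    (hkm : 4 ^ k * k ≤ m) {α β ε : ℝ} (hα : 0 < α) (hβ : 0 < β) (hs : α + β ≤ 1)
    (hε : 0 ≤ ε) (hε1 : ε ≤ 1)
    (hε2 : 7488 * k * 4 ^ m * ε ^ 2 ≤ α * 2 ^ k)
    (hε3 : ∀ l : Lb k, (pex k l : ℝ) * ε ≤ α)
    (a b : ℝ) (hb : 0 ≤ b) (hab : a ≤ b)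
    (tt : Sym2 (ZMod n × ZMod n) → Fin 3 → ℝ) (htt : ∀ e s, 0 ≤ tt e s)
    (ht0 : ∀ e, tt e 0 ≤ a) (ht2 : ∀ e, b ≤ tt e 2)
    (h : ℝ) (hh0 : 0 ≤ h) (hεh : 5 ≤ ε * h)
    (μ L : ℝ) (q : ℕ) (hq : q * (n - 1) ≤ 2 ^ m) (hL : L < b * h * q)
    (Tm : (Sym2 (ZMod n × ZMod n) → Fin 3) → ℝ)
    (hT1 : ∀ c g, Tm c ≤ cst (cntW n) tt c g) (hT2 : ∀ c, ∃ g, Tm c = cst (cntW n) tt c g) :
    1 / 2 * ∑ c, PP α β c * (if Tm c ≤ μ ∧ Tm c ≤ L ∧ Good1 n c h then (1:ℝ) else 0) ≤
      Real.exp 4 * ∑ c, PP α β c * (if Tm c ≤ μ - (b - a) * (ε * h / 2) then (1:ℝ) else 0) +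
      Real.exp (-10) := by
  obtain ⟨geo, hmin, hleast⟩ := exists_geo n tt htt
  have h02 : ∀ e, tt e 0 ≤ tt e 2 := fun e => (ht0 e).trans (hab.trans (ht2 e))
  have hTgeo : ∀ c, Tm c = cst (cntW n) tt c (geo c) := by
    intro c
    obtain ⟨g, hg⟩ := hT2 c
    exact le_antisymm (hT1 c _) (by rw [hg]; exact hmin c g)
  have hSA : ∀ c, SA (geo c).1.2 := fun c =>
    geo_SA n tt htt c (geo c) (hmin c) (hleast c)
  have hlab : ∀ g : Wind n, ∃ l : Lb k, g.1.2.length ≤ 2 ^ m →
      (∀ e ∈ edgesL n g.1.1 g.1.2, e ∈ Rgn n m k l) ∧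
      (#(Rgn n m k l) : ℝ) ≤ 936 * (2 ^ (2 * m) / 2 ^ (l.1 * k + k)) := by
    intro g
    by_cases hg : g.1.2.length ≤ 2 ^ m
    · obtain ⟨l, hl⟩ := region_thm n m k hn hkm g.1.1 g.1.2 hg
      exact ⟨l, fun _ => hl⟩
    · exact ⟨Classical.arbitrary _, fun h => absurd h hg⟩
  choose lab hlab using hlab
  let A : (Sym2 (ZMod n × ZMod n) → Fin 3) → Prop := fun c =>
    Tm c ≤ μ ∧ Tm c ≤ L ∧ Good1 n c h
  let reg : (Sym2 (ZMod n × ZMod n) → Fin 3) → Option (Lb k) := fun c =>
    if A c then some (lab (geo c)) else none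
  have hregsome : ∀ c l, reg c = some l → A c ∧ lab (geo c) = l := by
    intro c l hc
    by_cases hA : A c
    · simp only [reg, if_pos hA, Option.some.injEq] at hc
      exact ⟨hA, hc⟩
    · simp [reg, hA] at hc
  have hlen : ∀ c, A c → (geo c).1.2.length ≤ 2 ^ m := by
    intro c hA
    by_contra hcon
    push Not at hcon
    have h1 := cost_windows hn2 (fun e => tt e (c e)) (fun e => htt e (c e)) b h hb c
      (fun e he => by rw [he]; exact ht2 e) hA.2.2 q (geo c).1.1 (geo c).1.2 (hSA c) (by omega)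
    have h2 := hTgeo c
    rw [cst_eq_costL] at h2
    have h3 := hA.2.1
    linarith
  let labels : Finset (Lb k) := Finset.univ.filter fun l =>
    (#(Rgn n m k l) : ℝ) ≤ 936 * (2 ^ (2 * m) / 2 ^ (l.1 * k + k))
  have hreg : ∀ c l, reg c = some l → l ∈ labels := by
    intro c l hc
    obtain ⟨hA, hl⟩ := hregsome c l hc
    rw [← hl]
    exact Finset.mem_filter.mpr ⟨Finset.mem_univ _, (hlab (geo c) (hlen c hA)).2⟩
  have hsuppc : ∀ c, A c → ∀ e, cntW n (geo c) e ≠ 0 → e ∈ Rgn n m k (lab (geo c)) := by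
    intro c hA e he
    apply (hlab (geo c) (hlen c hA)).1 e
    exact List.count_pos_iff.mp (Nat.pos_of_ne_zero he)
  have mult : ∀ c' u l l', reg (raise (Rgn n m k l) c' u) = some l →
      reg (raise (Rgn n m k l') c' u) = some l' → l = l' := by
    intro c' u l l' h1 h2
    obtain ⟨hA1, hl1⟩ := hregsome _ _ h1
    obtain ⟨hA2, hl2⟩ := hregsome _ _ h2
    have e1 := geo_unique (cntW n) tt h02 (rankW n) (rankW_injective n) geo hmin hleast
      (Rgn n m k l) c' u (by
        intro e he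
        have := hsuppc _ hA1 e he
        rwa [hl1] at this)
    have e2 := geo_unique (cntW n) tt h02 (rankW n) (rankW_injective n) geo hmin hleast
      (Rgn n m k l') c' u (by
        intro e he
        have := hsuppc _ hA2 e he
        rwa [hl2] at this)
    rw [← hl1, ← hl2, e1, e2]
  have hp : ∀ l ∈ labels, 1 ≤ pex k l := by
    intro l _
    unfold pex
    have : 0 < 2 ^ (l.1 * k : ℕ) := by positivity
    have h3 : 0 < 8 * k := by omega
    exact Nat.mul_pos h3 this
  have hdrop : ∀ c l, reg c = some l →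
      1 / 2 ≤ ∑ u : Sym2 (ZMod n × ZMod n) → Bool, Ber ε u *
        (if (fun c => Tm c ≤ μ - (b - a) * (ε * h / 2)) (lower (Rgn n m k l) c u)
          then (1:ℝ) else 0) := by
    intro c l hc
    obtain ⟨hA, hl⟩ := hregsome c l hc
    set g := geo c with hg
    have hgl : n ≤ g.1.2.length := by
      have h1 := tot_abs g.1.2
      rw [g.2] at h1
      simp only [abs_zero, add_zero, Nat.abs_cast] at h1
      exact_mod_cast h1
    let S := (edgesL n g.1.1 (g.1.2.take (n - 1))).toFinset.filter fun e => c e = 2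
    have hS : h < #S := hA.2.2 g.1.1 (g.1.2.take (n - 1)) (by rw [List.length_take]; omega)
      (SA_take (hSA c) _)
    have hSmem : ∀ e ∈ S, e ∈ edgesL n g.1.1 g.1.2 := by
      intro e he
      have h1 := List.mem_toFinset.mp (Finset.mem_filter.mp he).1
      have h2 : edgesL n g.1.1 g.1.2 = edgesL n g.1.1 (g.1.2.take (n - 1)) ++
          edgesL n (g.1.1 + proj n (tot (g.1.2.take (n - 1)))) (g.1.2.drop (n - 1)) := by
        rw [← edgesL_append, List.take_append_drop]
      rw [h2]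
      exact List.mem_append_left _ h1
    have hScnt : ∀ e ∈ S, cntW n g e ≠ 0 := by
      intro e he
      exact (List.count_pos_iff.mpr (hSmem e he)).ne'
    apply drop_prob hε hε1 S h hh0 hS.le hεh
    intro u hu
    simp only
    have h1 := cst_lower_le (cntW n) tt (b - a)
      (fun e => by have := ht0 e; have := ht2 e; linarith) (by linarith) (Rgn n m k l) c u g S
      (by
        intro e he
        have := hsuppc c hA e (hScnt e he)
        rwa [hl] at this)
      (fun e he => (Finset.mem_filter.mp he).2) hScnt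
    have h2 := hT1 (lower (Rgn n m k l) c u) g
    have h3 : cst (cntW n) tt c g ≤ μ := by
      rw [← hTgeo c]; exact hA.1
    have h4 : (b - a) * (ε * h / 2) ≤ (b - a) * #(S.filter fun e => u e = true) :=
      mul_le_mul_of_nonneg_left hu.le (by linarith)
    linarith
  have hmain := main_ineq (C0 := 4) hα hβ hs hε hε1 (by norm_num) labels (Rgn n m k) reg hreg mult
    (fun c => Tm c ≤ μ - (b - a) * (ε * h / 2)) (pex k) hp hdrop
  have herr := err_sum n m k hk hα hβ hs hε hε1 hε2 hε3 labels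
    (fun l hl => (Finset.mem_filter.mp hl).2)
  have hind : ∀ c : Sym2 (ZMod n × ZMod n) → Fin 3,
      (if (reg c).isSome then (1:ℝ) else 0) =
      (if Tm c ≤ μ ∧ Tm c ≤ L ∧ Good1 n c h then (1:ℝ) else 0) := by
    intro c
    by_cases hA : A c
    · have : reg c = some (lab (geo c)) := by simp only [reg, if_pos hA]
      rw [this]
      simp only [Option.isSome_some, if_true]
      rw [if_pos hA]
    · have : reg c = none := by simp only [reg, if_neg hA]
      rw [this]
      rw [if_neg hA]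
      simp
  simp_rw [hind] at hmain
  linarith

end Pool.Agent.Helper46.Tor
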