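import Mathlib

set_option autoImplicit false

namespace Pool.Agent.Helper46.Tor

open Finset

/-- category weights: `0` = low, `1` = middle, `2` = high -/
noncomputable def wt (α β : ℝ) : Fin 3 → ℝ := ![α, 1 - α - β, β]

/-- one-coordinate density of the lowered law -/
noncomputable def rho (α β ε : ℝ) : Fin 3 → ℝ := ![1 + ε * β / α, 1, 1 - ε]

def ber (δ : ℝ) (b : Bool) : ℝ := if b then δ else 1 - δ

def lowE (s : Fin 3) (b : Bool) : Fin 3 := if b = true ∧ s = 2 then 0 else s

def raiseE (s : Fin 3) (b : Bool) : Fin 3 := if b = true ∧ s = 0 then 2 else s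

noncomputable def del (α β ε : ℝ) : ℝ := (ε * β / α) / (1 + ε * β / α)

section
variable {E : Type*} [Fintype E] [DecidableEq E]

def lower (R : Finset E) (c : E → Fin 3) (u : E → Bool) : E → Fin 3 :=
  fun e => if e ∈ R then lowE (c e) (u e) else c e

def raise (R : Finset E) (c : E → Fin 3) (u : E → Bool) : E → Fin 3 :=
  fun e => if e ∈ R then raiseE (c e) (u e) else c e

noncomputable def PP (α β : ℝ) (c : E → Fin 3) : ℝ := ∏ e, wt α β (c e)

noncomputable def Ber (δ : ℝ) (u : E → Bool) : ℝ := ∏ e, ber δ (u e)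

noncomputable def Lr (α β ε : ℝ) (R : Finset E) (c : E → Fin 3) : ℝ := ∏ e ∈ R, rho α β ε (c e)

theorem ber_sum (δ : ℝ) : ∑ b : Bool, ber δ b = 1 := by
  simp [ber]

theorem sum_prod_bool (f : E → Bool → ℝ) :
    ∑ u : E → Bool, ∏ e, f e (u e) = ∏ e, ∑ b : Bool, f e b := by
  classical
  rw [Finset.prod_univ_sum, Fintype.piFinset_univ]

theorem sum_prod_fin (f : E → Fin 3 → ℝ) :
    ∑ u : E → Fin 3, ∏ e, f e (u e) = ∏ e, ∑ b : Fin 3, f e b := by
  classical
  rw [Finset.prod_univ_sum, Fintype.piFinset_univ]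

theorem Ber_sum (δ : ℝ) : ∑ u : E → Bool, Ber δ u = 1 := by
  unfold Ber
  rw [sum_prod_bool (fun _ b => ber δ b)]
  simp only [ber_sum, Finset.prod_const_one]

theorem wt_sum (α β : ℝ) : ∑ s, wt α β s = 1 := by
  simp [wt, Fin.sum_univ_three]
  ring

theorem PP_sum (α β : ℝ) : ∑ c : E → Fin 3, PP α β c = 1 := by
  unfold PP
  rw [sum_prod_fin]
  simp [wt_sum]

theorem ind_prod {X : Type*} [DecidableEq X] (f g : E → X) :
    (if f = g then (1:ℝ) else 0) = ∏ e, (if f e = g e then (1:ℝ) else 0) := by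
  by_cases h : f = g
  · subst h; simp
  · rw [if_neg h]
    obtain ⟨e, he⟩ := Function.ne_iff.mp h
    symm
    apply Finset.prod_eq_zero (Finset.mem_univ e)
    simp [he]

theorem edge_id {α β ε : ℝ} (hα : 0 < α) (hβ : 0 < β) (hε : 0 ≤ ε) (s s' : Fin 3) :
    wt α β s * ∑ b : Bool, ber ε b * (if lowE s b = s' then (1:ℝ) else 0) =
    wt α β s' * rho α β ε s' *
      ∑ b : Bool, ber (del α β ε) b * (if raiseE s' b = s then (1:ℝ) else 0) := by
  have h1 : 0 < 1 + ε * β / α := by positivity
  have hne : (1 + ε * β / α) ≠ 0 := h1.ne'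
  have hd : (1 + ε * β / α) * del α β ε = ε * β / α := by
    unfold del; field_simp
  have hd2 : (1 + ε * β / α) * (1 - del α β ε) = 1 := by
    rw [mul_sub, hd]; ring
  have hd3 : α * (ε * β / α) = β * ε := by field_simp
  fin_cases s <;> fin_cases s' <;>
    simp [wt, rho, ber, lowE, raiseE] 
  · rw [mul_assoc]; nlinarith [hd2]
  · rw [mul_assoc, hd, hd3]

theorem pair_id {α β ε : ℝ} (hα : 0 < α) (hβ : 0 < β) (hε : 0 ≤ ε) (R : Finset E)
    (c c' : E → Fin 3) :
    PP α β c * ∑ u : E → Bool, Ber ε u * (if lower R c u = c' then (1:ℝ) else 0) =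
    PP α β c' * Lr α β ε R c' *
      ∑ u : E → Bool, Ber (del α β ε) u * (if raise R c' u = c then (1:ℝ) else 0) := by
  have hL : ∑ u : E → Bool, Ber ε u * (if lower R c u = c' then (1:ℝ) else 0) =
      ∏ e, ∑ b : Bool, ber ε b *
        (if (if e ∈ R then lowE (c e) b else c e) = c' e then (1:ℝ) else 0) := by
    rw [← sum_prod_bool]
    apply Finset.sum_congr rfl
    intro u _
    rw [ind_prod, Ber, ← Finset.prod_mul_distrib]
    rfl
  have hR : ∑ u : E → Bool, Ber (del α β ε) u * (if raise R c' u = c then (1:ℝ) else 0) =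
      ∏ e, ∑ b : Bool, ber (del α β ε) b *
        (if (if e ∈ R then raiseE (c' e) b else c' e) = c e then (1:ℝ) else 0) := by
    rw [← sum_prod_bool]
    apply Finset.sum_congr rfl
    intro u _
    rw [ind_prod, Ber, ← Finset.prod_mul_distrib]
    rfl
  have hLr : Lr α β ε R c' = ∏ e, (if e ∈ R then rho α β ε (c' e) else 1) := by
    unfold Lr
    rw [Finset.prod_ite_mem, Finset.univ_inter]
  rw [hL, hR, hLr, PP, PP, ← Finset.prod_mul_distrib, ← Finset.prod_mul_distrib,
    ← Finset.prod_mul_distrib]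
  apply Finset.prod_congr rfl
  intro e _
  by_cases he : e ∈ R
  · simp only [he, if_true]
    exact edge_id hα hβ hε (c e) (c' e)
  · simp only [he, if_false, mul_one]
    rw [← Finset.sum_mul, ← Finset.sum_mul, ber_sum, ber_sum]
    by_cases h : c e = c' e
    · simp [h]
    · simp [h, Ne.symm h]

/-- transfer identity -/
theorem transfer {α β ε : ℝ} (hα : 0 < α) (hβ : 0 < β) (hε : 0 ≤ ε) (R : Finset E)
    (Φ : (E → Fin 3) → (E → Fin 3) → ℝ) :
    ∑ c, PP α β c * ∑ u : E → Bool, Ber ε u * Φ c (lower R c u) =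
    ∑ c', PP α β c' * Lr α β ε R c' *
      ∑ u : E → Bool, Ber (del α β ε) u * Φ (raise R c' u) c' := by
  have h1 : ∀ c : E → Fin 3, PP α β c * ∑ u : E → Bool, Ber ε u * Φ c (lower R c u) =
      ∑ c', (PP α β c * ∑ u : E → Bool, Ber ε u * (if lower R c u = c' then (1:ℝ) else 0))
        * Φ c c' := by
    intro c
    simp_rw [mul_assoc, Finset.sum_mul]
    rw [← Finset.mul_sum, Finset.sum_comm]
    congr 1
    apply Finset.sum_congr rfl
    intro u _
    simp_rw [mul_assoc]
    rw [← Finset.mul_sum]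
    congr 1
    simp
  have h2 : ∀ c' : E → Fin 3, PP α β c' * Lr α β ε R c' *
      ∑ u : E → Bool, Ber (del α β ε) u * Φ (raise R c' u) c' =
      ∑ c, (PP α β c' * Lr α β ε R c' *
      ∑ u : E → Bool, Ber (del α β ε) u * (if raise R c' u = c then (1:ℝ) else 0)) * Φ c c' := by
    intro c'
    simp_rw [mul_assoc, Finset.sum_mul]
    rw [← Finset.mul_sum, ← Finset.mul_sum, Finset.sum_comm]
    congr 2
    apply Finset.sum_congr rfl
    intro u _
    simp_rw [mul_assoc]
    rw [← Finset.mul_sum]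
    congr 1
    simp
  simp_rw [h1, h2]
  rw [Finset.sum_comm]
  apply Finset.sum_congr rfl
  intro c' _
  apply Finset.sum_congr rfl
  intro c _
  rw [pair_id hα hβ hε]

theorem wt_nonneg {α β : ℝ} (hα : 0 ≤ α) (hβ : 0 ≤ β) (hs : α + β ≤ 1) (s : Fin 3) :
    0 ≤ wt α β s := by
  fin_cases s <;> simp [wt] <;> linarith

theorem rho_nonneg {α β ε : ℝ} (hα : 0 < α) (hβ : 0 ≤ β) (hε : 0 ≤ ε) (hε1 : ε ≤ 1) (s : Fin 3) :
    0 ≤ rho α β ε s := by
  fin_cases s
  · simp only [rho]; show 0 ≤ 1 + ε * β / α; positivity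
  · simp [rho]
  · simp only [rho]; show 0 ≤ 1 - ε; linarith

theorem PP_nonneg {α β : ℝ} (hα : 0 ≤ α) (hβ : 0 ≤ β) (hs : α + β ≤ 1) (c : E → Fin 3) :
    0 ≤ PP α β c := Finset.prod_nonneg fun e _ => wt_nonneg hα hβ hs (c e)

theorem ber_nonneg {δ : ℝ} (h0 : 0 ≤ δ) (h1 : δ ≤ 1) (b : Bool) : 0 ≤ ber δ b := by
  cases b <;> simp [ber] <;> linarith

theorem Ber_nonneg {δ : ℝ} (h0 : 0 ≤ δ) (h1 : δ ≤ 1) (u : E → Bool) : 0 ≤ Ber δ u :=
  Finset.prod_nonneg fun e _ => ber_nonneg h0 h1 (u e)

theorem Lr_nonneg {α β ε : ℝ} (hα : 0 < α) (hβ : 0 ≤ β) (hε : 0 ≤ ε) (hε1 : ε ≤ 1)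
    (R : Finset E) (c : E → Fin 3) : 0 ≤ Lr α β ε R c :=
  Finset.prod_nonneg fun e _ => rho_nonneg hα hβ hε hε1 (c e)

theorem del_nonneg {α β ε : ℝ} (hα : 0 < α) (hβ : 0 < β) (hε : 0 ≤ ε) : 0 ≤ del α β ε := by
  unfold del; positivity

theorem del_le_one {α β ε : ℝ} (hα : 0 < α) (hβ : 0 < β) (hε : 0 ≤ ε) : del α β ε ≤ 1 := by
  unfold del
  have : 0 ≤ ε * β / α := by positivity
  rw [div_le_one (by linarith)]
  linarith

/-- moments of the likelihood ratio -/
theorem Lr_moment (α β ε : ℝ) (R : Finset E) (p : ℕ) :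
    ∑ c : E → Fin 3, PP α β c * Lr α β ε R c ^ p =
      (∑ s, wt α β s * rho α β ε s ^ p) ^ #R := by
  have h : ∀ c : E → Fin 3, PP α β c * Lr α β ε R c ^ p =
      ∏ e, (wt α β (c e) * (if e ∈ R then rho α β ε (c e) ^ p else 1)) := by
    intro c
    have : Lr α β ε R c ^ p = ∏ e, (if e ∈ R then rho α β ε (c e) ^ p else 1) := by
      rw [Finset.prod_ite_mem, Finset.univ_inter, Lr, ← Finset.prod_pow]
    rw [this, PP, ← Finset.prod_mul_distrib]
  simp_rw [h]
  rw [sum_prod_fin (fun e s => wt α β s * (if e ∈ R then rho α β ε s ^ p else 1))]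
  have h2 : ∀ e, ∑ s, wt α β s * (if e ∈ R then rho α β ε s ^ p else 1) =
      if e ∈ R then (∑ s, wt α β s * rho α β ε s ^ p) else 1 := by
    intro e
    by_cases he : e ∈ R
    · simp [he]
    · simp only [he, if_false, mul_one]; exact wt_sum α β
  simp_rw [h2]
  rw [Finset.prod_ite_mem, Finset.univ_inter, Finset.prod_const]

open Classical in
/-- the main inequality on the finite cube -/
theorem main_ineq {ι : Type*} {α β ε C0 : ℝ} (hα : 0 < α) (hβ : 0 < β) (hs : α + β ≤ 1)
    (hε : 0 ≤ ε) (hε1 : ε ≤ 1) (hC0 : 0 ≤ C0)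
    (labels : Finset ι) (Rg : ι → Finset E) (reg : (E → Fin 3) → Option ι)
    (hreg : ∀ c l, reg c = some l → l ∈ labels)
    (mult : ∀ c' u l l', reg (raise (Rg l) c' u) = some l →
      reg (raise (Rg l') c' u) = some l' → l = l')
    (B : (E → Fin 3) → Prop) (p : ι → ℕ)
    (hp : ∀ l ∈ labels, 1 ≤ p l)
    (hdrop : ∀ c l, reg c = some l →
      1 / 2 ≤ ∑ u : E → Bool, Ber ε u * (if B (lower (Rg l) c u) then (1:ℝ) else 0)) :
    1 / 2 * ∑ c, PP α β c * (if (reg c).isSome then (1:ℝ) else 0) ≤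
      Real.exp C0 * ∑ c, PP α β c * (if B c then (1:ℝ) else 0) +
      ∑ l ∈ labels, Real.exp (-((p l : ℝ) - 1) * C0) *
        (∑ s, wt α β s * rho α β ε s ^ (p l)) ^ #(Rg l) := by
  have hP := fun c : E → Fin 3 => PP_nonneg hα.le hβ.le hs c
  -- step 1
  have s1 : 1 / 2 * ∑ c, PP α β c * (if (reg c).isSome then (1:ℝ) else 0) ≤
      ∑ l ∈ labels, ∑ c, PP α β c * ∑ u : E → Bool, Ber ε u *
        ((if reg c = some l then (1:ℝ) else 0) * (if B (lower (Rg l) c u) then (1:ℝ) else 0)) := by
    rw [Finset.sum_comm, Finset.mul_sum]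
    apply Finset.sum_le_sum
    intro c _
    cases hc : reg c with
    | none => simp
    | some l =>
      have hl := hreg c l hc
      rw [← Finset.add_sum_erase _ _ hl]
      have h0 : ∑ x ∈ labels.erase l, PP α β c * ∑ u : E → Bool, Ber ε u *
        ((if some l = some x then (1:ℝ) else 0) * (if B (lower (Rg x) c u) then (1:ℝ) else 0))
          = 0 := by
        apply Finset.sum_eq_zero
        intro x hx
        have : l ≠ x := fun h => by subst h; simp at hx
        simp [this]
      rw [h0, add_zero]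
      simp only [Option.isSome_some, if_true, mul_one, one_mul]
      rw [mul_comm]
      apply mul_le_mul_of_nonneg_left _ (hP c)
      have := hdrop c l hc
      simpa using this
  have s2 : ∀ l ∈ labels, ∑ c, PP α β c * ∑ u : E → Bool, Ber ε u *
        ((if reg c = some l then (1:ℝ) else 0) * (if B (lower (Rg l) c u) then (1:ℝ) else 0)) =
      ∑ c', PP α β c' * Lr α β ε (Rg l) c' * ∑ u : E → Bool, Ber (del α β ε) u *
        ((if reg (raise (Rg l) c' u) = some l then (1:ℝ) else 0) * (if B c' then (1:ℝ) else 0)) := by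
    intro l _
    exact transfer hα hβ hε (Rg l) (fun c c' => (if reg c = some l then (1:ℝ) else 0) *
      (if B c' then (1:ℝ) else 0))
  -- definition of G
  set G : ι → (E → Fin 3) → ℝ := fun l c' => ∑ u : E → Bool, Ber (del α β ε) u *
        (if reg (raise (Rg l) c' u) = some l then (1:ℝ) else 0) with hG
  have hd0 := del_nonneg hα hβ hε
  have hd1 := del_le_one hα hβ hε
  have hB0 := fun u : E → Bool => Ber_nonneg hd0 hd1 u
  have G0 : ∀ l c', 0 ≤ G l c' := by
    intro l c'
    apply Finset.sum_nonneg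
    intro u _
    apply mul_nonneg (hB0 u)
    split_ifs <;> norm_num
  have Gsum : ∀ c', ∑ l ∈ labels, G l c' ≤ 1 := by
    intro c'
    rw [hG]
    simp only
    rw [Finset.sum_comm]
    calc ∑ u : E → Bool, ∑ l ∈ labels, Ber (del α β ε) u *
          (if reg (raise (Rg l) c' u) = some l then (1:ℝ) else 0)
        ≤ ∑ u : E → Bool, Ber (del α β ε) u := by
          apply Finset.sum_le_sum
          intro u _
          rw [← Finset.mul_sum]
          have : ∑ l ∈ labels, (if reg (raise (Rg l) c' u) = some l then (1:ℝ) else 0) ≤ 1 := by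
            rw [← Finset.sum_filter, Finset.sum_const, nsmul_eq_mul, mul_one]
            have hc : #(labels.filter fun l => reg (raise (Rg l) c' u) = some l) ≤ 1 := by
              rw [Finset.card_le_one]
              intro a ha b hb
              simp only [Finset.mem_filter] at ha hb
              exact mult c' u a b ha.2 hb.2
            exact_mod_cast hc
          calc Ber (del α β ε) u * _ ≤ Ber (del α β ε) u * 1 :=
                mul_le_mul_of_nonneg_left this (hB0 u)
            _ = _ := mul_one _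
      _ = 1 := Ber_sum _
  have G1 : ∀ l ∈ labels, ∀ c', G l c' ≤ 1 := by
    intro l hl c'
    refine le_trans ?_ (Gsum c')
    exact Finset.single_le_sum (f := fun l => G l c') (fun i _ => G0 i c') hl
  -- pointwise bound for L
  have hL0 := fun l c' => Lr_nonneg hα hβ.le hε hε1 (Rg l) c'
  have Lb : ∀ l ∈ labels, ∀ c', Lr α β ε (Rg l) c' ≤ Real.exp C0 +
      Real.exp (-((p l : ℝ) - 1) * C0) * Lr α β ε (Rg l) c' ^ (p l) := by
    intro l hl c'
    set L := Lr α β ε (Rg l) c' with hLdef
    have hL := hL0 l c'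
    rcases le_total L (Real.exp C0) with h | h
    · have : 0 ≤ Real.exp (-((p l : ℝ) - 1) * C0) * L ^ (p l) := by positivity
      linarith
    · have hpl := hp l hl
      have : L ≤ Real.exp (-((p l : ℝ) - 1) * C0) * L ^ (p l) := by
        obtain ⟨q, hq⟩ : ∃ q, p l = q + 1 := ⟨p l - 1, by omega⟩
        rw [hq]
        have e1 : Real.exp (-(((q + 1 : ℕ) : ℝ) - 1) * C0) = (Real.exp C0)⁻¹ ^ q := by
          rw [← Real.exp_neg, ← Real.exp_nat_mul]
          congr 1
          push_cast
          ring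
        rw [e1, pow_succ]
        have e2 : 1 ≤ (Real.exp C0)⁻¹ ^ q * L ^ q := by
          rw [← mul_pow]
          apply one_le_pow₀
          rw [inv_mul_eq_div, le_div_iff₀ (Real.exp_pos _)]
          linarith
        calc L = 1 * L := (one_mul _).symm
          _ ≤ ((Real.exp C0)⁻¹ ^ q * L ^ q) * L := mul_le_mul_of_nonneg_right e2 hL
          _ = _ := by ring
      have := Real.exp_pos C0
      linarith
  -- combine
  have s3 : ∀ l ∈ labels, ∑ c', PP α β c' * Lr α β ε (Rg l) c' * ∑ u : E → Bool, Ber (del α β ε) u *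
        ((if reg (raise (Rg l) c' u) = some l then (1:ℝ) else 0) * (if B c' then (1:ℝ) else 0)) ≤
      ∑ c', PP α β c' * (if B c' then (1:ℝ) else 0) * (Real.exp C0 * G l c') +
      Real.exp (-((p l : ℝ) - 1) * C0) * ∑ c', PP α β c' * Lr α β ε (Rg l) c' ^ (p l) := by
    intro l hl
    rw [Finset.mul_sum, ← Finset.sum_add_distrib]
    apply Finset.sum_le_sum
    intro c' _
    have e0 : ∑ u : E → Bool, Ber (del α β ε) u *
        ((if reg (raise (Rg l) c' u) = some l then (1:ℝ) else 0) * (if B c' then (1:ℝ) else 0)) =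
        G l c' * (if B c' then (1:ℝ) else 0) := by
      rw [hG]; simp only
      rw [Finset.sum_mul]
      apply Finset.sum_congr rfl
      intro u _
      ring
    rw [e0]
    have hb := Lb l hl c'
    have hLp : 0 ≤ Real.exp (-((p l : ℝ) - 1) * C0) * Lr α β ε (Rg l) c' ^ (p l) := by
      have := hL0 l c'
      positivity
    have hBi : (0:ℝ) ≤ (if B c' then (1:ℝ) else 0) ∧ (if B c' then (1:ℝ) else 0) ≤ 1 := by
      split_ifs <;> norm_num
    set bi := (if B c' then (1:ℝ) else 0)
    have g0 := G0 l c'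
    have g1 := G1 l hl c'
    have hPc := hP c'
    calc PP α β c' * Lr α β ε (Rg l) c' * (G l c' * bi)
        ≤ PP α β c' * (Real.exp C0 + Real.exp (-((p l : ℝ) - 1) * C0) *
            Lr α β ε (Rg l) c' ^ (p l)) * (G l c' * bi) := by
          apply mul_le_mul_of_nonneg_right _ (mul_nonneg g0 hBi.1)
          exact mul_le_mul_of_nonneg_left hb hPc
      _ = PP α β c' * bi * (Real.exp C0 * G l c') +
          (PP α β c' * (Real.exp (-((p l : ℝ) - 1) * C0) *
            Lr α β ε (Rg l) c' ^ (p l))) * (G l c' * bi) := by ring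
      _ ≤ PP α β c' * bi * (Real.exp C0 * G l c') +
          (PP α β c' * (Real.exp (-((p l : ℝ) - 1) * C0) *
            Lr α β ε (Rg l) c' ^ (p l))) * 1 := by
          gcongr
          calc G l c' * bi ≤ 1 * 1 := mul_le_mul g1 hBi.2 hBi.1 (by norm_num)
            _ = 1 := by norm_num
      _ = _ := by ring
  calc 1 / 2 * ∑ c, PP α β c * (if (reg c).isSome then (1:ℝ) else 0)
      ≤ ∑ l ∈ labels, (∑ c', PP α β c' * (if B c' then (1:ℝ) else 0) * (Real.exp C0 * G l c') +
      Real.exp (-((p l : ℝ) - 1) * C0) * ∑ c', PP α β c' * Lr α β ε (Rg l) c' ^ (p l)) := by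
        refine le_trans s1 (Finset.sum_le_sum fun l hl => ?_)
        rw [s2 l hl]
        exact s3 l hl
    _ = ∑ c', PP α β c' * (if B c' then (1:ℝ) else 0) * (Real.exp C0 * ∑ l ∈ labels, G l c') +
        ∑ l ∈ labels, Real.exp (-((p l : ℝ) - 1) * C0) *
        (∑ s, wt α β s * rho α β ε s ^ (p l)) ^ #(Rg l) := by
        rw [Finset.sum_add_distrib, Finset.sum_comm]
        congr 1
        · apply Finset.sum_congr rfl
          intro c' _
          rw [Finset.mul_sum, Finset.mul_sum]
        · apply Finset.sum_congr rfl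
          intro l _
          rw [Lr_moment]
    _ ≤ _ := by
        gcongr
        rw [Finset.mul_sum]
        apply Finset.sum_le_sum
        intro c' _
        have hBi : (0:ℝ) ≤ (if B c' then (1:ℝ) else 0) := by split_ifs <;> norm_num
        calc PP α β c' * (if B c' then (1:ℝ) else 0) * (Real.exp C0 * ∑ l ∈ labels, G l c')
            ≤ PP α β c' * (if B c' then (1:ℝ) else 0) * (Real.exp C0 * 1) := by
              apply mul_le_mul_of_nonneg_left _ (mul_nonneg (hP c') hBi)
              exact mul_le_mul_of_nonneg_left (Gsum c') (Real.exp_pos _).le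
          _ = _ := by ring

/-- moment bound for one coordinate -/
theorem rho_moment {α β ε : ℝ} (hα : 0 < α) (hβ : 0 < β) (hs : α + β ≤ 1) (hε : 0 ≤ ε)
    (p : ℕ) (hp : (p : ℝ) * ε ≤ α) :
    ∑ s, wt α β s * rho α β ε s ^ p ≤ Real.exp ((p : ℝ) ^ 2 * ε ^ 2 / α) := by
  have hβ1 : β ≤ 1 := by linarith
  have hα1 : α ≤ 1 := by linarith
  set x := ε * β / α with hx
  have hx0 : 0 ≤ x := by positivity
  have hpx : (p : ℝ) * x ≤ 1 := by
    rw [hx]
    calc (p : ℝ) * (ε * β / α) = ((p : ℝ) * ε) * β / α := by ring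
      _ ≤ α * 1 / α := by gcongr
      _ = 1 := by field_simp
  have hp0 : (0:ℝ) ≤ p := Nat.cast_nonneg p
  have hpe0 : 0 ≤ (p : ℝ) * ε := by positivity
  have hpe1 : (p : ℝ) * ε ≤ 1 := by linarith
  have e1 : (1 + x) ^ p ≤ 1 + p * x + (p * x) ^ 2 := by
    calc (1 + x) ^ p ≤ (Real.exp x) ^ p := by
          gcongr
          linarith [Real.add_one_le_exp x]
      _ = Real.exp (p * x) := by rw [← Real.exp_nat_mul]
      _ ≤ 1 + p * x + (p * x) ^ 2 := by
          have := Real.abs_exp_sub_one_sub_id_le (x := p * x) (by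
            rw [abs_of_nonneg (by positivity)]; exact hpx)
          have h2 := (abs_le.mp this).2
          linarith
  have hεle1 : ε ≤ 1 ∨ p = 0 := by
    rcases Nat.eq_zero_or_pos p with h | h
    · right; exact h
    · left
      have : (1:ℝ) ≤ p := by exact_mod_cast h
      nlinarith
  have e2 : (1 - ε) ^ p ≤ 1 - p * ε + (p * ε) ^ 2 := by
    rcases hεle1 with h | h
    · calc (1 - ε) ^ p ≤ (Real.exp (-ε)) ^ p := by
            apply pow_le_pow_left₀ (by linarith)
            linarith [Real.add_one_le_exp (-ε)]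
        _ = Real.exp (-(p * ε)) := by rw [← Real.exp_nat_mul]; congr 1; ring
        _ ≤ 1 - p * ε + (p * ε) ^ 2 := by
            have := Real.abs_exp_sub_one_sub_id_le (x := -(p * ε)) (by
              rw [abs_neg, abs_of_nonneg hpe0]; exact hpe1)
            have h2 := (abs_le.mp this).2
            nlinarith
    · subst h; simp
  have hsum : ∑ s, wt α β s * rho α β ε s ^ p =
      α * (1 + x) ^ p + (1 - α - β) + β * (1 - ε) ^ p := by
    simp [Fin.sum_univ_three, wt, rho, hx]
  rw [hsum]
  have hxe : α * x = β * ε := by rw [hx]; field_simp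
  calc α * (1 + x) ^ p + (1 - α - β) + β * (1 - ε) ^ p
      ≤ α * (1 + p * x + (p * x) ^ 2) + (1 - α - β) + β * (1 - p * ε + (p * ε) ^ 2) := by
        gcongr
    _ = 1 + p ^ 2 * ε ^ 2 * (β ^ 2 / α + β) := by
        have : α * (p * x) ^ 2 = p ^ 2 * ε ^ 2 * (β ^ 2 / α) := by
          rw [hx]; field_simp
        calc _ = 1 + p * (α * x - β * ε) + α * (p * x) ^ 2 + β * (p * ε) ^ 2 := by ring
          _ = _ := by rw [hxe, this]; ring
    _ ≤ 1 + p ^ 2 * ε ^ 2 * (1 / α) := by
        gcongr
        rw [div_add' _ _ _ hα.ne']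
        gcongr
        nlinarith
    _ ≤ Real.exp (p ^ 2 * ε ^ 2 / α) := by
        have := Real.add_one_le_exp ((p:ℝ) ^ 2 * ε ^ 2 / α)
        have e : (p:ℝ) ^ 2 * ε ^ 2 * (1 / α) = p ^ 2 * ε ^ 2 / α := by ring
        rw [e]; linarith

/-- Chernoff bounds for product measures: number of marks in a set -/
theorem chernoff_bool {ε : ℝ} (h0 : 0 ≤ ε) (h1 : ε ≤ 1) (S : Finset E) (h : ℝ)
    (s : ℝ) (hs : 0 ≤ s) :
    ∑ u : E → Bool, Ber ε u * (if (#(S.filter fun e => u e = true) : ℝ) ≤ h then (1:ℝ) else 0) ≤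
      Real.exp (s * h) * (1 - ε * (1 - Real.exp (-s))) ^ #S := by
  have hkey : ∀ u : E → Bool, (if (#(S.filter fun e => u e = true) : ℝ) ≤ h then (1:ℝ) else 0) ≤
      Real.exp (s * h) * ∏ e, (if e ∈ S then (if u e = true then Real.exp (-s) else 1) else 1) := by
    intro u
    have hprod : ∏ e, (if e ∈ S then (if u e = true then Real.exp (-s) else 1) else 1) =
        Real.exp (-s * #(S.filter fun e => u e = true)) := by
      rw [Finset.prod_ite_mem, Finset.univ_inter, ← Finset.prod_filter, Finset.prod_const,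
        ← Real.exp_nat_mul]
      congr 1; ring
    rw [hprod, ← Real.exp_add]
    split_ifs with hh
    · apply Real.one_le_exp
      nlinarith
    · exact (Real.exp_pos _).le
  calc ∑ u : E → Bool, Ber ε u * (if (#(S.filter fun e => u e = true) : ℝ) ≤ h then (1:ℝ) else 0)
      ≤ ∑ u : E → Bool, Ber ε u * (Real.exp (s * h) *
          ∏ e, (if e ∈ S then (if u e = true then Real.exp (-s) else 1) else 1)) := by
        apply Finset.sum_le_sum
        intro u _
        exact mul_le_mul_of_nonneg_left (hkey u) (Ber_nonneg h0 h1 u)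
    _ = Real.exp (s * h) * ∑ u : E → Bool, ∏ e, (ber ε (u e) *
          (if e ∈ S then (if u e = true then Real.exp (-s) else 1) else 1)) := by
        rw [Finset.mul_sum]
        apply Finset.sum_congr rfl
        intro u _
        rw [Ber, Finset.prod_mul_distrib]
        ring
    _ = Real.exp (s * h) * (1 - ε * (1 - Real.exp (-s))) ^ #S := by
        congr 1
        rw [sum_prod_bool (fun e b => ber ε b *
          (if e ∈ S then (if b = true then Real.exp (-s) else 1) else 1))]
        have : ∀ e, ∑ b : Bool, ber ε b *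
          (if e ∈ S then (if b = true then Real.exp (-s) else 1) else 1) =
          if e ∈ S then (1 - ε * (1 - Real.exp (-s))) else 1 := by
          intro e
          by_cases he : e ∈ S
          · simp [he, ber]; ring
          · simp [he, ber]
        simp_rw [this]
        rw [Finset.prod_ite_mem, Finset.univ_inter, Finset.prod_const]

theorem chernoff_cat {α β : ℝ} (hα : 0 ≤ α) (hβ : 0 ≤ β) (hsum : α + β ≤ 1)
    (S : Finset E) (h : ℝ) (s : ℝ) (hs : 0 ≤ s) :
    ∑ c : E → Fin 3, PP α β c * (if (#(S.filter fun e => c e = 2) : ℝ) ≤ h then (1:ℝ) else 0) ≤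
      Real.exp (s * h) * (1 - β * (1 - Real.exp (-s))) ^ #S := by
  have hkey : ∀ c : E → Fin 3, (if (#(S.filter fun e => c e = 2) : ℝ) ≤ h then (1:ℝ) else 0) ≤
      Real.exp (s * h) * ∏ e, (if e ∈ S then (if c e = 2 then Real.exp (-s) else 1) else 1) := by
    intro u
    have hprod : ∏ e, (if e ∈ S then (if u e = 2 then Real.exp (-s) else 1) else 1) =
        Real.exp (-s * #(S.filter fun e => u e = 2)) := by
      rw [Finset.prod_ite_mem, Finset.univ_inter, ← Finset.prod_filter, Finset.prod_const,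
        ← Real.exp_nat_mul]
      congr 1; ring
    rw [hprod, ← Real.exp_add]
    split_ifs with hh
    · apply Real.one_le_exp
      nlinarith
    · exact (Real.exp_pos _).le
  calc ∑ c : E → Fin 3, PP α β c * (if (#(S.filter fun e => c e = 2) : ℝ) ≤ h then (1:ℝ) else 0)
      ≤ ∑ c : E → Fin 3, PP α β c * (Real.exp (s * h) *
          ∏ e, (if e ∈ S then (if c e = 2 then Real.exp (-s) else 1) else 1)) := by
        apply Finset.sum_le_sum
        intro u _
        exact mul_le_mul_of_nonneg_left (hkey u) (PP_nonneg hα hβ hsum u)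
    _ = Real.exp (s * h) * ∑ c : E → Fin 3, ∏ e, (wt α β (c e) *
          (if e ∈ S then (if c e = 2 then Real.exp (-s) else 1) else 1)) := by
        rw [Finset.mul_sum]
        apply Finset.sum_congr rfl
        intro u _
        rw [PP, Finset.prod_mul_distrib]
        ring
    _ = Real.exp (s * h) * (1 - β * (1 - Real.exp (-s))) ^ #S := by
        congr 1
        rw [sum_prod_fin (fun e b => wt α β b *
          (if e ∈ S then (if b = 2 then Real.exp (-s) else 1) else 1))]
        have : ∀ e, ∑ b : Fin 3, wt α β b *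
          (if e ∈ S then (if b = 2 then Real.exp (-s) else 1) else 1) =
          if e ∈ S then (1 - β * (1 - Real.exp (-s))) else 1 := by
          intro e
          by_cases he : e ∈ S
          · simp [he, wt, Fin.sum_univ_three]; ring
          · simp [he, wt, Fin.sum_univ_three]
            ring
        simp_rw [this]
        rw [Finset.prod_ite_mem, Finset.univ_inter, Finset.prod_const]

end

end Pool.Agent.Helper46.Tor
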