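import Mathlib

set_option autoImplicit false

namespace Pool.Agent.Helper46.Tor

open scoped NNReal

/-- two points of the square lattice are neighbours -/
def IsStep (u v : ℤ × ℤ) : Prop := |u.1 - v.1| + |u.2 - v.2| = 1

/-- the projection of the square lattice onto the vertex set of the `n × n` torus -/
def proj (n : ℕ) (x : ℤ × ℤ) : ZMod n × ZMod n := ((x.1 : ZMod n), (x.2 : ZMod n))

/-- `p 0, ..., p l` is the lift of a closed nearest-neighbour path of the torus that winds once
horizontally -/
def IsWinding (n l : ℕ) (p : ℕ → ℤ × ℤ) : Prop :=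
  (∀ i < l, IsStep (p i) (p (i + 1))) ∧ p l = ((p 0).1 + n, (p 0).2)

/-- the passage time of the projected path: the sum of the weights of its edges -/
noncomputable def passage (n : ℕ) (ω : Sym2 (ZMod n × ZMod n) → ℝ≥0) (l : ℕ) (p : ℕ → ℤ × ℤ) : ℝ :=
  ∑ i ∈ Finset.range l, (ω s(proj n (p i), proj n (p (i + 1))) : ℝ)

/-- the minimal passage time over closed paths winding once horizontally -/
noncomputable def T (n : ℕ) (ω : Sym2 (ZMod n × ZMod n) → ℝ≥0) : ℝ :=
  sInf {τ : ℝ | ∃ (l : ℕ) (p : ℕ → ℤ × ℤ), IsWinding n l p ∧ τ = passage n ω l p}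

end Pool.Agent.Helper46.Tor
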