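import Pool.Agent.Helper46.Tor.Prob

set_option autoImplicit false

namespace Pool.Agent.Helper46.Tor

open MeasureTheory Finset ProbabilityTheory Filter Topology
open scoped NNReal ENNReal

/-- choice of the two levels -/
theorem exists_ab (F : Measure ℝ≥0) [IsProbabilityMeasure F]
    (hF : ∀ r, F (Set.Iio r) = 0 → F {r} < 1 / 3) :
    ∃ a b : ℝ≥0, a < b ∧ F (Set.Iic a) ≠ 0 ∧ F (Set.Iio b) < 1 / 3 := by
  set S : Set ℝ≥0 := {x | F (Set.Iic x) ≠ 0} with hS
  have hne : S.Nonempty := by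
    by_contra hcon
    rw [Set.not_nonempty_iff_eq_empty] at hcon
    have h0 : ∀ x : ℝ≥0, F (Set.Iic x) = 0 := by
      intro x
      by_contra hx
      have : x ∈ S := hx
      rw [hcon] at this
      exact this
    have h1 : (Set.univ : Set ℝ≥0) = ⋃ k : ℕ, Set.Iic (k : ℝ≥0) := by
      ext x
      simp only [Set.mem_univ, Set.mem_iUnion, Set.mem_Iic, true_iff]
      exact exists_nat_ge x
    have h2 : F Set.univ = 0 := by
      rw [h1]
      exact measure_iUnion_null fun k => h0 k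
    rw [measure_univ] at h2
    exact one_ne_zero h2
  set r := sInf S with hr
  have hbdd : BddBelow S := OrderBot.bddBelow S
  have hIio : F (Set.Iio r) = 0 := by
    rcases eq_or_ne r 0 with h0 | h0
    · rw [h0]
      have : Set.Iio (0 : ℝ≥0) = ∅ := by ext x; simp
      rw [this, measure_empty]
    · have hr0 : 0 < r := pos_iff_ne_zero.mpr h0
      have h1 : Set.Iio r ⊆ ⋃ k : ℕ, Set.Iic (r - 1 / ((k : ℝ≥0) + 1)) := by
        intro x hx
        rw [Set.mem_iUnion]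
        have hx' : 0 < r - x := tsub_pos_of_lt hx
        obtain ⟨k, hk⟩ := exists_nat_one_div_lt (show (0:ℝ) < (r - x : ℝ≥0) by exact_mod_cast hx')
        refine ⟨k, ?_⟩
        rw [Set.mem_Iic]
        have hk' : (1 / ((k : ℝ≥0) + 1)) < r - x := by
          rw [← NNReal.coe_lt_coe]
          push_cast
          exact hk
        have hxr : x ≤ r := le_of_lt hx
        rw [le_tsub_iff_right (hk'.le.trans tsub_le_self)]
        calc x + 1 / ((k : ℝ≥0) + 1) ≤ x + (r - x) := by gcongr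
          _ = r := add_tsub_cancel_of_le hxr
      refine measure_mono_null h1 (measure_iUnion_null fun k => ?_)
      by_contra hk
      have hmem : (r - 1 / ((k : ℝ≥0) + 1)) ∈ S := hk
      have h2 := csInf_le hbdd hmem
      have h3 : r - 1 / ((k : ℝ≥0) + 1) < r := tsub_lt_self hr0 (by positivity)
      exact absurd h2 (not_le.mpr h3)
  have hpt := hF r hIio
  have hIic : F (Set.Iic r) < 1 / 3 := by
    have : Set.Iic r = Set.Iio r ∪ {r} := by
      ext x; simp [le_iff_lt_or_eq]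
    rw [this]
    refine (measure_union_le _ _).trans_lt ?_
    rw [hIio, zero_add]
    exact hpt
  have htend : Tendsto (fun k : ℕ => F (Set.Iio (r + 1 / ((k : ℝ≥0) + 1)))) atTop
      (𝓝 (F (⋂ k : ℕ, Set.Iio (r + 1 / ((k : ℝ≥0) + 1))))) := by
    apply tendsto_measure_iInter_atTop
    · intro k; exact measurableSet_Iio.nullMeasurableSet
    · intro i j hij x hx
      rw [Set.mem_Iio] at hx ⊢
      refine hx.trans_le ?_
      gcongr
    · exact ⟨0, measure_ne_top F _⟩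
  have hinter : (⋂ k : ℕ, Set.Iio (r + 1 / ((k : ℝ≥0) + 1))) = Set.Iic r := by
    ext x
    simp only [Set.mem_iInter, Set.mem_Iio, Set.mem_Iic]
    constructor
    · intro hx
      by_contra hcon
      push Not at hcon
      have hx' : 0 < x - r := tsub_pos_of_lt hcon
      obtain ⟨k, hk⟩ := exists_nat_one_div_lt (show (0:ℝ) < (x - r : ℝ≥0) by exact_mod_cast hx')
      have hk' : (1 / ((k : ℝ≥0) + 1)) < x - r := by
        rw [← NNReal.coe_lt_coe]
        push_cast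
        exact hk
      have h4 := hx k
      have h5 : r + 1 / ((k : ℝ≥0) + 1) ≤ r + (x - r) := by gcongr
      rw [add_tsub_cancel_of_le hcon.le] at h5
      exact absurd h4 (not_lt.mpr h5)
    · intro hx k
      exact lt_of_le_of_lt hx (lt_add_of_pos_right r (by positivity))
  rw [hinter] at htend
  obtain ⟨k, hk⟩ := ((tendsto_order.mp htend).2 _ hIic).exists
  set b := r + 1 / ((k : ℝ≥0) + 1) with hb
  have hrb : r < b := lt_add_of_pos_right r (by positivity)
  obtain ⟨a, ha1, ha2⟩ := exists_between hrb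
  refine ⟨a, b, ha2, ?_, hk⟩
  obtain ⟨x, hxS, hxa⟩ := exists_lt_of_csInf_lt hne ha1
  intro h0
  exact hxS (measure_mono_null (Set.Iic_subset_Iic.mpr hxa.le) h0)

theorem exists_mu {Ω : Type*} [MeasurableSpace Ω] (P : Measure Ω) [IsProbabilityMeasure P]
    (X : Ω → ℝ) (hX : Measurable X) (h0 : ∀ ω, 0 ≤ X ω) :
    ∃ μ : ℝ, 1 / 2 ≤ P {ω | X ω ≤ μ} ∧ 1 / 2 ≤ P {ω | μ - 1 < X ω} := by
  set S : Set ℝ := {x | 1 / 2 ≤ P {ω | X ω ≤ x}} with hS
  have hne : S.Nonempty := by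
    have h1 : Tendsto (fun k : ℕ => P {ω | X ω ≤ k}) atTop (𝓝 (P (⋃ k : ℕ, {ω | X ω ≤ k}))) := by
      apply tendsto_measure_iUnion_atTop
      intro i j hij ω hω
      have h2 : X ω ≤ i := hω
      have h3 : (i : ℝ) ≤ j := by exact_mod_cast hij
      exact h2.trans h3
    have h2 : (⋃ k : ℕ, {ω | X ω ≤ (k:ℝ)}) = Set.univ := by
      ext ω
      simp only [Set.mem_iUnion, Set.mem_univ, iff_true]
      exact exists_nat_ge (X ω)
    rw [h2, measure_univ] at h1
    obtain ⟨k, hk⟩ := ((tendsto_order.mp h1).1 (1 / 2) (by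
      rw [one_div]; exact ENNReal.inv_lt_one.mpr (by norm_num))).exists
    exact ⟨k, hk.le⟩
  have hbdd : BddBelow S := by
    refine ⟨0, ?_⟩
    intro x hx
    by_contra hcon
    push Not at hcon
    have : {ω | X ω ≤ x} = ∅ := by
      ext ω
      simp only [Set.mem_empty_iff_false, iff_false]
      intro h
      have h' : X ω ≤ x := h
      linarith [h0 ω]
    have hx' : 1 / 2 ≤ P {ω | X ω ≤ x} := hx
    rw [this, measure_empty] at hx'
    simp at hx'
  obtain ⟨μ, hμ1, hμ2⟩ := exists_lt_of_csInf_lt hne (lt_add_one (sInf S))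
  refine ⟨μ, hμ1, ?_⟩
  have h3 : μ - 1 ∉ S := by
    intro h
    have := csInf_le hbdd h
    linarith
  have h4 : P {ω | X ω ≤ μ - 1} < 1 / 2 := not_le.mp h3
  have h5 : {ω | μ - 1 < X ω} = {ω | X ω ≤ μ - 1}ᶜ := by
    ext ω; simp
  rw [h5, prob_compl_eq_one_sub (measurableSet_le hX measurable_const)]
  have h6 : (1:ℝ≥0∞) - 1 / 2 = 1 / 2 := by
    rw [one_div]; exact ENNReal.one_sub_inv_two
  calc (1 / 2 : ℝ≥0∞) = 1 - 1 / 2 := h6.symm
    _ ≤ _ := tsub_le_tsub_left h4.le 1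

theorem evariance_ge {Ω : Type*} [MeasurableSpace Ω] (P : Measure Ω) [IsProbabilityMeasure P]
    (X : Ω → ℝ) (hX : Measurable X) (μ D : ℝ) (hD : 2 ≤ D) (p : ℝ≥0∞) (hp : p ≤ 1 / 2)
    (h1 : p ≤ P {ω | X ω ≤ μ - D}) (h2 : 1 / 2 ≤ P {ω | μ - 1 < X ω}) :
    ENNReal.ofReal ((D / 4) ^ 2) * p ≤ evariance X P := by
  set e0 := ∫ ω, X ω ∂P with he0
  have key : ∀ S : Set Ω, MeasurableSet S → (∀ ω ∈ S, D / 4 ≤ |X ω - e0|) → p ≤ P S →
      ENNReal.ofReal ((D / 4) ^ 2) * p ≤ evariance X P := by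
    intro S hS hd hpS
    calc ENNReal.ofReal ((D / 4) ^ 2) * p ≤ ENNReal.ofReal ((D / 4) ^ 2) * P S := by gcongr
      _ = ∫⁻ _ω in S, ENNReal.ofReal ((D / 4) ^ 2) ∂P := by
          rw [setLIntegral_const]
      _ ≤ ∫⁻ ω in S, ‖X ω - e0‖ₑ ^ 2 ∂P := by
          apply setLIntegral_mono' hS
          intro ω hω
          have h3 := hd ω hω
          rw [← ofReal_norm, ← ENNReal.ofReal_pow (norm_nonneg _), Real.norm_eq_abs]
          apply ENNReal.ofReal_le_ofReal
          gcongr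
      _ ≤ ∫⁻ ω, ‖X ω - e0‖ₑ ^ 2 ∂P := setLIntegral_le_lintegral _ _
      _ = evariance X P := rfl
  rcases le_or_gt (μ - 3 * D / 4) e0 with h | h
  · apply key {ω | X ω ≤ μ - D} (measurableSet_le hX measurable_const) _ h1
    intro ω hω
    have h3 : X ω ≤ μ - D := hω
    rw [abs_sub_comm]
    refine le_trans ?_ (le_abs_self _)
    linarith
  · apply key {ω | μ - 1 < X ω} (measurableSet_lt measurable_const hX) _ (hp.trans h2)
    intro ω hω
    have h3 : μ - 1 < X ω := hω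
    refine le_trans ?_ (le_abs_self _)
    linarith

theorem exp4_lt : 2 * Real.exp 4 ≤ 110 := by
  have h1 : Real.exp 4 = (Real.exp 1) ^ 4 := by rw [← Real.exp_nat_mul]; norm_num
  have h2 : Real.exp 1 < 2.7182818286 := Real.exp_one_lt_d9
  rw [h1]
  have h3 : (Real.exp 1) ^ 4 ≤ 2.7182818286 ^ 4 := by
    gcongr
  have h4 : (2.7182818286 : ℝ) ^ 4 ≤ 55 := by norm_num
  linarith

theorem exp10_lt : 2 * Real.exp (-10) ≤ 1 / 16 := by
  rw [Real.exp_neg]
  have h2 := Real.add_one_le_exp (1:ℝ)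
  have h1 : Real.exp 10 = (Real.exp 1) ^ 10 := by rw [← Real.exp_nat_mul]; norm_num
  have h3 : (2:ℝ) ^ 10 ≤ Real.exp 10 := by
    rw [h1]; gcongr; linarith
  rw [← div_eq_mul_inv, div_le_iff₀ (Real.exp_pos _)]
  norm_num at h3
  linarith

/-- one application of the method -/
theorem one_scale (n m k : ℕ) [NeZero n] (hn2 : 2 ≤ n) (hn : n ≤ 2 ^ m) (hk : 3 ≤ k)
    (hkm : 4 ^ k * k ≤ m) (F : Measure ℝ≥0) [IsProbabilityMeasure F] (a b : ℝ≥0) (hab : a < b)
    (ha : F (Set.Iic a) ≠ 0) (hb : F (Set.Ici b) ≠ 0) {ε : ℝ}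
    (hε : 0 ≤ ε) (hε1 : ε ≤ 1)
    (hε2 : 7488 * k * 4 ^ m * ε ^ 2 ≤ (F (Set.Iic a)).toReal * 2 ^ k)
    (hε3 : ∀ l : Lb k, (pex k l : ℝ) * ε ≤ (F (Set.Iic a)).toReal)
    (h : ℝ) (hh0 : 0 ≤ h) (hεh : 5 ≤ ε * h)
    (L : ℝ) (q : ℕ) (hq : q * (n - 1) ≤ 2 ^ m) (hL : L < b * h * q) (s : ℝ) (hs : 0 ≤ s)
    (hLP : (Measure.pi fun _ : Sym2 (ZMod n × ZMod n) => F) {ω | L < T n ω} ≤
      ENNReal.ofReal (1 / 16))
    (hbad : (n : ℝ) ^ 2 * (4 * 3 ^ (n - 2)) *
        (Real.exp (s * h) * (1 - (F (Set.Ici b)).toReal * (1 - Real.exp (-s))) ^ (n - 1)) ≤ 1 / 16)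
    (hD : 2 ≤ ((b : ℝ) - a) * (ε * h / 2)) :
    ENNReal.ofReal ((((b : ℝ) - a) * (ε * h / 2)) ^ 2 / 6400) ≤
      evariance (T n) (Measure.pi fun _ : Sym2 (ZMod n × ZMod n) => F) := by
  set P := Measure.pi fun _ : Sym2 (ZMod n × ZMod n) => F with hP
  obtain ⟨μ, hμ1, hμ2⟩ := exists_mu P (T n) (measurable_T n) (T_nonneg n)
  have hmain := prob_main n m k hn2 hn hk hkm F a b hab ha hb hε hε1 hε2 hε3 h hh0 hεh μ L q hq hL
    s hs
  rw [← hP] at hmain
  set D := ((b : ℝ) - a) * (ε * h / 2) with hDdef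
  have hB : ENNReal.ofReal (1 / 400) ≤ P {ω | T n ω ≤ μ - D} := by
    have h1 : P {ω | T n ω ≤ μ - D} = ENNReal.ofReal (P {ω | T n ω ≤ μ - D}).toReal :=
      (ENNReal.ofReal_toReal (measure_ne_top _ _)).symm
    rw [h1]
    apply ENNReal.ofReal_le_ofReal
    set pB := (P {ω | T n ω ≤ μ - D}).toReal with hpB
    have hpB0 : 0 ≤ pB := ENNReal.toReal_nonneg
    have h2 : ENNReal.ofReal (1 / 2) ≤ ENNReal.ofReal (2 * Real.exp 4 * pB + 1 / 16 + 1 / 8) := by
      calc ENNReal.ofReal (1 / 2) = 1 / 2 := by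
            rw [ENNReal.ofReal_div_of_pos (by norm_num)]; simp
        _ ≤ P {ω | T n ω ≤ μ} := hμ1
        _ ≤ _ := hmain
        _ ≤ ENNReal.ofReal (2 * Real.exp 4) * ENNReal.ofReal pB + ENNReal.ofReal (1 / 16) +
            ENNReal.ofReal (1 / 8) := by
            rw [← h1]
            gcongr
            have := exp10_lt
            linarith
        _ = _ := by
            rw [ENNReal.ofReal_add (by positivity) (by norm_num),
              ENNReal.ofReal_add (by positivity) (by norm_num),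
              ← ENNReal.ofReal_mul (show (0:ℝ) ≤ 2 * Real.exp 4 by positivity)]
    have h3 := (ENNReal.ofReal_le_ofReal_iff (by positivity)).mp h2
    have h4 := exp4_lt
    nlinarith
  have h5 := evariance_ge P (T n) (measurable_T n) μ D hD (ENNReal.ofReal (1 / 400)) (by
    have : (1 / 2 : ℝ≥0∞) = ENNReal.ofReal (1 / 2) := by
      rw [ENNReal.ofReal_div_of_pos (by norm_num)]; simp
    rw [this]
    apply ENNReal.ofReal_le_ofReal
    norm_num) hB hμ2
  refine le_trans (le_of_eq ?_) h5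
  rw [← ENNReal.ofReal_mul (by positivity)]
  congr 1
  ring

end Pool.Agent.Helper46.Tor
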