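import Pool.Agent.Helper46.Tor.Fin1

set_option autoImplicit false

namespace Pool.Agent.Helper46.Tor

open MeasureTheory Finset ProbabilityTheory Filter Topology
open scoped NNReal ENNReal

/-- choice of the exponential moment parameter -/
theorem exists_s {β : ℝ} (hβ : 2 / 3 < β) (hβ1 : β ≤ 1) :
    ∃ s : ℝ, 0 < s ∧ 0 < 3 * (1 - β * (1 - Real.exp (-s))) ∧
      3 * (1 - β * (1 - Real.exp (-s))) < 1 := by
  set δ := (3 * β - 2) / 3 with hδ
  have hδ0 : 0 < δ := by rw [hδ]; linarith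
  refine ⟨1 / δ, by positivity, ?_, ?_⟩
  · have h1 := Real.exp_pos (-(1 / δ))
    nlinarith
  · have h1 : Real.exp (-(1 / δ)) < δ := by
      rw [Real.exp_neg]
      have h2 : 1 / δ < Real.exp (1 / δ) := by
        have := Real.add_one_le_exp (1 / δ)
        linarith
      rw [inv_lt_comm₀ (Real.exp_pos _) hδ0]
      rw [one_div] at h2 ⊢
      exact h2
    have h3 : β * Real.exp (-(1 / δ)) < δ := by
      have h4 := Real.exp_pos (-(1 / δ))
      nlinarith
    have h5 : 3 * δ = 3 * β - 2 := by rw [hδ]; ring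
    nlinarith

theorem bad_alg (E ρ N : ℝ) (n' : ℕ) :
    N ^ 2 * (4 * 3 ^ n') * (E ^ (n' + 1) * (ρ / 3) ^ (n' + 1)) * (3 / 4 * (E * ρ)) =
      N ^ 2 * (E * ρ) ^ (n' + 2) := by
  rw [div_pow, mul_pow, pow_succ (3:ℝ) n']
  field_simp
  ring

theorem scale_bound (F : Measure ℝ≥0) [IsProbabilityMeasure F]
    (hm : ∫⁻ x, (x : ℝ≥0∞) ∂F ≠ ∞)
    (hF : ∀ r, F (Set.Iio r) = 0 → F {r} < 1 / 3) :
    ∃ c : ℝ, 0 < c ∧ ∃ k0 N0 : ℕ, ∀ k ≥ k0, ∀ n ≥ N0, ∀ [NeZero n], 4 ^ k * k ≤ Nat.log 2 n →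
      ENNReal.ofReal (c * (2 ^ k / k)) ≤
        evariance (T n) (Measure.pi fun _ : Sym2 (ZMod n × ZMod n) => F) := by
  obtain ⟨a, b, hab, ha, hb⟩ := exists_ab F hF
  set α := (F (Set.Iic a)).toReal with hα
  set β := (F (Set.Ici b)).toReal with hβ
  have hα0 : 0 < α := ENNReal.toReal_pos ha (measure_ne_top _ _)
  have hα1 : α ≤ 1 := ENNReal.toReal_le_of_le_ofReal (by norm_num) (by simpa using prob_le_one)
  have hβ1 : β ≤ 1 := ENNReal.toReal_le_of_le_ofReal (by norm_num) (by simpa using prob_le_one)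
  have hβ23 : 2 / 3 < β := by
    have h1 : Set.Ici b = (Set.Iio b)ᶜ := by ext x; simp
    have h2 : β = 1 - (F (Set.Iio b)).toReal := by
      rw [hβ, h1, prob_compl_eq_one_sub measurableSet_Iio,
        ENNReal.toReal_sub_of_le prob_le_one ENNReal.one_ne_top]
      simp
    have h3 : (F (Set.Iio b)).toReal < 1 / 3 := by
      have h4 := (ENNReal.toReal_lt_toReal (measure_ne_top _ _) (by simp)).mpr hb
      simpa using h4
    linarith
  have hbne : F (Set.Ici b) ≠ 0 := by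
    intro h0
    rw [hβ, h0] at hβ23
    norm_num at hβ23
  have hb0 : (0:ℝ) < b := by
    have : (0:ℝ≥0) < b := lt_of_le_of_lt (bot_le) hab
    exact_mod_cast this
  have hab' : (0:ℝ) < (b:ℝ) - a := by
    have : (a:ℝ) < b := by exact_mod_cast hab
    linarith
  obtain ⟨s, hs0, hρ0, hρ1⟩ := exists_s hβ23 hβ1
  set ρ := 3 * (1 - β * (1 - Real.exp (-s))) with hρ
  have hlog : Real.log ρ < 0 := Real.log_neg hρ0 hρ1
  set c0 := -Real.log ρ / (2 * s) with hc0
  have hc00 : 0 < c0 := by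
    rw [hc0]; apply div_pos (by linarith) (by linarith)
  set m1 := (∫⁻ x, (x : ℝ≥0∞) ∂F).toReal with hm1
  have hm10 : 0 ≤ m1 := ENNReal.toReal_nonneg
  set C1 := 16 * m1 + 1 with hC1
  have hC10 : 0 < C1 := by linarith
  obtain ⟨q, hq⟩ := exists_nat_gt (2 * C1 / (b * c0))
  have hq0 : (0:ℝ) < q := lt_of_le_of_lt (by positivity) hq
  have hqn : 0 < q := by exact_mod_cast hq0
  set A := c0 / (4 * q) * Real.sqrt (α / 7488) with hA
  have hA0 : 0 < A := by positivity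
  -- the bad event
  have hbadlim : Tendsto (fun n : ℕ => (n:ℝ) ^ 2 * (Real.exp (s * c0) * ρ) ^ n) atTop (𝓝 0) := by
    apply tendsto_pow_const_mul_const_pow_of_abs_lt_one
    have h1 : Real.exp (s * c0) * ρ < 1 := by
      have h3 : s * c0 = -Real.log ρ / 2 := by
        rw [hc0]; field_simp
      calc Real.exp (s * c0) * ρ = Real.exp (s * c0) * Real.exp (Real.log ρ) := by
            rw [Real.exp_log hρ0]
        _ = Real.exp (s * c0 + Real.log ρ) := (Real.exp_add _ _).symm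
        _ < 1 := by
            rw [Real.exp_lt_one_iff, h3]
            linarith
    rw [abs_of_pos (by positivity)]
    exact h1
  set σ := Real.exp (s * c0) * ρ with hσ
  have hσ0 : 0 < σ := by positivity
  obtain ⟨N1, hN1⟩ := eventually_atTop.mp ((tendsto_order.mp hbadlim).2 (3 * σ / 64) (by positivity))
  -- growth of 2^k/k
  have hgrow : Tendsto (fun k : ℕ => (k:ℝ) ^ 1 * (1 / 2 : ℝ) ^ k) atTop (𝓝 0) :=
    tendsto_pow_const_mul_const_pow_of_abs_lt_one 1 (by rw [abs_of_pos] <;> norm_num)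
  set δ := min α (min ((A / 5) ^ 2) ((((b:ℝ) - a) * A / 4) ^ 2)) with hδ
  have hδ0 : 0 < δ := by
    rw [hδ]; positivity
  obtain ⟨K1, hK1⟩ := eventually_atTop.mp ((tendsto_order.mp hgrow).2 δ hδ0)
  refine ⟨(((b:ℝ) - a) * A / 2) ^ 2 / 6400, by positivity, max 3 K1, max 2 N1, ?_⟩
  intro k hk n hn _ hkn
  have hk3 : 3 ≤ k := le_trans (le_max_left _ _) hk
  have hkK : K1 ≤ k := le_trans (le_max_right _ _) hk
  have hn2 : 2 ≤ n := le_trans (le_max_left _ _) hn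
  have hnN : N1 ≤ n := le_trans (le_max_right _ _) hn
  have hk0 : (0:ℝ) < k := by
    have : 0 < k := by omega
    exact_mod_cast this
  have hn0 : (2:ℝ) ≤ n := by exact_mod_cast hn2
  set m := Nat.clog 2 (q * n) with hmdef
  have hm1' : q * n ≤ 2 ^ m := Nat.le_pow_clog (by norm_num) _
  have hm2 : 2 ^ (m - 1) < q * n := by
    apply Nat.pow_pred_clog_lt_self (by norm_num)
    nlinarith
  have hnm : n ≤ 2 ^ m := le_trans (Nat.le_mul_of_pos_left n hqn) hm1'
  have hlogm : Nat.log 2 n ≤ m := by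
    have h1 : 2 ^ Nat.log 2 n ≤ n := Nat.pow_log_le_self 2 (by omega)
    exact (Nat.pow_le_pow_iff_right (by norm_num)).mp (h1.trans hnm)
  have hkm : 4 ^ k * k ≤ m := hkn.trans hlogm
  have hmpos : 1 ≤ m := by
    have : 1 ≤ 4 ^ k * k := Nat.mul_pos (by positivity) (by omega)
    omega
  have hm3 : (2:ℝ) ^ m < 2 * (q * n) := by
    have h1 : 2 ^ m = 2 * 2 ^ (m - 1) := by
      rw [← pow_succ']; congr 1; omega
    have h2 : 2 ^ m < 2 * (q * n) := by rw [h1]; omega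
    exact_mod_cast h2
  set G := Real.sqrt (2 ^ k / k) with hG
  have hG0 : 0 < G := Real.sqrt_pos.mpr (by positivity)
  have hG2 : G ^ 2 = 2 ^ k / k := Real.sq_sqrt (by positivity)
  have hsmall : (k:ℝ) / 2 ^ k < δ := by
    have h1 := hK1 k hkK
    rw [pow_one, one_div, inv_pow] at h1
    rwa [div_eq_mul_inv]
  have hGinv : (k:ℝ) / 2 ^ k = 1 / G ^ 2 := by rw [hG2, one_div_div]
  rw [hGinv] at hsmall
  have hsm1 : 1 / G ^ 2 < α := lt_of_lt_of_le hsmall (min_le_left _ _)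
  have hsm2 : 1 / G ^ 2 < (A / 5) ^ 2 :=
    lt_of_lt_of_le hsmall ((min_le_right _ _).trans (min_le_left _ _))
  have hsm3 : 1 / G ^ 2 < (((b:ℝ) - a) * A / 4) ^ 2 :=
    lt_of_lt_of_le hsmall ((min_le_right _ _).trans (min_le_right _ _))
  have hAG : 5 ≤ A * G := by
    rw [div_lt_iff₀ (by positivity), ← mul_pow] at hsm2
    have h1 : 1 < A / 5 * G := by
      by_contra hcon
      push Not at hcon
      have := pow_le_one₀ (n := 2) (by positivity) hcon
      linarith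
    linarith
  have hAG2 : 2 ≤ ((b:ℝ) - a) * A / 2 * G := by
    rw [div_lt_iff₀ (by positivity), ← mul_pow] at hsm3
    have h1 : 1 < ((b:ℝ) - a) * A / 4 * G := by
      by_contra hcon
      push Not at hcon
      have := pow_le_one₀ (n := 2) (by positivity) hcon
      linarith
    linarith
  set ε := Real.sqrt (α / 7488) * G / 2 ^ m with hε
  have hε0 : 0 ≤ ε := by positivity
  have hεsq : ε ^ 2 = α / 7488 * (2 ^ k / k) / 4 ^ m := by
    rw [hε, div_pow, mul_pow, Real.sq_sqrt (by positivity), hG2, ← pow_mul, mul_comm m 2, pow_mul]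
    norm_num
  have hkm' : k ≤ m := by
    have : k ≤ 4 ^ k * k := Nat.le_mul_of_pos_left k (by positivity)
    omega
  have hε1 : ε ≤ 1 := by
    have h1 : ε ^ 2 ≤ 1 := by
      rw [hεsq, div_le_one (by positivity)]
      have h2 : (2:ℝ) ^ k ≤ 4 ^ m := by
        calc (2:ℝ) ^ k ≤ 4 ^ k := by gcongr; norm_num
          _ ≤ 4 ^ m := by gcongr; norm_num
      have h3 : (2:ℝ) ^ k / k ≤ 2 ^ k := by
        apply div_le_self (by positivity)
        have : 1 ≤ k := by omega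
        exact_mod_cast this
      have h4 : α / 7488 ≤ 1 := by linarith
      calc α / 7488 * (2 ^ k / k) ≤ 1 * (4:ℝ) ^ m := by
            apply mul_le_mul h4 (h3.trans h2) (by positivity) (by norm_num)
        _ = _ := one_mul _
    exact (sq_le_one_iff₀ hε0).mp h1
  have hε2 : 7488 * k * 4 ^ m * ε ^ 2 ≤ α * 2 ^ k := by
    rw [hεsq]
    apply le_of_eq
    field_simp
  have hε3 : ∀ l : Lb k, (pex k l : ℝ) * ε ≤ α := by
    intro l
    have hl : (l.1 : ℕ) * k + k ≤ m := by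
      have h1 : (l.1 : ℕ) + 1 ≤ 4 ^ k := l.1.2
      have h2 : ((l.1 : ℕ) + 1) * k ≤ 4 ^ k * k := Nat.mul_le_mul_right k h1
      have h3 : ((l.1 : ℕ) + 1) * k = (l.1 : ℕ) * k + k := by ring
      omega
    have h4 : (2:ℝ) ^ ((l.1 : ℕ) * k) * 2 ^ k ≤ 2 ^ m := by
      rw [← pow_add]
      exact pow_le_pow_right₀ (by norm_num) hl
    have h5 : (pex k l : ℝ) = 8 * k * 2 ^ (l.1 * k : ℕ) := by
      unfold pex; push_cast; ring
    have h6 : ((pex k l : ℝ) * ε) ^ 2 ≤ α ^ 2 := by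
      rw [mul_pow, hεsq, h5]
      have h7 : ((2:ℝ) ^ ((l.1 : ℕ) * k) * 2 ^ k) ^ 2 ≤ (2 ^ m) ^ 2 := by
        gcongr
      have h8 : ((2:ℝ) ^ m) ^ 2 = 4 ^ m := by
        rw [← pow_mul, mul_comm m 2, pow_mul]; norm_num
      rw [h8] at h7
      have h9 : (8 * (k:ℝ) * 2 ^ ((l.1 : ℕ) * k)) ^ 2 * (α / 7488 * (2 ^ k / k) / 4 ^ m) =
          (64 / 7488) * α * (k / 2 ^ k) * (((2:ℝ) ^ ((l.1 : ℕ) * k) * 2 ^ k) ^ 2 / 4 ^ m) := by
        field_simp
        ring
      rw [h9]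
      have h10 : ((2:ℝ) ^ ((l.1 : ℕ) * k) * 2 ^ k) ^ 2 / 4 ^ m ≤ 1 := by
        rw [div_le_one (by positivity)]; exact h7
      have h11 : (k:ℝ) / 2 ^ k ≤ α := by rw [hGinv]; exact hsm1.le
      calc 64 / 7488 * α * (k / 2 ^ k) * (((2:ℝ) ^ ((l.1 : ℕ) * k) * 2 ^ k) ^ 2 / 4 ^ m)
          ≤ 1 * α * α * 1 := by
            gcongr
            norm_num
        _ = α ^ 2 := by ring
    exact (sq_le_sq₀ (by positivity) hα0.le).mp h6
  set h := c0 * ((n:ℝ) - 1) with hh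
  have hh0 : 0 ≤ h := by
    rw [hh]; apply mul_nonneg hc00.le; linarith
  have hεh : A * G ≤ ε * h := by
    rw [hε, hh, hA]
    have h1 : c0 / (4 * q) * Real.sqrt (α / 7488) * G =
        Real.sqrt (α / 7488) * G * c0 * (1 / (4 * q)) := by ring
    have h2 : Real.sqrt (α / 7488) * G / 2 ^ m * (c0 * ((n:ℝ) - 1)) =
        Real.sqrt (α / 7488) * G * c0 * (((n:ℝ) - 1) / 2 ^ m) := by ring
    rw [h1, h2]
    apply mul_le_mul_of_nonneg_left _ (by positivity)
    rw [div_le_div_iff₀ (by positivity) (by positivity), one_mul]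
    have h3 : (n:ℝ) ≤ 2 * ((n:ℝ) - 1) := by linarith
    nlinarith
  have hεh5 : 5 ≤ ε * h := hAG.trans hεh
  have hDge : ((b:ℝ) - a) * A / 2 * G ≤ ((b:ℝ) - a) * (ε * h / 2) := by
    have : ((b:ℝ) - a) * (ε * h / 2) - ((b:ℝ) - a) * A / 2 * G =
      ((b:ℝ) - a) / 2 * (ε * h - A * G) := by ring
    have h2 : 0 ≤ ((b:ℝ) - a) / 2 * (ε * h - A * G) := by
      apply mul_nonneg (by positivity); linarith
    linarith
  have hD : 2 ≤ ((b:ℝ) - a) * (ε * h / 2) := hAG2.trans hDge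
  set L := C1 * n with hL
  have hL0 : 0 < L := by positivity
  have hLq : L < b * h * q := by
    rw [div_lt_iff₀ (by positivity)] at hq
    rw [hL, hh]
    have h3 : (n:ℝ) ≤ 2 * ((n:ℝ) - 1) := by linarith
    have h4 : (0:ℝ) < (n:ℝ) - 1 := by linarith
    calc C1 * n ≤ C1 * (2 * ((n:ℝ) - 1)) := by gcongr
      _ = (2 * C1) * ((n:ℝ) - 1) := by ring
      _ < (q * (b * c0)) * ((n:ℝ) - 1) := by gcongr
      _ = _ := by ring
  have hqm : q * (n - 1) ≤ 2 ^ m := by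
    refine le_trans ?_ hm1'
    exact Nat.mul_le_mul_left q (Nat.sub_le n 1)
  have hLP : (Measure.pi fun _ : Sym2 (ZMod n × ZMod n) => F) {ω | L < T n ω} ≤
      ENNReal.ofReal (1 / 16) := by
    refine (mean_bound n F L hL0).trans ?_
    rw [ENNReal.div_le_iff (by simpa using hL0) ENNReal.ofReal_ne_top,
      ← ENNReal.ofReal_mul (by norm_num)]
    have h1 : (n:ℝ≥0∞) * ∫⁻ x, (x : ℝ≥0∞) ∂F = ENNReal.ofReal (n * m1) := by
      rw [ENNReal.ofReal_mul (by positivity), hm1, ENNReal.ofReal_toReal hm, ENNReal.ofReal_natCast]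
    rw [h1]
    apply ENNReal.ofReal_le_ofReal
    rw [hL, hC1]
    nlinarith
  have hbad : (n : ℝ) ^ 2 * (4 * 3 ^ (n - 2)) *
        (Real.exp (s * h) * (1 - (F (Set.Ici b)).toReal * (1 - Real.exp (-s))) ^ (n - 1)) ≤
      1 / 16 := by
    have h1 := hN1 n hnN
    obtain ⟨n', rfl⟩ : ∃ n', n = n' + 2 := ⟨n - 2, by omega⟩
    have h2 : h = c0 * ((n' + 1 : ℕ) : ℝ) := by rw [hh]; push_cast; ring
    have h3 : Real.exp (s * h) = Real.exp (s * c0) ^ (n' + 1) := by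
      rw [h2, ← Real.exp_nat_mul]; congr 1; push_cast; ring
    have h4 : (1 - (F (Set.Ici b)).toReal * (1 - Real.exp (-s))) = ρ / 3 := by
      rw [hρ, hβ]; ring
    rw [h3, h4]
    have h5 : n' + 2 - 2 = n' := by omega
    have h6 : n' + 2 - 1 = n' + 1 := by omega
    rw [h5, h6]
    have h7 : ((n' + 2 : ℕ) : ℝ) ^ 2 * (4 * 3 ^ n') *
        (Real.exp (s * c0) ^ (n' + 1) * (ρ / 3) ^ (n' + 1)) * (3 / 4 * σ) =
        ((n' + 2 : ℕ) : ℝ) ^ 2 * σ ^ (n' + 2) := by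
      exact bad_alg _ _ _ n'
    have h8 : 0 < 3 / 4 * σ := by positivity
    by_contra hcon
    push Not at hcon
    have h9 := mul_lt_mul_of_pos_right hcon h8
    rw [h7] at h9
    linarith
  have hfin := one_scale n m k hn2 hnm hk3 hkm F a b hab ha hbne hε0 hε1 hε2 hε3 h hh0 hεh5 L q
    hqm hLq s hs0.le hLP hbad hD
  refine le_trans (ENNReal.ofReal_le_ofReal ?_) hfin
  rw [← hG2]
  have h1 : (((b:ℝ) - a) * A / 2) ^ 2 / 6400 * G ^ 2 = (((b:ℝ) - a) * A / 2 * G) ^ 2 / 6400 := by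
    ring
  rw [h1]
  gcongr

end Pool.Agent.Helper46.Tor
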