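import Pool.Agent.Helper46.Tor.Fin2

set_option autoImplicit false

namespace Pool.Agent.Helper46.Tor

open MeasureTheory Finset ProbabilityTheory Filter Topology
open scoped NNReal ENNReal

/-- the choice of the scale -/
theorem scale_choice {θ c : ℝ} (hθ : θ < 1 / 2) (hc : 0 < c) (k0 : ℕ) :
    ∀ᶠ x : ℝ in atTop, ∃ k : ℕ, k0 ≤ k ∧ (4:ℝ) ^ k * k ≤ x / 4 ∧ 4 ≤ x ∧
      x ^ θ ≤ c * (2 ^ k / k) := by
  set θ1 := max θ (1 / 4) with hθ1
  have hθ1' : θ1 < 1 / 2 := max_lt hθ (by norm_num)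
  have hθ10 : 1 / 4 ≤ θ1 := le_max_right _ _
  set θ' := (θ1 + 1 / 2) / 2 with hθ'
  have hθ'1 : θ1 < θ' := by rw [hθ']; linarith
  have hθ'2 : θ' < 1 / 2 := by rw [hθ']; linarith
  set δ := 1 - 2 * θ' with hδ
  have hδ0 : 0 < δ := by rw [hδ]; linarith
  have hη0 : 0 < θ' - θ1 := by linarith
  have e1 := (isLittleO_log_rpow_atTop hδ0).def (show (0:ℝ) < 1 / 4 by norm_num)
  have e2 := (isLittleO_log_rpow_atTop hη0).def (show (0:ℝ) < c / 2 by positivity)
  have e3 : ∀ᶠ x : ℝ in atTop, ((k0:ℝ) + 1) * Real.log 2 / θ' ≤ Real.log x :=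
    Real.tendsto_log_atTop.eventually_ge_atTop _
  filter_upwards [e1, e2, e3, eventually_ge_atTop (4:ℝ)] with x h1 h2 h3 h4
  have hx0 : 0 < x := by linarith
  have hlog0 : 0 < Real.log x := Real.log_pos (by linarith)
  have hl2 : 0 < Real.log 2 := Real.log_pos (by norm_num)
  have hl2' : 1 / 2 < Real.log 2 := by have := Real.log_two_gt_d9; linarith
  have hθ'0 : 0 < θ' := by linarith
  rw [Real.norm_of_nonneg hlog0.le, Real.norm_of_nonneg (Real.rpow_nonneg hx0.le _)] at h1 h2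
  set u := θ' * Real.log x / Real.log 2 with hu
  have hu0 : 0 ≤ u := by positivity
  have huk : (k0:ℝ) + 1 ≤ u := by
    rw [div_le_iff₀ hθ'0] at h3
    rw [hu, le_div_iff₀ hl2]
    linarith
  have hkle : ((⌊u⌋₊ : ℕ) : ℝ) ≤ u := Nat.floor_le hu0
  have hklt : u < (⌊u⌋₊ : ℕ) + 1 := Nat.lt_floor_add_one u
  set k := ⌊u⌋₊ with hk
  have hulog : u ≤ Real.log x := by
    rw [hu, div_le_iff₀ hl2]
    nlinarith
  have hk0 : k0 + 1 ≤ k := by
    rw [hk]; apply Nat.le_floor; push_cast; exact huk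
  have hkpos : (0:ℝ) < k := by
    have : 0 < k := by omega
    exact_mod_cast this
  have hpow : ∀ j : ℕ, (2:ℝ) ^ j = Real.exp (Real.log 2 * j) := by
    intro j
    rw [mul_comm, Real.exp_nat_mul, Real.exp_log (by norm_num)]
  have hxθ : x ^ θ' = Real.exp (Real.log 2 * u) := by
    rw [Real.rpow_def_of_pos hx0, hu]; congr 1; field_simp
  have hp1 : (2:ℝ) ^ k ≤ x ^ θ' := by
    rw [hpow, hxθ]
    apply Real.exp_le_exp.mpr
    gcongr
  have hp2 : x ^ θ' ≤ 2 * 2 ^ k := by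
    rw [← pow_succ', hpow, hxθ]
    apply Real.exp_le_exp.mpr
    push_cast
    gcongr
  refine ⟨k, by omega, ?_, h4, ?_⟩
  · have h5 : (4:ℝ) ^ k = (2 ^ k) ^ 2 := by
      rw [← pow_mul, mul_comm, pow_mul]; norm_num
    rw [h5]
    calc ((2:ℝ) ^ k) ^ 2 * k ≤ (x ^ θ') ^ 2 * (1 / 4 * x ^ δ) := by
          gcongr
          linarith
      _ = x / 4 := by
          have h6 : (x ^ θ') ^ 2 * x ^ δ = x := by
            rw [← Real.rpow_natCast, ← Real.rpow_mul hx0.le, ← Real.rpow_add hx0]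
            have : θ' * (2:ℕ) + δ = 1 := by rw [hδ]; push_cast; ring
            rw [this, Real.rpow_one]
          linarith
  · have h7 : x ^ θ ≤ x ^ θ1 := Real.rpow_le_rpow_of_exponent_le (by linarith) (le_max_left _ _)
    refine h7.trans ?_
    rw [← mul_div_assoc, le_div_iff₀ hkpos]
    calc x ^ θ1 * k ≤ x ^ θ1 * (c / 2 * x ^ (θ' - θ1)) := by
          gcongr
          linarith
      _ = c / 2 * x ^ θ' := by
          have h8 : x ^ θ1 * x ^ (θ' - θ1) = x ^ θ' := by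
            rw [← Real.rpow_add hx0]; congr 1; ring
          linear_combination (c / 2) * h8
      _ ≤ c / 2 * (2 * 2 ^ k) := by gcongr
      _ = c * 2 ^ k := by ring

/-- the main theorem -/
theorem variance_lower (F : Measure ℝ≥0) [IsProbabilityMeasure F]
    (hm : ∫⁻ x, (x : ℝ≥0∞) ∂F ≠ ∞)
    (hF : ∀ r, F (Set.Iio r) = 0 → F {r} < 1 / 3) (θ : ℝ) (hθ : θ < 1 / 2) :
    ∃ N : ℕ, ∀ n ≥ N, ∀ [NeZero n], ENNReal.ofReal (Real.log n ^ θ) ≤
      evariance (T n) (Measure.pi fun _ : Sym2 (ZMod n × ZMod n) => F) := by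
  obtain ⟨c, hc, k0, N0, hcb⟩ := scale_bound F hm hF
  have h1 : Tendsto (fun n : ℕ => Real.log (n:ℝ)) atTop atTop :=
    Real.tendsto_log_atTop.comp tendsto_natCast_atTop_atTop
  have h2 := h1.eventually (scale_choice (θ := θ) hθ hc k0)
  obtain ⟨N, hN⟩ := eventually_atTop.mp (h2.and (eventually_ge_atTop (max N0 2)))
  refine ⟨N, fun n hn _ => ?_⟩
  obtain ⟨⟨k, hk, h3, h4, h5⟩, h6⟩ := hN n hn
  have hn2 : 2 ≤ n := le_trans (le_max_right _ _) h6
  have h7 := hcb k hk n (le_trans (le_max_left _ _) h6) (by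
    have h8 : (n:ℝ) < 2 ^ (Nat.log 2 n + 1) := by
      exact_mod_cast Nat.lt_pow_succ_log_self (by norm_num) n
    have h9 : Real.log n < (Nat.log 2 n + 1) * Real.log 2 := by
      have h10 := Real.log_lt_log (by positivity) h8
      rw [Real.log_pow] at h10
      push_cast at h10
      exact h10
    have h11 : Real.log 2 < 1 := by have := Real.log_two_lt_d9; linarith
    have h12 : (Nat.log 2 n + 1 : ℝ) * Real.log 2 ≤ Nat.log 2 n + 1 := by
      have : (0:ℝ) ≤ Nat.log 2 n + 1 := by positivity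
      nlinarith
    have h13 : (4:ℝ) ^ k * k ≤ Nat.log 2 n := by linarith
    exact_mod_cast h13)
  exact (ENNReal.ofReal_le_ofReal h5).trans h7

end Pool.Agent.Helper46.Tor
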