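import Pool.Agent.Helper46.Tor.Cube

set_option autoImplicit false

namespace Pool.Agent.Helper46.Tor

open Finset

section
variable {E : Type*} [Fintype E] [DecidableEq E] {Γ : Type*}

/-- cost of an object with edge multiplicities `cnt` when edge `e` has weight `tt e (c e)` -/
def cst (cnt : Γ → E → ℕ) (tt : E → Fin 3 → ℝ) (c : E → Fin 3) (g : Γ) : ℝ :=
  ∑ e, (cnt g e : ℝ) * tt e (c e)

theorem raise_univ_eq (R : Finset E) (c : E → Fin 3) (u : E → Bool) (e : E) (he : e ∈ R) :
    raise R c u e = raise Finset.univ c u e := by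
  simp [raise, he]

theorem tt_raise_le (tt : E → Fin 3 → ℝ) (h02 : ∀ e, tt e 0 ≤ tt e 2) (R : Finset E)
    (c : E → Fin 3) (u : E → Bool) (e : E) :
    tt e (raise R c u e) ≤ tt e (raise Finset.univ c u e) := by
  by_cases he : e ∈ R
  · rw [raise_univ_eq R c u e he]
  · simp only [raise, he, if_false, Finset.mem_univ, if_true, raiseE]
    split_ifs with h
    · rw [h.2]; exact h02 e
    · exact le_rfl

/-- multiplicity lemma -/
theorem geo_unique {ρ : Type*} [LinearOrder ρ] (cnt : Γ → E → ℕ) (tt : E → Fin 3 → ℝ)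
    (h02 : ∀ e, tt e 0 ≤ tt e 2) (rank : Γ → ρ) (hrank : Function.Injective rank)
    (geo : (E → Fin 3) → Γ)
    (hmin : ∀ c g, cst cnt tt c (geo c) ≤ cst cnt tt c g)
    (hleast : ∀ c g, (∀ g', cst cnt tt c g ≤ cst cnt tt c g') → rank (geo c) ≤ rank g)
    (R : Finset E) (c : E → Fin 3) (u : E → Bool)
    (hsupp : ∀ e, cnt (geo (raise R c u)) e ≠ 0 → e ∈ R) :
    geo (raise R c u) = geo (raise Finset.univ c u) := by
  set c1 := raise R c u with hc1
  set c2 := raise Finset.univ c u with hc2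
  set g1 := geo c1 with hg1
  set g2 := geo c2 with hg2
  have hle : ∀ g, cst cnt tt c1 g ≤ cst cnt tt c2 g := by
    intro g
    apply Finset.sum_le_sum
    intro e _
    exact mul_le_mul_of_nonneg_left (tt_raise_le tt h02 R c u e) (Nat.cast_nonneg _)
  have heq : cst cnt tt c1 g1 = cst cnt tt c2 g1 := by
    apply Finset.sum_congr rfl
    intro e _
    by_cases h : cnt g1 e = 0
    · simp [h]
    · rw [hc1, hc2, raise_univ_eq R c u e (hsupp e h)]
  have hg1min2 : ∀ g', cst cnt tt c2 g1 ≤ cst cnt tt c2 g' := by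
    intro g'
    rw [← heq]
    exact (hmin c1 g').trans (hle g')
  have hg2min1 : ∀ g', cst cnt tt c1 g2 ≤ cst cnt tt c1 g' := by
    intro g'
    calc cst cnt tt c1 g2 ≤ cst cnt tt c2 g2 := hle g2
      _ ≤ cst cnt tt c2 g1 := hmin c2 g1
      _ = cst cnt tt c1 g1 := heq.symm
      _ ≤ _ := hmin c1 g'
  apply hrank
  exact le_antisymm (hleast c1 g2 hg2min1) (hleast c2 g1 hg1min2)

/-- the drop of the cost under lowering -/
theorem cst_lower_le (cnt : Γ → E → ℕ) (tt : E → Fin 3 → ℝ) (Δ : ℝ)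
    (h02 : ∀ e, tt e 0 + Δ ≤ tt e 2) (hΔ : 0 ≤ Δ) (R : Finset E) (c : E → Fin 3)
    (u : E → Bool) (g : Γ) (S : Finset E) (hSR : S ⊆ R) (hS2 : ∀ e ∈ S, c e = 2)
    (hScnt : ∀ e ∈ S, cnt g e ≠ 0) :
    cst cnt tt (lower R c u) g ≤ cst cnt tt c g - Δ * #(S.filter fun e => u e = true) := by
  have h1 : ∀ e, (cnt g e : ℝ) * tt e (lower R c u e) ≤ (cnt g e : ℝ) * tt e (c e) -
      Δ * (if e ∈ S.filter (fun e => u e = true) then 1 else 0) := by
    intro e
    by_cases heS : e ∈ S.filter (fun e => u e = true)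
    · have heS' := Finset.mem_filter.mp heS
      have hl : lower R c u e = 0 := by
        simp [lower, hSR heS'.1, lowE, heS'.2, hS2 e heS'.1]
      rw [hl, hS2 e heS'.1, if_pos heS, mul_one]
      have h1 : (1:ℝ) ≤ cnt g e := by
        exact_mod_cast Nat.one_le_iff_ne_zero.mpr (hScnt e heS'.1)
      have := h02 e
      nlinarith
    · rw [if_neg heS, mul_zero, sub_zero]
      apply mul_le_mul_of_nonneg_left _ (Nat.cast_nonneg _)
      by_cases he : e ∈ R
      · simp only [lower, he, if_true, lowE]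
        split_ifs with h
        · rw [h.2]; have := h02 e; linarith
        · exact le_rfl
      · simp [lower, he]
  unfold cst
  calc ∑ e, (cnt g e : ℝ) * tt e (lower R c u e) ≤
      ∑ e, ((cnt g e : ℝ) * tt e (c e) -
      Δ * (if e ∈ S.filter (fun e => u e = true) then 1 else 0)) :=
        Finset.sum_le_sum fun e _ => h1 e
    _ = _ := by
      rw [Finset.sum_sub_distrib, ← Finset.mul_sum, Finset.sum_ite_mem, Finset.univ_inter]
      simp

/-- the drop happens with probability at least one half -/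
theorem drop_prob {ε : ℝ} (h0 : 0 ≤ ε) (h1 : ε ≤ 1) (S : Finset E) (h : ℝ) (hh : 0 ≤ h)
    (hS : h ≤ #S) (hεh : 5 ≤ ε * h) (Q : (E → Bool) → Prop) [DecidablePred Q]
    (hQ : ∀ u, ε * h / 2 < (#(S.filter fun e => u e = true) : ℝ) → Q u) :
    1 / 2 ≤ ∑ u : E → Bool, Ber ε u * (if Q u then (1:ℝ) else 0) := by
  have hc := chernoff_bool h0 h1 S (ε * h / 2) (Real.log 2) (Real.log_nonneg (by norm_num))
  have e1 : Real.exp (-Real.log 2) = 1 / 2 := by
    rw [Real.exp_neg, Real.exp_log (by norm_num)]; norm_num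
  rw [e1] at hc
  have e2 : Real.exp (Real.log 2 * (ε * h / 2)) * (1 - ε * (1 - 1 / 2)) ^ #S ≤ 1 / 2 := by
    have hb : 0 ≤ 1 - ε * (1 - 1 / 2) := by linarith
    have h3 : (1 - ε * (1 - 1 / 2)) ^ #S ≤ Real.exp (-(ε / 2)) ^ #S := by
      apply pow_le_pow_left₀ hb
      have := Real.add_one_le_exp (-(ε / 2))
      linarith
    have h4 : Real.exp (-(ε / 2)) ^ #S ≤ Real.exp (-(ε * h / 2)) := by
      rw [← Real.exp_nat_mul]
      apply Real.exp_le_exp.mpr
      nlinarith
    calc Real.exp (Real.log 2 * (ε * h / 2)) * (1 - ε * (1 - 1 / 2)) ^ #S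
        ≤ Real.exp (Real.log 2 * (ε * h / 2)) * Real.exp (-(ε * h / 2)) := by
          gcongr
          exact h3.trans h4
      _ = Real.exp (-((1 - Real.log 2) * (ε * h / 2))) := by
          rw [← Real.exp_add]; congr 1; ring
      _ ≤ Real.exp (-Real.log 2) := by
          apply Real.exp_le_exp.mpr
          have l2 : Real.log 2 < 0.6931471808 := Real.log_two_lt_d9
          nlinarith
      _ = 1 / 2 := e1
  have hsum := Ber_sum (E := E) ε
  have hsplit : ∀ u : E → Bool, Ber ε u ≤ Ber ε u * (if Q u then (1:ℝ) else 0) +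
      Ber ε u * (if (#(S.filter fun e => u e = true) : ℝ) ≤ ε * h / 2 then (1:ℝ) else 0) := by
    intro u
    have hB := Ber_nonneg h0 h1 u
    by_cases hu : (#(S.filter fun e => u e = true) : ℝ) ≤ ε * h / 2
    · rw [if_pos hu]
      have : 0 ≤ Ber ε u * (if Q u then (1:ℝ) else 0) := by
        apply mul_nonneg hB; split_ifs <;> norm_num
      linarith
    · rw [if_pos (hQ u (not_le.mp hu)), if_neg hu]
      linarith
  have := Finset.sum_le_sum (s := Finset.univ) fun u (_ : u ∈ (Finset.univ : Finset (E → Bool))) =>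
    hsplit u
  rw [hsum, Finset.sum_add_distrib] at this
  linarith

end

end Pool.Agent.Helper46.Tor
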