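import Pool.Agent.Helper46.Tor.Path

set_option autoImplicit false

namespace Pool.Agent.Helper46.Tor

open Finset

def opp : Fin 4 → Fin 4 := ![1, 0, 3, 2]

/-- non-backtracking words from codes -/
def dec : Fin 4 → List (Fin 3) → List (Fin 4)
  | s, [] => [s]
  | s, t :: ts => s :: dec ((opp s).succAbove t) ts

theorem dec_head (s : Fin 4) (ts : List (Fin 3)) : ∃ r, dec s ts = s :: r := by
  cases ts with
  | nil => exact ⟨[], rfl⟩
  | cons t ts => exact ⟨_, rfl⟩

theorem vec_opp (s : Fin 4) : vec s + vec (opp s) = 0 := by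
  fin_cases s <;> simp [vec, opp]

theorem SA_dec (w : List (Fin 4)) (hw : w ≠ []) (h : SA w) :
    ∃ s ts, ts.length + 1 = w.length ∧ dec s ts = w := by
  induction w with
  | nil => exact absurd rfl hw
  | cons s w ih =>
    cases w with
    | nil => exact ⟨s, [], rfl, rfl⟩
    | cons s' w =>
      have h' : SA (s' :: w) := by
        have := SA_drop h 1
        simpa using this
      obtain ⟨s'', ts, h1, h2⟩ := ih (by simp) h'
      obtain ⟨r, hr⟩ := dec_head s'' ts
      rw [hr] at h2
      have hs : s'' = s' := by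
        have := congrArg List.head? h2
        simpa using this
      subst hs
      have hne : s'' ≠ opp s := by
        intro heq
        apply h 0 2 (by norm_num) (by simp)
        simp only [List.take_zero, tot_nil, List.take_succ_cons, tot_cons, add_zero]
        rw [heq, vec_opp]
      obtain ⟨t, ht⟩ := Fin.exists_succAbove_eq hne
      refine ⟨s, t :: ts, by simpa using h1, ?_⟩
      simp only [dec]
      rw [ht, hr, h2]

/-- every self-avoiding word of length `n - 1` has more than `h` high edges -/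
def Good1 (n : ℕ) (c : Sym2 (ZMod n × ZMod n) → Fin 3) (h : ℝ) : Prop :=
  ∀ (x : ZMod n × ZMod n) (w : List (Fin 4)), w.length = n - 1 → SA w →
    h < #((edgesL n x w).toFinset.filter fun e => c e = 2)

open Classical in
theorem bad_prob {n : ℕ} [NeZero n] (hn : 2 ≤ n) {α β : ℝ} (hα : 0 ≤ α) (hβ : 0 ≤ β)
    (hsum : α + β ≤ 1) (h s : ℝ) (hs : 0 ≤ s) :
    ∑ c : Sym2 (ZMod n × ZMod n) → Fin 3, PP α β c * (if Good1 n c h then (0:ℝ) else 1) ≤
      (n : ℝ) ^ 2 * (4 * 3 ^ (n - 2)) *
        (Real.exp (s * h) * (1 - β * (1 - Real.exp (-s))) ^ (n - 1)) := by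
  have hb1 : β ≤ 1 := by linarith
  have hexp : Real.exp (-s) ≤ 1 := Real.exp_le_one_iff.mpr (by linarith)
  have hbase : 0 ≤ 1 - β * (1 - Real.exp (-s)) := by
    have := Real.exp_pos (-s)
    nlinarith
  have key : ∀ c : Sym2 (ZMod n × ZMod n) → Fin 3, (if Good1 n c h then (0:ℝ) else 1) ≤
      ∑ x : ZMod n × ZMod n, ∑ s0 : Fin 4, ∑ ts : List.Vector (Fin 3) (n - 2),
        (if SA (dec s0 ts.1) ∧ (dec s0 ts.1).length = n - 1 then
          (if (#((edgesL n x (dec s0 ts.1)).toFinset.filter fun e => c e = 2) : ℝ) ≤ h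
            then (1:ℝ) else 0) else 0) := by
    intro c
    have hnn : ∀ x : ZMod n × ZMod n, ∀ s0 : Fin 4, ∀ ts : List.Vector (Fin 3) (n - 2),
        (0:ℝ) ≤ (if SA (dec s0 ts.1) ∧ (dec s0 ts.1).length = n - 1 then
          (if (#((edgesL n x (dec s0 ts.1)).toFinset.filter fun e => c e = 2) : ℝ) ≤ h
            then (1:ℝ) else 0) else 0) := by
      intro x s0 ts
      split_ifs <;> norm_num
    split_ifs with hg
    · exact Finset.sum_nonneg fun x _ => Finset.sum_nonneg fun s0 _ =>
        Finset.sum_nonneg fun ts _ => hnn x s0 ts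
    · unfold Good1 at hg
      push Not at hg
      obtain ⟨x, w, hw1, hw2, hw3⟩ := hg
      have hwne : w ≠ [] := by
        intro h0; rw [h0] at hw1; simp at hw1; omega
      obtain ⟨s0, ts, hts1, hts2⟩ := SA_dec w hwne hw2
      have htl : ts.length = n - 2 := by omega
      let tv : List.Vector (Fin 3) (n - 2) := ⟨ts, htl⟩
      have h1 : (1:ℝ) ≤ (if SA (dec s0 tv.1) ∧ (dec s0 tv.1).length = n - 1 then
          (if (#((edgesL n x (dec s0 tv.1)).toFinset.filter fun e => c e = 2) : ℝ) ≤ h
            then (1:ℝ) else 0) else 0) := by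
        simp only [tv, hts2]
        rw [if_pos ⟨hw2, hw1⟩, if_pos hw3]
      calc (1:ℝ) ≤ _ := h1
        _ ≤ ∑ ts : List.Vector (Fin 3) (n - 2),
        (if SA (dec s0 ts.1) ∧ (dec s0 ts.1).length = n - 1 then
          (if (#((edgesL n x (dec s0 ts.1)).toFinset.filter fun e => c e = 2) : ℝ) ≤ h
            then (1:ℝ) else 0) else 0) :=
          Finset.single_le_sum (f := fun ts : List.Vector (Fin 3) (n - 2) =>
            (if SA (dec s0 ts.1) ∧ (dec s0 ts.1).length = n - 1 then
          (if (#((edgesL n x (dec s0 ts.1)).toFinset.filter fun e => c e = 2) : ℝ) ≤ h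
            then (1:ℝ) else 0) else 0)) (fun ts _ => hnn x s0 ts) (Finset.mem_univ tv)
        _ ≤ ∑ s0 : Fin 4, ∑ ts : List.Vector (Fin 3) (n - 2),
        (if SA (dec s0 ts.1) ∧ (dec s0 ts.1).length = n - 1 then
          (if (#((edgesL n x (dec s0 ts.1)).toFinset.filter fun e => c e = 2) : ℝ) ≤ h
            then (1:ℝ) else 0) else 0) :=
          Finset.single_le_sum (f := fun s0 : Fin 4 => ∑ ts : List.Vector (Fin 3) (n - 2),
            (if SA (dec s0 ts.1) ∧ (dec s0 ts.1).length = n - 1 then
          (if (#((edgesL n x (dec s0 ts.1)).toFinset.filter fun e => c e = 2) : ℝ) ≤ h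
            then (1:ℝ) else 0) else 0)) (fun s0 _ => Finset.sum_nonneg fun ts _ => hnn x s0 ts)
            (Finset.mem_univ s0)
        _ ≤ _ :=
          Finset.single_le_sum (f := fun x : ZMod n × ZMod n => ∑ s0 : Fin 4,
            ∑ ts : List.Vector (Fin 3) (n - 2),
            (if SA (dec s0 ts.1) ∧ (dec s0 ts.1).length = n - 1 then
          (if (#((edgesL n x (dec s0 ts.1)).toFinset.filter fun e => c e = 2) : ℝ) ≤ h
            then (1:ℝ) else 0) else 0)) (fun x _ => Finset.sum_nonneg fun s0 _ =>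
              Finset.sum_nonneg fun ts _ => hnn x s0 ts) (Finset.mem_univ x)
  have hPP := fun c : Sym2 (ZMod n × ZMod n) → Fin 3 => PP_nonneg hα hβ hsum c
  calc ∑ c : Sym2 (ZMod n × ZMod n) → Fin 3, PP α β c * (if Good1 n c h then (0:ℝ) else 1)
      ≤ ∑ c : Sym2 (ZMod n × ZMod n) → Fin 3, PP α β c *
        ∑ x : ZMod n × ZMod n, ∑ s0 : Fin 4, ∑ ts : List.Vector (Fin 3) (n - 2),
        (if SA (dec s0 ts.1) ∧ (dec s0 ts.1).length = n - 1 then
          (if (#((edgesL n x (dec s0 ts.1)).toFinset.filter fun e => c e = 2) : ℝ) ≤ h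
            then (1:ℝ) else 0) else 0) :=
        Finset.sum_le_sum fun c _ => mul_le_mul_of_nonneg_left (key c) (hPP c)
    _ = ∑ x : ZMod n × ZMod n, ∑ s0 : Fin 4, ∑ ts : List.Vector (Fin 3) (n - 2),
        ∑ c : Sym2 (ZMod n × ZMod n) → Fin 3, PP α β c *
        (if SA (dec s0 ts.1) ∧ (dec s0 ts.1).length = n - 1 then
          (if (#((edgesL n x (dec s0 ts.1)).toFinset.filter fun e => c e = 2) : ℝ) ≤ h
            then (1:ℝ) else 0) else 0) := by
        simp_rw [Finset.mul_sum]
        rw [Finset.sum_comm]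
        apply Finset.sum_congr rfl
        intro x _
        rw [Finset.sum_comm]
        apply Finset.sum_congr rfl
        intro s0 _
        rw [Finset.sum_comm]
    _ ≤ ∑ x : ZMod n × ZMod n, ∑ s0 : Fin 4, ∑ ts : List.Vector (Fin 3) (n - 2),
        (Real.exp (s * h) * (1 - β * (1 - Real.exp (-s))) ^ (n - 1)) := by
        apply Finset.sum_le_sum
        intro x _
        apply Finset.sum_le_sum
        intro s0 _
        apply Finset.sum_le_sum
        intro ts _
        by_cases hSA : SA (dec s0 ts.1) ∧ (dec s0 ts.1).length = n - 1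
        · simp only [if_pos hSA]
          have h1 := chernoff_cat hα hβ hsum (edgesL n x (dec s0 ts.1)).toFinset h s hs
          rw [SA_card hSA.1 (by rw [hSA.2]; omega) x, hSA.2] at h1
          exact h1
        · simp only [if_neg hSA, mul_zero, Finset.sum_const_zero]
          positivity
    _ = _ := by
        simp only [Finset.sum_const, Finset.card_univ, nsmul_eq_mul, Fintype.card_prod,
          ZMod.card, Fintype.card_fin, card_vector]
        push_cast
        ring

theorem cost_ge_high {n : ℕ} [NeZero n] (t : Sym2 (ZMod n × ZMod n) → ℝ) (ht : ∀ e, 0 ≤ t e)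
    (b : ℝ) (c : Sym2 (ZMod n × ZMod n) → Fin 3) (hb : ∀ e, c e = 2 → b ≤ t e)
    (x : ZMod n × ZMod n) (w : List (Fin 4)) :
    b * #((edgesL n x w).toFinset.filter fun e => c e = 2) ≤ costL n t x w := by
  rw [costL_eq_count]
  calc b * #((edgesL n x w).toFinset.filter fun e => c e = 2)
      = ∑ e ∈ (edgesL n x w).toFinset.filter (fun e => c e = 2), b := by
        rw [Finset.sum_const, nsmul_eq_mul, mul_comm]
    _ ≤ ∑ e ∈ (edgesL n x w).toFinset.filter (fun e => c e = 2),
        ((edgesL n x w).count e : ℝ) * t e := by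
        apply Finset.sum_le_sum
        intro e he
        rw [Finset.mem_filter, List.mem_toFinset] at he
        have h1 : (1:ℝ) ≤ (edgesL n x w).count e := by
          exact_mod_cast List.count_pos_iff.mpr he.1
        have h2 := hb e he.2
        have h3 := ht e
        nlinarith
    _ ≤ _ := by
        apply Finset.sum_le_sum_of_subset_of_nonneg (Finset.subset_univ _)
        intro e _ _
        exact mul_nonneg (Nat.cast_nonneg _) (ht e)

theorem cost_windows {n : ℕ} [NeZero n] (hn : 2 ≤ n) (t : Sym2 (ZMod n × ZMod n) → ℝ)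
    (ht : ∀ e, 0 ≤ t e) (b h : ℝ) (hb0 : 0 ≤ b) (c : Sym2 (ZMod n × ZMod n) → Fin 3)
    (hb : ∀ e, c e = 2 → b ≤ t e) (hg : Good1 n c h) (q : ℕ) :
    ∀ (x : ZMod n × ZMod n) (w : List (Fin 4)), SA w → q * (n - 1) ≤ w.length →
      b * h * q ≤ costL n t x w := by
  induction q with
  | zero => intro x w _ _; simp; exact costL_nonneg n t ht x w
  | succ q ih =>
    intro x w hw hq
    have hq' : q * (n - 1) + (n - 1) ≤ w.length := by
      have : (q + 1) * (n - 1) = q * (n - 1) + (n - 1) := by ring
      omega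
    have hsplit : costL n t x w = costL n t x (w.take (n - 1)) +
        costL n t (x + proj n (tot (w.take (n - 1)))) (w.drop (n - 1)) := by
      rw [← costL_append, List.take_append_drop]
    have h1 := hg x (w.take (n - 1)) (by rw [List.length_take]; omega) (SA_take hw _)
    have h2 := cost_ge_high t ht b c hb x (w.take (n - 1))
    have h3 := ih (x + proj n (tot (w.take (n - 1)))) (w.drop (n - 1)) (SA_drop hw _)
      (by rw [List.length_drop]; omega)
    rw [hsplit]
    push_cast
    have h4 : b * h ≤ b * #((edgesL n x (w.take (n - 1))).toFinset.filter fun e => c e = 2) :=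
      mul_le_mul_of_nonneg_left h1.le hb0
    linarith

end Pool.Agent.Helper46.Tor
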