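import Pool.Agent.Helper46.Tor.Cube

set_option autoImplicit false

namespace Pool.Agent.Helper46.Tor

open MeasureTheory Finset
open scoped NNReal ENNReal

/-- category measure -/
noncomputable def muK (α β : ℝ) : Measure (Fin 3) := ∑ s, ENNReal.ofReal (wt α β s) • Measure.dirac s

theorem muK_singleton (α β : ℝ) (s : Fin 3) : muK α β {s} = ENNReal.ofReal (wt α β s) := by
  unfold muK
  rw [Measure.finsetSum_apply]
  simp only [Measure.smul_apply, MeasurableSet.singleton, Measure.dirac_apply', smul_eq_mul]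
  rw [Finset.sum_eq_single s]
  · simp
  · intro b _ hb
    simp [hb]
  · simp

theorem muK_prob {α β : ℝ} (hα : 0 ≤ α) (hβ : 0 ≤ β) (hs : α + β ≤ 1) :
    IsProbabilityMeasure (muK α β) := by
  constructor
  unfold muK
  rw [Measure.finsetSum_apply]
  simp only [Measure.smul_apply, measure_univ, smul_eq_mul, mul_one]
  rw [← ENNReal.ofReal_sum_of_nonneg (fun s _ => wt_nonneg hα hβ hs s), wt_sum]
  simp

/-- value of an edge -/
def val3 (p : Fin 3 × (ℝ≥0 × ℝ≥0 × ℝ≥0)) : ℝ≥0 :=
  if p.1 = 0 then p.2.1 else if p.1 = 1 then p.2.2.1 else p.2.2.2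

theorem measurable_val3 : Measurable val3 := by
  unfold val3
  refine Measurable.ite (measurable_fst (MeasurableSet.singleton 0)) (by fun_prop) ?_
  exact Measurable.ite (measurable_fst (MeasurableSet.singleton 1)) (by fun_prop) (by fun_prop)

section
variable (F : Measure ℝ≥0) [IsProbabilityMeasure F] (a b : ℝ≥0)

noncomputable def lawL : Measure ℝ≥0 := (F (Set.Iic a))⁻¹ • F.restrict (Set.Iic a)
noncomputable def lawH : Measure ℝ≥0 := (F (Set.Ici b))⁻¹ • F.restrict (Set.Ici b)
open Classical in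
noncomputable def lawM : Measure ℝ≥0 :=
  if F (Set.Ioo a b) = 0 then Measure.dirac a else (F (Set.Ioo a b))⁻¹ • F.restrict (Set.Ioo a b)

variable {F a b}

theorem lawL_prob (h : F (Set.Iic a) ≠ 0) : IsProbabilityMeasure (lawL F a) := by
  constructor
  simp [lawL, ENNReal.inv_mul_cancel h (measure_ne_top F _)]

theorem lawH_prob (h : F (Set.Ici b) ≠ 0) : IsProbabilityMeasure (lawH F b) := by
  constructor
  simp [lawH, ENNReal.inv_mul_cancel h (measure_ne_top F _)]

theorem lawM_prob : IsProbabilityMeasure (lawM F a b) := by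
  unfold lawM
  split_ifs with h
  · infer_instance
  · constructor
    simp [ENNReal.inv_mul_cancel h (measure_ne_top F _)]

theorem lawL_mul (h : F (Set.Iic a) ≠ 0) (S : Set ℝ≥0) (hS : MeasurableSet S) :
    F (Set.Iic a) * lawL F a S = F (S ∩ Set.Iic a) := by
  simp only [lawL, Measure.smul_apply, smul_eq_mul, Measure.restrict_apply hS]
  rw [← mul_assoc, ENNReal.mul_inv_cancel h (measure_ne_top F _), one_mul]

theorem lawH_mul (h : F (Set.Ici b) ≠ 0) (S : Set ℝ≥0) (hS : MeasurableSet S) :
    F (Set.Ici b) * lawH F b S = F (S ∩ Set.Ici b) := by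
  simp only [lawH, Measure.smul_apply, smul_eq_mul, Measure.restrict_apply hS]
  rw [← mul_assoc, ENNReal.mul_inv_cancel h (measure_ne_top F _), one_mul]

theorem lawM_mul (S : Set ℝ≥0) (hS : MeasurableSet S) :
    F (Set.Ioo a b) * lawM F a b S = F (S ∩ Set.Ioo a b) := by
  unfold lawM
  split_ifs with h
  · rw [h, zero_mul]
    exact (measure_mono_null Set.inter_subset_right h).symm
  · simp only [Measure.smul_apply, smul_eq_mul, Measure.restrict_apply hS]
    rw [← mul_assoc, ENNReal.mul_inv_cancel h (measure_ne_top F _), one_mul]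

/-- weights -/
theorem wt_F (hab : a < b) (s : Fin 3) :
    ENNReal.ofReal (wt (F (Set.Iic a)).toReal (F (Set.Ici b)).toReal s) =
      ![F (Set.Iic a), F (Set.Ioo a b), F (Set.Ici b)] s := by
  have hsum : F (Set.Iic a) + F (Set.Ioo a b) + F (Set.Ici b) = 1 := by
    rw [← measure_union _ measurableSet_Ioo, ← measure_union _ measurableSet_Ici]
    · have : Set.Iic a ∪ Set.Ioo a b ∪ Set.Ici b = Set.univ := by
        ext x
        simp only [Set.mem_union, Set.mem_Iic, Set.mem_Ioo, Set.mem_Ici, Set.mem_univ, iff_true]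
        rcases le_or_gt x a with h | h
        · left; left; exact h
        · rcases lt_or_ge x b with h' | h'
          · left; right; exact ⟨h, h'⟩
          · right; exact h'
      rw [this, measure_univ]
    · rw [Set.disjoint_left]
      rintro x (hx | hx) hx'
      · exact absurd (lt_of_le_of_lt hx hab) (not_lt.mpr hx')
      · exact absurd hx.2 (not_lt.mpr hx')
    · rw [Set.disjoint_left]
      intro x hx hx'
      exact absurd hx'.1 (not_lt.mpr hx)
  have e1 : ((1:ℝ) - (F (Set.Iic a)).toReal - (F (Set.Ici b)).toReal) =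
      (F (Set.Ioo a b)).toReal := by
    have := congrArg ENNReal.toReal hsum
    rw [ENNReal.toReal_add (by finiteness) (by finiteness),
      ENNReal.toReal_add (by finiteness) (by finiteness)] at this
    simp only [ENNReal.toReal_one] at this
    linarith
  fin_cases s
  · simp [wt]
  · simp only [wt]
    show ENNReal.ofReal (1 - (F (Set.Iic a)).toReal - (F (Set.Ici b)).toReal) = F (Set.Ioo a b)
    rw [e1, ENNReal.ofReal_toReal (measure_ne_top F _)]
  · simp [wt]

theorem ab_le_one (hab : a < b) : (F (Set.Iic a)).toReal + (F (Set.Ici b)).toReal ≤ 1 := by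
  have h1 : F (Set.Iic a) + F (Set.Ici b) ≤ 1 := by
    rw [← measure_union _ measurableSet_Ici]
    · exact prob_le_one
    · rw [Set.disjoint_left]
      intro x hx hx'
      exact absurd (lt_of_le_of_lt hx hab) (not_lt.mpr hx')
  rw [← ENNReal.toReal_add (by finiteness) (by finiteness)]
  exact ENNReal.toReal_mono (by simp) h1

/-- law of the values -/
noncomputable def nu3 (F : Measure ℝ≥0) (a b : ℝ≥0) : Measure (ℝ≥0 × ℝ≥0 × ℝ≥0) :=
  (lawL F a).prod ((lawM F a b).prod (lawH F b))

theorem map_val3 (hab : a < b) (ha : F (Set.Iic a) ≠ 0) (hb : F (Set.Ici b) ≠ 0) :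
    MeasurePreserving val3
      ((muK (F (Set.Iic a)).toReal (F (Set.Ici b)).toReal).prod (nu3 F a b)) F := by
  haveI := lawL_prob ha
  haveI := lawH_prob hb
  haveI : IsProbabilityMeasure (lawM F a b) := lawM_prob
  haveI : IsProbabilityMeasure (nu3 F a b) := by unfold nu3; infer_instance
  refine ⟨measurable_val3, ?_⟩
  ext S hS
  rw [Measure.map_apply measurable_val3 hS, Measure.prod_apply (measurable_val3 hS)]
  unfold muK
  rw [lintegral_finset_sum_measure]
  simp only [lintegral_smul_measure, lintegral_dirac, smul_eq_mul]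
  simp_rw [wt_F hab]
  rw [Fin.sum_univ_three]
  have p0 : nu3 F a b (Prod.mk (0 : Fin 3) ⁻¹' (val3 ⁻¹' S)) = lawL F a S := by
    have : Prod.mk (0 : Fin 3) ⁻¹' (val3 ⁻¹' S) = S ×ˢ Set.univ := by
      ext v; simp [val3]
    rw [this, nu3, Measure.prod_prod, measure_univ, mul_one]
  have p1 : nu3 F a b (Prod.mk (1 : Fin 3) ⁻¹' (val3 ⁻¹' S)) = lawM F a b S := by
    have : Prod.mk (1 : Fin 3) ⁻¹' (val3 ⁻¹' S) = Set.univ ×ˢ (S ×ˢ Set.univ) := by
      ext v; simp [val3]
    rw [this, nu3, Measure.prod_prod, Measure.prod_prod, measure_univ, measure_univ, mul_one,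
      one_mul]
  have p2 : nu3 F a b (Prod.mk (2 : Fin 3) ⁻¹' (val3 ⁻¹' S)) = lawH F b S := by
    have : Prod.mk (2 : Fin 3) ⁻¹' (val3 ⁻¹' S) = Set.univ ×ˢ (Set.univ ×ˢ S) := by
      ext v; simp [val3]
    rw [this, nu3, Measure.prod_prod, Measure.prod_prod, measure_univ, measure_univ, one_mul,
      one_mul]
  rw [p0, p1, p2]
  show F (Set.Iic a) * lawL F a S + F (Set.Ioo a b) * lawM F a b S +
    F (Set.Ici b) * lawH F b S = F S
  rw [lawL_mul ha S hS, lawM_mul S hS, lawH_mul hb S hS]
  rw [← measure_union _ (hS.inter measurableSet_Ioo),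
    ← measure_union _ (hS.inter measurableSet_Ici)]
  · congr 1
    ext x
    simp only [Set.mem_union, Set.mem_inter_iff, Set.mem_Iic, Set.mem_Ioo, Set.mem_Ici]
    constructor
    · rintro ((h | h) | h) <;> exact h.1
    · intro hx
      rcases le_or_gt x a with h | h
      · left; left; exact ⟨hx, h⟩
      · rcases lt_or_ge x b with h' | h'
        · left; right; exact ⟨hx, h, h'⟩
        · right; exact ⟨hx, h'⟩
  · rw [Set.disjoint_left]
    rintro x (hx | hx) hx'
    · exact absurd (lt_of_le_of_lt hx.2 hab) (not_lt.mpr hx'.2)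
    · exact absurd hx.2.2 (not_lt.mpr hx'.2)
  · rw [Set.disjoint_left]
    intro x hx hx'
    exact absurd hx'.2.1 (not_lt.mpr hx.2)

theorem ae_nu3 (ha : F (Set.Iic a) ≠ 0) (hb : F (Set.Ici b) ≠ 0) :
    ∀ᵐ v ∂(nu3 F a b), v.1 ≤ a ∧ b ≤ v.2.2 := by
  haveI := lawL_prob ha
  haveI := lawH_prob hb
  haveI : IsProbabilityMeasure (lawM F a b) := lawM_prob
  have h1 : ∀ᵐ x ∂(lawL F a), x ≤ a := by
    unfold lawL
    apply Measure.ae_smul_measure
    exact ae_restrict_mem measurableSet_Iic
  have h2 : ∀ᵐ x ∂(lawH F b), b ≤ x := by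
    unfold lawH
    apply Measure.ae_smul_measure
    exact ae_restrict_mem measurableSet_Ici
  unfold nu3
  have h1' := Measure.quasiMeasurePreserving_fst (μ := lawL F a)
    (ν := (lawM F a b).prod (lawH F b)) |>.ae h1
  have h2' := (Measure.quasiMeasurePreserving_snd (μ := lawM F a b) (ν := lawH F b)).ae h2
  have h2'' := (Measure.quasiMeasurePreserving_snd (μ := lawL F a)
    (ν := (lawM F a b).prod (lawH F b))).ae h2'
  filter_upwards [h1', h2''] with v hv1 hv2
  exact ⟨hv1, hv2⟩

end

section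
variable {E : Type*} [Fintype E] [DecidableEq E]

theorem pi_muK_apply {α β : ℝ} (hα : 0 ≤ α) (hβ : 0 ≤ β) (hs : α + β ≤ 1)
    (Q : (E → Fin 3) → Prop) [DecidablePred Q] :
    (Measure.pi fun _ : E => muK α β) {c | Q c} =
      ENNReal.ofReal (∑ c, PP α β c * (if Q c then (1:ℝ) else 0)) := by
  haveI := muK_prob hα hβ hs
  have h1 : {c | Q c} = ((Finset.univ.filter Q : Finset (E → Fin 3)) : Set (E → Fin 3)) := by
    ext c; simp
  rw [h1, ← MeasureTheory.sum_measure_singleton]
  rw [ENNReal.ofReal_sum_of_nonneg (fun c _ => mul_nonneg (PP_nonneg hα hβ hs c)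
    (by split_ifs <;> norm_num))]
  rw [Finset.sum_filter]
  apply Finset.sum_congr rfl
  intro c _
  split_ifs with h
  · rw [mul_one]
    have : ({c} : Set (E → Fin 3)) = Set.univ.pi fun e => {c e} := by
      rw [Set.univ_pi_singleton]
    rw [this, Measure.pi_pi]
    simp_rw [muK_singleton]
    rw [PP, ENNReal.ofReal_prod_of_nonneg (fun e _ => wt_nonneg hα hβ hs (c e))]
  · simp

variable (F : Measure ℝ≥0) [IsProbabilityMeasure F] (a b : ℝ≥0)

/-- the configuration obtained from categories and values -/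
def conf (q : (E → Fin 3) × (E → (ℝ≥0 × ℝ≥0 × ℝ≥0))) : E → ℝ≥0 := fun e => val3 (q.1 e, q.2 e)

variable {F a b}

theorem conf_mp (hab : a < b) (ha : F (Set.Iic a) ≠ 0) (hb : F (Set.Ici b) ≠ 0) :
    MeasurePreserving (conf (E := E))
      ((Measure.pi fun _ : E => muK (F (Set.Iic a)).toReal (F (Set.Ici b)).toReal).prod
        (Measure.pi fun _ : E => nu3 F a b)) (Measure.pi fun _ : E => F) := by
  haveI := lawL_prob ha
  haveI := lawH_prob hb
  haveI : IsProbabilityMeasure (lawM F a b) := lawM_prob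
  haveI : IsProbabilityMeasure (nu3 F a b) := by unfold nu3; infer_instance
  haveI : IsProbabilityMeasure (muK (F (Set.Iic a)).toReal (F (Set.Ici b)).toReal) :=
    muK_prob ENNReal.toReal_nonneg ENNReal.toReal_nonneg (ab_le_one hab)
  have h1 := (measurePreserving_arrowProdEquivProdArrow (Fin 3) (ℝ≥0 × ℝ≥0 × ℝ≥0) E
    (fun _ => muK (F (Set.Iic a)).toReal (F (Set.Ici b)).toReal) (fun _ => nu3 F a b)).symm
  have h2 := measurePreserving_pi
    (fun _ : E => (muK (F (Set.Iic a)).toReal (F (Set.Ici b)).toReal).prod (nu3 F a b))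
    (fun _ : E => F) (f := fun _ => val3) (fun _ => map_val3 hab ha hb)
  exact h2.comp h1

theorem measurable_conf : Measurable (conf (E := E)) := by
  unfold conf
  apply measurable_pi_lambda
  intro e
  apply measurable_val3.comp
  fun_prop

open Classical in
/-- disintegration of probabilities -/
theorem pi_F_eq (hab : a < b) (ha : F (Set.Iic a) ≠ 0) (hb : F (Set.Ici b) ≠ 0)
    (S : Set (E → ℝ≥0)) (hS : MeasurableSet S) :
    (Measure.pi fun _ : E => F) S =
      ∫⁻ v, ENNReal.ofReal (∑ c, PP (F (Set.Iic a)).toReal (F (Set.Ici b)).toReal c *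
        (if conf (c, v) ∈ S then (1:ℝ) else 0)) ∂(Measure.pi fun _ : E => nu3 F a b) := by
  haveI := lawL_prob ha
  haveI := lawH_prob hb
  haveI : IsProbabilityMeasure (lawM F a b) := lawM_prob
  haveI : IsProbabilityMeasure (nu3 F a b) := by unfold nu3; infer_instance
  haveI : IsProbabilityMeasure (muK (F (Set.Iic a)).toReal (F (Set.Ici b)).toReal) :=
    muK_prob ENNReal.toReal_nonneg ENNReal.toReal_nonneg (ab_le_one hab)
  rw [← (conf_mp (E := E) hab ha hb).measure_preimage hS.nullMeasurableSet,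
    Measure.prod_apply_symm (measurable_conf hS)]
  apply lintegral_congr
  intro v
  have := pi_muK_apply (E := E) (α := (F (Set.Iic a)).toReal) (β := (F (Set.Ici b)).toReal)
    ENNReal.toReal_nonneg ENNReal.toReal_nonneg (ab_le_one hab)
    (fun c => conf (c, v) ∈ S)
  rw [← this]
  rfl

end

end Pool.Agent.Helper46.Tor
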