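import Pool.Agent.Helper46.Tor.Geo
import Pool.Agent.Helper46.Tor.Defs

set_option autoImplicit false

namespace Pool.Agent.Helper46.Tor

open Finset
open scoped NNReal

/-- the four unit vectors -/
def vec : Fin 4 → ℤ × ℤ := ![(1, 0), (-1, 0), (0, 1), (0, -1)]

theorem proj_add (n : ℕ) (x y : ℤ × ℤ) : proj n (x + y) = proj n x + proj n y := by
  simp [proj]

theorem proj_zero (n : ℕ) : proj n 0 = 0 := by
  simp [proj]

/-- total displacement of a word -/
def tot (w : List (Fin 4)) : ℤ × ℤ := (w.map vec).sum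

theorem tot_nil : tot [] = 0 := rfl

theorem tot_cons (s : Fin 4) (w : List (Fin 4)) : tot (s :: w) = vec s + tot w := by
  simp [tot]

theorem tot_append (w1 w2 : List (Fin 4)) : tot (w1 ++ w2) = tot w1 + tot w2 := by
  simp [tot]

/-- the edges used by the word `w` started at the torus vertex `x` -/
def edgesL (n : ℕ) : ZMod n × ZMod n → List (Fin 4) → List (Sym2 (ZMod n × ZMod n))
  | _, [] => []
  | x, s :: w => s(x, x + proj n (vec s)) :: edgesL n (x + proj n (vec s)) w

theorem edgesL_append (n : ℕ) (x : ZMod n × ZMod n) (w1 w2 : List (Fin 4)) :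
    edgesL n x (w1 ++ w2) = edgesL n x w1 ++ edgesL n (x + proj n (tot w1)) w2 := by
  induction w1 generalizing x with
  | nil => simp [edgesL, tot_nil, proj_zero]
  | cons s w ih =>
    simp only [List.cons_append, edgesL, ih, tot_cons, proj_add, List.cons_append]
    rw [add_assoc]

theorem edgesL_length (n : ℕ) (x : ZMod n × ZMod n) (w : List (Fin 4)) :
    (edgesL n x w).length = w.length := by
  induction w generalizing x with
  | nil => rfl
  | cons s w ih => simp [edgesL, ih]

/-- sum of the weights along a word -/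
def costL (n : ℕ) (t : Sym2 (ZMod n × ZMod n) → ℝ) (x : ZMod n × ZMod n) (w : List (Fin 4)) : ℝ :=
  ((edgesL n x w).map t).sum

theorem costL_append (n : ℕ) (t : Sym2 (ZMod n × ZMod n) → ℝ) (x : ZMod n × ZMod n)
    (w1 w2 : List (Fin 4)) :
    costL n t x (w1 ++ w2) = costL n t x w1 + costL n t (x + proj n (tot w1)) w2 := by
  simp [costL, edgesL_append]

theorem costL_nonneg (n : ℕ) (t : Sym2 (ZMod n × ZMod n) → ℝ) (ht : ∀ e, 0 ≤ t e)
    (x : ZMod n × ZMod n) (w : List (Fin 4)) : 0 ≤ costL n t x w := by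
  apply List.sum_nonneg
  intro a ha
  obtain ⟨e, _, rfl⟩ := List.mem_map.mp ha
  exact ht e

theorem costL_eq_count (n : ℕ) [NeZero n] (t : Sym2 (ZMod n × ZMod n) → ℝ)
    (x : ZMod n × ZMod n) (w : List (Fin 4)) :
    costL n t x w = ∑ e, ((edgesL n x w).count e : ℝ) * t e := by
  unfold costL
  rw [Finset.sum_list_map_count]
  rw [← Finset.sum_subset (Finset.subset_univ (edgesL n x w).toFinset)]
  · apply Finset.sum_congr rfl
    intro e _
    rw [nsmul_eq_mul]
  · intro e _ he
    have : (edgesL n x w).count e = 0 := by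
      rw [List.count_eq_zero]
      intro h
      exact he (List.mem_toFinset.mpr h)
    simp [this]

/-- words that wind once horizontally -/
def Wind (n : ℕ) : Type := {g : (ZMod n × ZMod n) × List (Fin 4) // tot g.2 = ((n : ℤ), 0)}

theorem isStep_iff (u v : ℤ × ℤ) : IsStep u v ↔ ∃ s, v = u + vec s := by
  constructor
  · intro h
    unfold IsStep at h
    have h1 : (v.1 - u.1 = 1 ∧ v.2 - u.2 = 0) ∨ (v.1 - u.1 = -1 ∧ v.2 - u.2 = 0) ∨
        (v.1 - u.1 = 0 ∧ v.2 - u.2 = 1) ∨ (v.1 - u.1 = 0 ∧ v.2 - u.2 = -1) := by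
      rcases abs_cases (u.1 - v.1) with ⟨ha, ha'⟩ | ⟨ha, ha'⟩ <;>
      rcases abs_cases (u.2 - v.2) with ⟨hb, hb'⟩ | ⟨hb, hb'⟩ <;> omega
    rcases h1 with h1 | h1 | h1 | h1
    · refine ⟨0, Prod.ext ?_ ?_⟩ <;> simp [vec] <;> omega
    · refine ⟨1, Prod.ext ?_ ?_⟩ <;> simp [vec] <;> omega
    · refine ⟨2, Prod.ext ?_ ?_⟩ <;> simp [vec] <;> omega
    · refine ⟨3, Prod.ext ?_ ?_⟩ <;> simp [vec] <;> omega
  · rintro ⟨s, rfl⟩
    fin_cases s <;> simp [IsStep, vec]

/-- a lattice path gives a word -/
theorem word_of_path (n l : ℕ) (p : ℕ → ℤ × ℤ) (hp : ∀ i < l, IsStep (p i) (p (i + 1))) :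
    ∃ w : List (Fin 4), w.length = l ∧ p l = p 0 + tot w ∧
      ∀ t : Sym2 (ZMod n × ZMod n) → ℝ, costL n t (proj n (p 0)) w =
        ∑ i ∈ Finset.range l, t s(proj n (p i), proj n (p (i + 1))) := by
  induction l generalizing p with
  | zero => exact ⟨[], rfl, by simp [tot_nil], fun t => by simp [costL, edgesL]⟩
  | succ l ih =>
    obtain ⟨w, hw1, hw2, hw3⟩ := ih (fun i => p (i + 1)) (fun i hi => hp (i + 1) (by omega))
    obtain ⟨s, hs⟩ := (isStep_iff _ _).mp (hp 0 (by omega))
    refine ⟨s :: w, by simp [hw1], ?_, ?_⟩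
    · rw [tot_cons, ← add_assoc, ← hs]; exact hw2
    · intro t
      rw [Finset.sum_range_succ']
      have h2 := hw3 t
      simp only [zero_add] at h2 hs ⊢
      rw [← h2, hs, proj_add]
      simp [costL, edgesL]
      ring

/-- a word gives a lattice path -/
theorem path_of_word (n : ℕ) (y : ℤ × ℤ) (w : List (Fin 4)) :
    (∀ i < w.length, IsStep (y + tot (w.take i)) (y + tot (w.take (i + 1)))) ∧
    ∀ t : Sym2 (ZMod n × ZMod n) → ℝ, costL n t (proj n y) w =
        ∑ i ∈ Finset.range w.length, t s(proj n (y + tot (w.take i)),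
          proj n (y + tot (w.take (i + 1)))) := by
  induction w generalizing y with
  | nil => simp [costL, edgesL]
  | cons s w ih =>
    obtain ⟨h1, h2⟩ := ih (y + vec s)
    constructor
    · intro i hi
      cases i with
      | zero =>
        rw [isStep_iff]
        exact ⟨s, by simp [tot_cons, tot_nil]⟩
      | succ i =>
        have := h1 i (by simpa using hi)
        simpa [tot_cons, add_assoc] using this
    · intro t
      have h3 := h2 t
      rw [List.length_cons, Finset.sum_range_succ']
      simp only [List.take_succ_cons, tot_cons, List.take_zero, tot_nil, add_zero]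
      have h4 : costL n t (proj n y) (s :: w) =
          t s(proj n y, proj n (y + vec s)) + costL n t (proj n (y + vec s)) w := by
        simp [costL, edgesL, proj_add]
      rw [h4, h3]
      simp only [← add_assoc, List.take_zero, tot_nil, add_zero]
      ring

/-- representative of a torus vertex in the fundamental domain -/
def rep (n : ℕ) (x : ZMod n × ZMod n) : ℤ × ℤ := ((x.1.val : ℤ), (x.2.val : ℤ))

theorem proj_rep (n : ℕ) [NeZero n] (x : ZMod n × ZMod n) : proj n (rep n x) = x := by
  simp [proj, rep]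

theorem tot_horizontal (n : ℕ) : tot (List.replicate n (0 : Fin 4)) = ((n : ℤ), 0) := by
  induction n with
  | zero => rfl
  | succ n ih =>
    rw [List.replicate_succ, tot_cons, ih]
    simp [vec]
    ring

instance windNonempty (n : ℕ) : Nonempty (Wind n) :=
  ⟨⟨(0, List.replicate n 0), tot_horizontal n⟩⟩

/-- `T` is the infimum of the costs of the winding words -/
theorem T_eq (n : ℕ) [NeZero n] (ω : Sym2 (ZMod n × ZMod n) → ℝ≥0) :
    T n ω = ⨅ g : Wind n, costL n (fun e => (ω e : ℝ)) g.1.1 g.1.2 := by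
  unfold T
  rw [iInf]
  congr 1
  ext τ
  simp only [Set.mem_setOf_eq, Set.mem_range]
  constructor
  · rintro ⟨l, p, ⟨hp1, hp2⟩, rfl⟩
    obtain ⟨w, hw1, hw2, hw3⟩ := word_of_path n l p hp1
    refine ⟨⟨(proj n (p 0), w), ?_⟩, ?_⟩
    · rw [hp2] at hw2
      have h1 := congrArg Prod.fst hw2
      have h2 := congrArg Prod.snd hw2
      simp only [Prod.fst_add, Prod.snd_add] at h1 h2
      exact Prod.ext (by simp only; omega) (by simp only; omega)
    · rw [hw3 (fun e => (ω e : ℝ))]; rfl
  · rintro ⟨⟨⟨x, w⟩, hg⟩, rfl⟩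
    obtain ⟨h1, h2⟩ := path_of_word n (rep n x) w
    refine ⟨w.length, fun i => rep n x + tot (w.take i), ⟨h1, ?_⟩, ?_⟩
    · simp only [List.take_length, List.take_zero, tot_nil, add_zero]
      simp only at hg
      rw [hg]
      simp [Prod.ext_iff]
    · have := h2 (fun e => (ω e : ℝ))
      rw [proj_rep] at this
      rw [this]; rfl

/-- existence of minimisers (Dickson) -/
theorem exists_min {E Γ : Type*} [Fintype E] [Nonempty Γ] (cnt : Γ → E → ℕ) (t : E → ℝ)
    (ht : ∀ e, 0 ≤ t e) :
    ∃ g, ∀ g', ∑ e, (cnt g e : ℝ) * t e ≤ ∑ e, (cnt g' e : ℝ) * t e := by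
  by_contra hcon
  push Not at hcon
  choose f hf using hcon
  let s : ℕ → Γ := fun i => f^[i] (Classical.arbitrary Γ)
  have hs : StrictAnti (fun i => ∑ e, (cnt (s i) e : ℝ) * t e) := by
    apply strictAnti_nat_of_succ_lt
    intro i
    have : s (i + 1) = f (s i) := by
      simp only [s, Function.iterate_succ', Function.comp]
    rw [this]
    exact hf (s i)
  obtain ⟨i, j, hij, hle⟩ := wellQuasiOrdered_le (α := E → ℕ) (fun i => cnt (s i))
  have h1 := hs hij
  have h2 : ∑ e, (cnt (s i) e : ℝ) * t e ≤ ∑ e, (cnt (s j) e : ℝ) * t e := by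
    apply Finset.sum_le_sum
    intro e _
    apply mul_le_mul_of_nonneg_right _ (ht e)
    exact_mod_cast hle e
  simp only at h1
  linarith

/-- rank: length first, then an injective code -/
noncomputable def rankW (n : ℕ) [NeZero n] (g : Wind n) : ℕ ×ₗ ℕ :=
  toLex (g.1.2.length, (Fintype.equivFin (ZMod n × ZMod n) g.1.1 : ℕ) +
    Fintype.card (ZMod n × ZMod n) * Encodable.encode g.1.2)

theorem rankW_injective (n : ℕ) [NeZero n] : Function.Injective (rankW n) := by
  intro g g' h
  have h1 : ((Fintype.equivFin (ZMod n × ZMod n) g.1.1 : ℕ) +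
    Fintype.card (ZMod n × ZMod n) * Encodable.encode g.1.2) =
    ((Fintype.equivFin (ZMod n × ZMod n) g'.1.1 : ℕ) +
    Fintype.card (ZMod n × ZMod n) * Encodable.encode g'.1.2) := by
    have := congrArg (fun z => (ofLex z).2) h
    simpa [rankW] using this
  have hK : 0 < Fintype.card (ZMod n × ZMod n) := Fintype.card_pos
  have hm := congrArg (· % Fintype.card (ZMod n × ZMod n)) h1
  have hd := congrArg (· / Fintype.card (ZMod n × ZMod n)) h1
  simp only [Nat.add_mul_mod_self_left, Nat.mod_eq_of_lt (Fin.is_lt _),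
    Nat.add_mul_div_left _ _ hK, Nat.div_eq_of_lt (Fin.is_lt _), zero_add] at hm hd
  apply Subtype.ext
  apply Prod.ext
  · exact (Fintype.equivFin _).injective (Fin.ext hm)
  · exact Encodable.encode_injective hd

/-- multiplicities of the edges -/
def cntW (n : ℕ) [NeZero n] (g : Wind n) (e : Sym2 (ZMod n × ZMod n)) : ℕ :=
  (edgesL n g.1.1 g.1.2).count e

theorem cst_eq_costL (n : ℕ) [NeZero n] (tt : Sym2 (ZMod n × ZMod n) → Fin 3 → ℝ)
    (c : Sym2 (ZMod n × ZMod n) → Fin 3) (g : Wind n) :
    cst (cntW n) tt c g = costL n (fun e => tt e (c e)) g.1.1 g.1.2 := by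
  rw [costL_eq_count]; rfl

theorem exists_geo (n : ℕ) [NeZero n] (tt : Sym2 (ZMod n × ZMod n) → Fin 3 → ℝ)
    (htt : ∀ e s, 0 ≤ tt e s) :
    ∃ geo : (Sym2 (ZMod n × ZMod n) → Fin 3) → Wind n,
      (∀ c g, cst (cntW n) tt c (geo c) ≤ cst (cntW n) tt c g) ∧
      (∀ c g, (∀ g', cst (cntW n) tt c g ≤ cst (cntW n) tt c g') →
        rankW n (geo c) ≤ rankW n g) := by
  have h : ∀ c : Sym2 (ZMod n × ZMod n) → Fin 3, ∃ g : Wind n,
      (∀ g', cst (cntW n) tt c g ≤ cst (cntW n) tt c g') ∧
      (∀ g', (∀ g'', cst (cntW n) tt c g' ≤ cst (cntW n) tt c g'') →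
        rankW n g ≤ rankW n g') := by
    intro c
    obtain ⟨g0, hg0⟩ := exists_min (cntW n) (fun e => tt e (c e)) (fun e => htt e (c e))
    let S : Set (Wind n) := {g | ∀ g', cst (cntW n) tt c g ≤ cst (cntW n) tt c g'}
    have hS : S.Nonempty := ⟨g0, hg0⟩
    exact ⟨Function.argminOn (rankW n) S hS, Function.argminOn_mem (rankW n) S hS,
      fun g' hg' => Function.argminOn_le (rankW n) S hg'⟩
  choose geo h1 h2 using h
  exact ⟨geo, fun c g => h1 c g, fun c g hg => h2 c g hg⟩

/-- positions in the lattice are pairwise distinct -/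
def SA (w : List (Fin 4)) : Prop :=
  ∀ i j, i < j → j ≤ w.length → tot (w.take i) ≠ tot (w.take j)

theorem geo_SA (n : ℕ) [NeZero n] (tt : Sym2 (ZMod n × ZMod n) → Fin 3 → ℝ)
    (htt : ∀ e s, 0 ≤ tt e s) (c : Sym2 (ZMod n × ZMod n) → Fin 3) (g : Wind n)
    (hmin : ∀ g', cst (cntW n) tt c g ≤ cst (cntW n) tt c g')
    (hleast : ∀ g', (∀ g'', cst (cntW n) tt c g' ≤ cst (cntW n) tt c g'') →
        rankW n g ≤ rankW n g') : SA g.1.2 := by
  intro i j hij hj heq
  obtain ⟨⟨x, w⟩, hg⟩ := g
  simp only at hij hj heq hg hleast hmin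
  have hw : w = w.take i ++ (w.drop i).take (j - i) ++ w.drop j := by
    conv_lhs => rw [← List.take_append_drop i w, ← List.take_append_drop (j - i) (w.drop i)]
    rw [List.drop_drop, Nat.add_sub_cancel' hij.le, List.append_assoc]
  have htj : w.take j = w.take i ++ (w.drop i).take (j - i) := by
    conv_lhs => rw [hw]
    rw [List.take_append_of_le_length]
    · rw [List.take_of_length_le]
      simp; omega
    · simp; omega
  have hmid : tot ((w.drop i).take (j - i)) = 0 := by
    rw [htj, tot_append] at heq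
    exact (left_eq_add.mp heq)
  let w' := w.take i ++ w.drop j
  have hw' : tot w' = ((n : ℤ), 0) := by
    rw [← hg]
    conv_rhs => rw [hw]
    simp only [w', tot_append, hmid, add_zero]
  let g' : Wind n := ⟨(x, w'), hw'⟩
  have hcost : cst (cntW n) tt c g' ≤ cst (cntW n) tt c ⟨(x, w), hg⟩ := by
    rw [cst_eq_costL, cst_eq_costL]
    show costL n (fun e => tt e (c e)) x w' ≤ costL n (fun e => tt e (c e)) x w
    conv_rhs => rw [hw]
    simp only [w', costL_append, tot_append, hmid, add_zero]
    have := costL_nonneg n (fun e => tt e (c e)) (fun e => htt e (c e))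
      (x + proj n (tot (w.take i))) ((w.drop i).take (j - i))
    linarith
  have hmin' : ∀ g'', cst (cntW n) tt c g' ≤ cst (cntW n) tt c g'' :=
    fun g'' => hcost.trans (hmin g'')
  have hr := hleast g' hmin'
  have hlen : w'.length < w.length := by
    simp only [w', List.length_append, List.length_take, List.length_drop]
    omega
  have : rankW n g' < rankW n ⟨(x, w), hg⟩ := by
    rw [rankW, rankW, Prod.Lex.toLex_lt_toLex]
    left
    exact hlen
  exact absurd hr (not_le.mpr this)

theorem SA_take {w : List (Fin 4)} (h : SA w) (k : ℕ) : SA (w.take k) := by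
  intro i j hij hj
  rw [List.length_take] at hj
  rw [List.take_take, List.take_take, min_eq_left (by omega), min_eq_left (by omega)]
  exact h i j hij (by omega)

theorem SA_drop {w : List (Fin 4)} (h : SA w) (k : ℕ) : SA (w.drop k) := by
  intro i j hij hj heq
  rw [List.length_drop] at hj
  by_cases hk : k ≤ w.length
  · have h1 : ∀ r, tot (w.take (k + r)) = tot (w.take k) + tot ((w.drop k).take r) := by
      intro r
      rw [← tot_append, List.take_add]
    apply h (k + i) (k + j) (by omega) (by omega)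
    rw [h1, h1, heq]
  · omega

theorem vec_abs (s : Fin 4) : |(vec s).1| + |(vec s).2| = 1 := by
  fin_cases s <;> simp [vec]

theorem tot_abs (w : List (Fin 4)) : |(tot w).1| + |(tot w).2| ≤ w.length := by
  induction w with
  | nil => simp [tot_nil]
  | cons s w ih =>
    rw [tot_cons, List.length_cons]
    have h1 := abs_add_le (vec s).1 (tot w).1
    have h2 := abs_add_le (vec s).2 (tot w).2
    have h3 := vec_abs s
    simp only [Prod.fst_add, Prod.snd_add]
    push_cast
    linarith

theorem proj_eq_zero_small (n : ℕ) (z : ℤ × ℤ) (hz : |z.1| + |z.2| < n) (h : proj n z = 0) :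
    z = 0 := by
  have h1 : ((z.1 : ℤ) : ZMod n) = 0 := congrArg Prod.fst h
  have h2 : ((z.2 : ℤ) : ZMod n) = 0 := congrArg Prod.snd h
  rw [ZMod.intCast_zmod_eq_zero_iff_dvd] at h1 h2
  have a1 := abs_nonneg z.1
  have a2 := abs_nonneg z.2
  apply Prod.ext
  · exact Int.eq_zero_of_abs_lt_dvd h1 (by omega)
  · exact Int.eq_zero_of_abs_lt_dvd h2 (by omega)

/-- the torus vertices of a short self-avoiding word are distinct -/
theorem SA_verts {n : ℕ} {w : List (Fin 4)} (h : SA w) (hn : w.length < n) (i j : ℕ) (hij : i < j)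
    (hj : j ≤ w.length) : proj n (tot (w.take i)) ≠ proj n (tot (w.take j)) := by
  intro heq
  have h1 : w.take j = w.take i ++ (w.drop i).take (j - i) := by
    rw [← List.take_add, Nat.add_sub_cancel' hij.le]
  have h2 : proj n (tot ((w.drop i).take (j - i))) = 0 := by
    rw [h1, tot_append, proj_add] at heq
    exact left_eq_add.mp heq
  have h3 : tot ((w.drop i).take (j - i)) = 0 := by
    apply proj_eq_zero_small n _ _ h2
    have := tot_abs ((w.drop i).take (j - i))
    rw [List.length_take, List.length_drop] at this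
    have h4 : ((min (j - i) (w.length - i) : ℕ) : ℤ) ≤ (w.length : ℤ) := by
      have : min (j - i) (w.length - i) ≤ w.length := by omega
      exact_mod_cast this
    have h5 : (w.length : ℤ) < n := by exact_mod_cast hn
    omega
  apply h i j hij hj
  rw [h1, tot_append, h3, add_zero]

theorem edgesL_mem (n : ℕ) (x : ZMod n × ZMod n) (w : List (Fin 4)) (e : Sym2 (ZMod n × ZMod n))
    (he : e ∈ edgesL n x w) (v : ZMod n × ZMod n) (hv : v ∈ e) :
    ∃ i, i ≤ w.length ∧ v = x + proj n (tot (w.take i)) := by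
  induction w generalizing x with
  | nil => simp [edgesL] at he
  | cons s w ih =>
    simp only [edgesL, List.mem_cons] at he
    rcases he with rfl | he
    · rcases Sym2.mem_iff.mp hv with rfl | rfl
      · exact ⟨0, by simp, by simp [tot_nil, proj_zero]⟩
      · exact ⟨1, by simp, by simp [tot_cons, tot_nil]⟩
    · obtain ⟨i, hi, hv'⟩ := ih _ he
      refine ⟨i + 1, by simpa using hi, ?_⟩
      rw [hv', List.take_succ_cons, tot_cons, proj_add, add_assoc]

theorem edgesL_nodup {n : ℕ} (x : ZMod n × ZMod n) (w : List (Fin 4))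
    (h : ∀ i j, i < j → j ≤ w.length → proj n (tot (w.take i)) ≠ proj n (tot (w.take j))) :
    (edgesL n x w).Nodup := by
  induction w generalizing x with
  | nil => simp [edgesL]
  | cons s w ih =>
    simp only [edgesL, List.nodup_cons]
    constructor
    · intro hmem
      obtain ⟨i, hi, hx⟩ := edgesL_mem n _ w _ hmem x (Sym2.mem_mk_left _ _)
      apply h 0 (i + 1) (by omega) (by simpa using hi)
      rw [List.take_zero, List.take_succ_cons, tot_cons, tot_nil, proj_zero, proj_add]
      rw [add_assoc] at hx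
      exact (left_eq_add.mp hx).symm
    · apply ih
      intro i j hij hj heq
      apply h (i + 1) (j + 1) (by omega) (by simpa using hj)
      rw [List.take_succ_cons, List.take_succ_cons, tot_cons, tot_cons, proj_add, proj_add, heq]

theorem SA_card {n : ℕ} [NeZero n] {w : List (Fin 4)} (h : SA w) (hn : w.length < n)
    (x : ZMod n × ZMod n) : #(edgesL n x w).toFinset = w.length := by
  rw [List.toFinset_card_of_nodup (edgesL_nodup x w (SA_verts h hn)), edgesL_length]

end Pool.Agent.Helper46.Tor
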