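import Pool.Agent.Helper46.Tor.Core
import Pool.Agent.Helper46.Tor.Mix

set_option autoImplicit false

namespace Pool.Agent.Helper46.Tor

open MeasureTheory Finset ProbabilityTheory
open scoped NNReal ENNReal

instance windCountable (n : ℕ) [NeZero n] : Countable (Wind n) := by
  unfold Wind; infer_instance

theorem costL_bdd (n : ℕ) [NeZero n] (ω : Sym2 (ZMod n × ZMod n) → ℝ≥0) :
    BddBelow (Set.range fun g : Wind n => costL n (fun e => (ω e : ℝ)) g.1.1 g.1.2) :=
  ⟨0, by rintro _ ⟨g, rfl⟩; exact costL_nonneg n _ (fun e => (ω e).2) _ _⟩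

theorem T_le (n : ℕ) [NeZero n] (ω : Sym2 (ZMod n × ZMod n) → ℝ≥0) (g : Wind n) :
    T n ω ≤ costL n (fun e => (ω e : ℝ)) g.1.1 g.1.2 := by
  rw [T_eq]; exact ciInf_le (costL_bdd n ω) g

theorem T_attained (n : ℕ) [NeZero n] (ω : Sym2 (ZMod n × ZMod n) → ℝ≥0) :
    ∃ g : Wind n, T n ω = costL n (fun e => (ω e : ℝ)) g.1.1 g.1.2 := by
  obtain ⟨g, hg⟩ := exists_min (cntW n) (fun e => (ω e : ℝ)) (fun e => (ω e).2)
  refine ⟨g, le_antisymm (T_le n ω g) ?_⟩
  rw [T_eq]
  apply le_ciInf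
  intro g'
  have := hg g'
  rw [costL_eq_count, costL_eq_count]
  exact this

theorem T_nonneg (n : ℕ) [NeZero n] (ω : Sym2 (ZMod n × ZMod n) → ℝ≥0) : 0 ≤ T n ω := by
  obtain ⟨g, hg⟩ := T_attained n ω
  rw [hg]; exact costL_nonneg n _ (fun e => (ω e).2) _ _

theorem measurable_T (n : ℕ) [NeZero n] : Measurable (T n) := by
  have : T n = fun ω => ⨅ g : Wind n, costL n (fun e => (ω e : ℝ)) g.1.1 g.1.2 := by
    funext ω; exact T_eq n ω
  rw [this]
  apply Measurable.iInf
  intro g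
  have h2 : (fun ω : Sym2 (ZMod n × ZMod n) → ℝ≥0 => costL n (fun e => (ω e : ℝ)) g.1.1 g.1.2) =
      fun ω => ∑ e, ((edgesL n g.1.1 g.1.2).count e : ℝ) * (ω e : ℝ) := by
    funext ω; exact costL_eq_count n _ _ _
  rw [h2]
  fun_prop

open Classical in
theorem prob_main (n m k : ℕ) [NeZero n] (hn2 : 2 ≤ n) (hn : n ≤ 2 ^ m) (hk : 3 ≤ k)
    (hkm : 4 ^ k * k ≤ m) (F : Measure ℝ≥0) [IsProbabilityMeasure F] (a b : ℝ≥0) (hab : a < b)
    (ha : F (Set.Iic a) ≠ 0) (hb : F (Set.Ici b) ≠ 0) {ε : ℝ}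
    (hε : 0 ≤ ε) (hε1 : ε ≤ 1)
    (hε2 : 7488 * k * 4 ^ m * ε ^ 2 ≤ (F (Set.Iic a)).toReal * 2 ^ k)
    (hε3 : ∀ l : Lb k, (pex k l : ℝ) * ε ≤ (F (Set.Iic a)).toReal)
    (h : ℝ) (hh0 : 0 ≤ h) (hεh : 5 ≤ ε * h)
    (μ L : ℝ) (q : ℕ) (hq : q * (n - 1) ≤ 2 ^ m) (hL : L < b * h * q) (s : ℝ) (hs : 0 ≤ s) :
    (Measure.pi fun _ : Sym2 (ZMod n × ZMod n) => F) {ω | T n ω ≤ μ} ≤
      ENNReal.ofReal (2 * Real.exp 4) *
        (Measure.pi fun _ : Sym2 (ZMod n × ZMod n) => F)
          {ω | T n ω ≤ μ - (b - a) * (ε * h / 2)} +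
      (Measure.pi fun _ : Sym2 (ZMod n × ZMod n) => F) {ω | L < T n ω} +
      ENNReal.ofReal (2 * Real.exp (-10) + (n : ℝ) ^ 2 * (4 * 3 ^ (n - 2)) *
        (Real.exp (s * h) * (1 - (F (Set.Ici b)).toReal * (1 - Real.exp (-s))) ^ (n - 1))) := by
  set α := (F (Set.Iic a)).toReal with hα
  set β := (F (Set.Ici b)).toReal with hβ
  have hα0 : 0 < α := ENNReal.toReal_pos ha (measure_ne_top F _)
  have hβ0 : 0 < β := ENNReal.toReal_pos hb (measure_ne_top F _)
  have hαβ : α + β ≤ 1 := ab_le_one hab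
  have i1 := lawL_prob ha
  have i2 := lawH_prob hb
  have i3 : IsProbabilityMeasure (lawM F a b) := lawM_prob
  have i4 : IsProbabilityMeasure (nu3 F a b) := by unfold nu3; infer_instance
  have i5 : IsProbabilityMeasure (muK α β) := muK_prob hα0.le hβ0.le hαβ
  set PK := Measure.pi fun _ : Sym2 (ZMod n × ZMod n) => muK α β with hPK
  set PV := Measure.pi fun _ : Sym2 (ZMod n × ZMod n) => nu3 F a b with hPV
  have hmp := conf_mp (E := Sym2 (ZMod n × ZMod n)) hab ha hb
  have hT := measurable_T n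
  have mconf := measurable_conf (E := Sym2 (ZMod n × ZMod n))
  -- the three events in the product space
  set A : Set ((Sym2 (ZMod n × ZMod n) → Fin 3) ×
      (Sym2 (ZMod n × ZMod n) → (ℝ≥0 × ℝ≥0 × ℝ≥0))) :=
    {p | T n (conf p) ≤ μ ∧ T n (conf p) ≤ L ∧ Good1 n p.1 h} with hA
  have mG : MeasurableSet {c : Sym2 (ZMod n × ZMod n) → Fin 3 | Good1 n c h} :=
    (Set.toFinite _).measurableSet
  have mA : MeasurableSet A := by
    have e1 : MeasurableSet {p : (Sym2 (ZMod n × ZMod n) → Fin 3) ×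
      (Sym2 (ZMod n × ZMod n) → (ℝ≥0 × ℝ≥0 × ℝ≥0)) | T n (conf p) ≤ μ} :=
      measurableSet_le (hT.comp mconf) measurable_const
    have e2 : MeasurableSet {p : (Sym2 (ZMod n × ZMod n) → Fin 3) ×
      (Sym2 (ZMod n × ZMod n) → (ℝ≥0 × ℝ≥0 × ℝ≥0)) | T n (conf p) ≤ L} :=
      measurableSet_le (hT.comp mconf) measurable_const
    exact e1.inter (e2.inter (measurable_fst mG))
  have step1 : (PK.prod PV) (conf ⁻¹' {ω | T n ω ≤ μ}) ≤
      (PK.prod PV) A + (PK.prod PV) (conf ⁻¹' {ω | L < T n ω}) +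
      (PK.prod PV) {p | ¬ Good1 n p.1 h} := by
    refine le_trans (measure_mono ?_) (le_trans (measure_union_le _ _)
      (add_le_add_left (measure_union_le _ _) _))
    intro p hp
    simp only [Set.mem_preimage, Set.mem_ofPred_eq] at hp
    by_cases h1 : T n (conf p) ≤ L
    · by_cases h2 : Good1 n p.1 h
      · left; left; exact ⟨hp, h1, h2⟩
      · right; exact h2
    · left; right; exact not_le.mp h1
  have e0 : (Measure.pi fun _ : Sym2 (ZMod n × ZMod n) => F) {ω | T n ω ≤ μ} =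
      (PK.prod PV) (conf ⁻¹' {ω | T n ω ≤ μ}) :=
    (hmp.measure_preimage (measurableSet_le hT measurable_const).nullMeasurableSet).symm
  have e1 : (Measure.pi fun _ : Sym2 (ZMod n × ZMod n) => F) {ω | L < T n ω} =
      (PK.prod PV) (conf ⁻¹' {ω | L < T n ω}) :=
    (hmp.measure_preimage (measurableSet_lt measurable_const hT).nullMeasurableSet).symm
  -- bad event
  have e2 : (PK.prod PV) {p | ¬ Good1 n p.1 h} ≤
      ENNReal.ofReal ((n : ℝ) ^ 2 * (4 * 3 ^ (n - 2)) *
        (Real.exp (s * h) * (1 - β * (1 - Real.exp (-s))) ^ (n - 1))) := by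
    have h1 : {p : (Sym2 (ZMod n × ZMod n) → Fin 3) ×
      (Sym2 (ZMod n × ZMod n) → (ℝ≥0 × ℝ≥0 × ℝ≥0)) | ¬ Good1 n p.1 h} =
        {c | ¬ Good1 n c h} ×ˢ Set.univ := by
      ext p; simp
    rw [h1, Measure.prod_prod, measure_univ, mul_one, hPK,
      pi_muK_apply hα0.le hβ0.le hαβ (fun c => ¬ Good1 n c h)]
    apply ENNReal.ofReal_le_ofReal
    have h2 := bad_prob hn2 hα0.le hβ0.le hαβ h s hs
    refine le_trans (le_of_eq ?_) h2
    apply Finset.sum_congr rfl
    intro c _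
    congr 1
    by_cases hg : Good1 n c h <;> simp [hg]
  -- event A
  have e3 : (PK.prod PV) A ≤ ENNReal.ofReal (2 * Real.exp 4) *
      (Measure.pi fun _ : Sym2 (ZMod n × ZMod n) => F)
          {ω | T n ω ≤ μ - (b - a) * (ε * h / 2)} + ENNReal.ofReal (2 * Real.exp (-10)) := by
    rw [Measure.prod_apply_symm mA]
    have mB : MeasurableSet {ω | T n ω ≤ μ - (b - a) * (ε * h / 2)} :=
      measurableSet_le hT measurable_const
    rw [pi_F_eq hab ha hb _ mB, ← lintegral_const_mul' _ _ ENNReal.ofReal_ne_top]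
    have hconst : ENNReal.ofReal (2 * Real.exp (-10)) =
        ∫⁻ _v, ENNReal.ofReal (2 * Real.exp (-10)) ∂PV := by simp
    rw [hconst, ← lintegral_add_right _ measurable_const]
    apply lintegral_mono_ae
    have hae : ∀ᵐ v ∂PV, ∀ e, (v e).1 ≤ a ∧ b ≤ (v e).2.2 := by
      rw [ae_all_iff]
      intro e
      exact (Measure.tendsto_eval_ae_ae (μ := fun _ : Sym2 (ZMod n × ZMod n) => nu3 F a b)
        (i := e)).eventually (ae_nu3 ha hb)
    filter_upwards [hae] with v hv
    have h1 : (fun c => (c, v)) ⁻¹' A = {c | T n (conf (c, v)) ≤ μ ∧ T n (conf (c, v)) ≤ L ∧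
        Good1 n c h} := rfl
    rw [h1, hPK, pi_muK_apply hα0.le hβ0.le hαβ
      (fun c => T n (conf (c, v)) ≤ μ ∧ T n (conf (c, v)) ≤ L ∧ Good1 n c h),
      ← ENNReal.ofReal_mul (by positivity), ← ENNReal.ofReal_add]
    · apply ENNReal.ofReal_le_ofReal
      let tt : Sym2 (ZMod n × ZMod n) → Fin 3 → ℝ := fun e s => (val3 (s, v e) : ℝ)
      have hcost : ∀ c (g : Wind n), cst (cntW n) tt c g =
          costL n (fun e => ((conf (c, v)) e : ℝ)) g.1.1 g.1.2 := by
        intro c g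
        rw [cst_eq_costL]; rfl
      have hcore := core n m k hn2 hn hk hkm hα0 hβ0 hαβ hε hε1 hε2 hε3 (a : ℝ) (b : ℝ)
        b.2 (by exact_mod_cast hab.le) tt (fun e s => (val3 (s, v e)).2)
        (fun e => by
          have : val3 (0, v e) = (v e).1 := by simp [val3]
          simp only [tt, this]
          exact_mod_cast (hv e).1)
        (fun e => by
          have : val3 (2, v e) = (v e).2.2 := by simp [val3]
          simp only [tt, this]
          exact_mod_cast (hv e).2)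
        h hh0 hεh μ L q hq hL (fun c => T n (conf (c, v)))
        (fun c g => by rw [hcost]; exact T_le n _ g)
        (fun c => by
          obtain ⟨g, hg⟩ := T_attained n (conf (c, v))
          exact ⟨g, by rw [hcost]; exact hg⟩)
      have hfin : ∀ x y z w : ℝ, 1 / 2 * x ≤ Real.exp 4 * y + Real.exp (-10) → z = y → w = x →
          w ≤ 2 * Real.exp 4 * z + 2 * Real.exp (-10) := by
        intro x y z w h1 h2 h3
        subst h2 h3
        linarith
      exact hfin _ _ _ _ hcore rfl rfl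
    · apply mul_nonneg (by positivity)
      exact Finset.sum_nonneg fun c _ => mul_nonneg (PP_nonneg hα0.le hβ0.le hαβ c)
        (by split_ifs <;> norm_num)
    · positivity
  rw [e0, e1]
  calc _ ≤ _ := step1
    _ ≤ (ENNReal.ofReal (2 * Real.exp 4) *
      (Measure.pi fun _ : Sym2 (ZMod n × ZMod n) => F)
          {ω | T n ω ≤ μ - (b - a) * (ε * h / 2)} + ENNReal.ofReal (2 * Real.exp (-10))) +
        (PK.prod PV) (conf ⁻¹' {ω | L < T n ω}) +
        ENNReal.ofReal ((n : ℝ) ^ 2 * (4 * 3 ^ (n - 2)) *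
        (Real.exp (s * h) * (1 - β * (1 - Real.exp (-s))) ^ (n - 1))) := by gcongr
    _ = _ := by
        rw [ENNReal.ofReal_add (by positivity)]
        · ring
        · have hbase : 0 ≤ 1 - β * (1 - Real.exp (-s)) := by
            have := Real.exp_pos (-s)
            have h1 : Real.exp (-s) ≤ 1 := Real.exp_le_one_iff.mpr (by linarith)
            nlinarith
          positivity

/-- Markov bound -/
theorem mean_bound (n : ℕ) [NeZero n] (F : Measure ℝ≥0) [IsProbabilityMeasure F] (L : ℝ)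
    (hL : 0 < L) :
    (Measure.pi fun _ : Sym2 (ZMod n × ZMod n) => F) {ω | L < T n ω} ≤
      n * (∫⁻ x, (x : ℝ≥0∞) ∂F) / ENNReal.ofReal L := by
  set P := Measure.pi fun _ : Sym2 (ZMod n × ZMod n) => F with hP
  have hl : ∀ l : List (Sym2 (ZMod n × ZMod n)),
      ∫⁻ ω, (l.map fun e => ((ω e : ℝ≥0) : ℝ≥0∞)).sum ∂P = l.length * ∫⁻ x, (x : ℝ≥0∞) ∂F := by
    intro l
    induction l with
    | nil => simp
    | cons e l ih =>
      simp only [List.map_cons, List.sum_cons, List.length_cons]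
      rw [lintegral_add_left (by fun_prop), ih]
      have h1 : ∫⁻ ω, ((ω e : ℝ≥0) : ℝ≥0∞) ∂P = ∫⁻ x, (x : ℝ≥0∞) ∂F := by
        have hmp : MeasurePreserving (Function.eval e) P F := measurePreserving_eval _ e
        have := hmp.lintegral_comp (f := fun x : ℝ≥0 => (x : ℝ≥0∞)) (by fun_prop)
        exact this
      rw [h1]
      push_cast
      ring
  let g0 : Wind n := ⟨(0, List.replicate n 0), tot_horizontal n⟩
  have hsub : {ω : Sym2 (ZMod n × ZMod n) → ℝ≥0 | L < T n ω} ⊆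
      {ω | ENNReal.ofReal L ≤ ((edgesL n g0.1.1 g0.1.2).map fun e => ((ω e : ℝ≥0) : ℝ≥0∞)).sum} := by
    intro ω hω
    simp only [Set.mem_ofPred_eq] at hω ⊢
    have h1 := T_le n ω g0
    have h2 : ((edgesL n g0.1.1 g0.1.2).map fun e => ((ω e : ℝ≥0) : ℝ≥0∞)).sum =
        ENNReal.ofReal (costL n (fun e => (ω e : ℝ)) g0.1.1 g0.1.2) := by
      unfold costL
      generalize edgesL n g0.1.1 g0.1.2 = l
      induction l with
      | nil => simp
      | cons e l ih =>
        simp only [List.map_cons, List.sum_cons]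
        have hnn : 0 ≤ (List.map (fun e => ((ω e : ℝ≥0) : ℝ)) l).sum := List.sum_nonneg (by
          intro x hx
          obtain ⟨e', _, rfl⟩ := List.mem_map.mp hx
          exact (ω e').2)
        rw [ih, ENNReal.ofReal_add (NNReal.coe_nonneg (ω e)) hnn]
        congr 1
        exact (ENNReal.ofReal_coe_nnreal).symm
    rw [h2]
    exact ENNReal.ofReal_le_ofReal (by linarith)
  refine (measure_mono hsub).trans ?_
  have hmk := meas_ge_le_lintegral_div (μ := P)
    (f := fun ω => ((edgesL n g0.1.1 g0.1.2).map fun e => ((ω e : ℝ≥0) : ℝ≥0∞)).sum)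
    (by
      apply Measurable.aemeasurable
      generalize edgesL n g0.1.1 g0.1.2 = l
      induction l with
      | nil => simp
      | cons e l ih => simp only [List.map_cons, List.sum_cons]; fun_prop)
    (ε := ENNReal.ofReal L) (by simpa using hL) ENNReal.ofReal_ne_top
  refine hmk.trans ?_
  rw [hl, edgesL_length]
  simp [g0]

end Pool.Agent.Helper46.Tor
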